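import Pool.Agent.Lib.MP_0bc52e_nt.T.StmI2

/-!
# Polytopes of width one: free segments between integer points (piece SG)
-/

set_option autoImplicit false

namespace Pool.Agent.Lib.MP_0bc52e_nt.LC

/-- arithmetic for the end pieces -/
theorem sg_arith {n F G : ℤ} (hn : 1 ≤ n) (hF : 2 ≤ F) (hG : F + 1 ≤ G)
    (h : n * (F - 1) * G < (n + 1) * F) : n = 1 ∧ F = 2 ∧ G = 3 := by
  have h1 : n * (F - 1) * (F + 1) < (n + 1) * F := by
    refine lt_of_le_of_lt ?_ h
    exact mul_le_mul_of_nonneg_left hG (mul_nonneg (by omega) (by omega))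
  have hn1 : n = 1 := by
    by_contra hne
    have h2 : 2 ≤ n := by omega
    nlinarith [mul_nonneg (show (0 : ℤ) ≤ n - 2 by omega) (show (0 : ℤ) ≤ F - 2 by omega),
      mul_nonneg (mul_nonneg (show (0 : ℤ) ≤ n - 2 by omega) (show (0 : ℤ) ≤ F - 2 by omega))
        (show (0 : ℤ) ≤ F - 2 by omega)]
  subst hn1
  have hF2 : F = 2 := by
    by_contra hne
    have : 3 ≤ F := by omega
    nlinarith
  subst hF2
  refine ⟨rfl, rfl, by omega⟩

/-- the argument, with the second coordinate as the parameter -/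
theorem sg_core (p m n : ℕ) (f0 h0 F G : ℤ) (g : ℝ) (hp : m + n + 1 = p) (hn : 1 ≤ n)
    (hnm : n ≤ m) (hF : 2 ≤ F) (hFG : F < G) (hg : g * F = G) (hg1 : 1 < g)
    (hd : m = n → (n : ℤ) * G < (n + 1) * F → False)
    (hE : ∀ v w : ℝ, (h0 : ℝ) ≤ v → v ≤ w → w ≤ h0 + n * F →
      (∀ t : ℝ, v ≤ t → t ≤ w → ∀ l : ℤ, (l : ℝ) * p < t → t < l * p + n + 1 → False) →
      ∃ k : ℤ, (k : ℝ) * p < f0 + (v - h0) * g ∧ f0 + (w - h0) * g < k * p + n + 1) :
    F = 2 ∧ ∃ k l k' : ℤ, (k * p + 1 ≤ f0 ∧ f0 ≤ k * p + n) ∧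
      (l * p + 1 ≤ h0 + n ∧ h0 + n ≤ l * p + n) ∧
      (k' * p + 1 ≤ f0 + n * G ∧ f0 + n * G ≤ k' * p + n) := by
  have hnR : (1 : ℝ) ≤ n := by exact_mod_cast hn
  have hmnR : (n : ℝ) ≤ m := by exact_mod_cast hnm
  have hFR : (2 : ℝ) ≤ F := by exact_mod_cast hF
  have hGR : (F : ℝ) + 1 ≤ G := by exact_mod_cast hFG
  have hpR : (p : ℝ) = m + n + 1 := by
    rw [← hp]
    push_cast
    ring
  have hpZ : (p : ℤ) = m + n + 1 := by
    rw [← hp]
    push_cast
    ring
  have hnZ : (1 : ℤ) ≤ n := by exact_mod_cast hn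
  have hmnZ : (n : ℤ) ≤ m := by exact_mod_cast hnm
  have hnF : (n : ℝ) * 2 ≤ n * F := mul_le_mul_of_nonneg_left hFR (by linarith)
  have hnFg : (n : ℝ) * F * g = n * G := by rw [mul_assoc, mul_comm (F : ℝ) g, hg]
  -- (a)
  have ha : ∃ v : ℝ, (h0 : ℝ) ≤ v ∧ v ≤ h0 + n * F ∧ ∃ l : ℤ, (l : ℝ) * p < v ∧ v < l * p + n + 1 := by
    by_contra hcon
    push Not at hcon
    obtain ⟨k, hk1, hk2⟩ := hE h0 (h0 + n * F) le_rfl (by linarith) le_rfl
      (fun t ht1 ht2 l hl1 hl2 => absurd hl2 (not_lt.2 (hcon t ht1 ht2 l hl1)))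
    have : (n : ℝ) * G < n + 1 := by
      have : ((h0 : ℝ) + n * F - h0) * g = n * G := by rw [← hnFg]; ring
      rw [this] at hk2
      simp only [sub_self, zero_mul] at hk1
      linarith
    nlinarith
  obtain ⟨v, hv1, hv2, l, hl1, hl2⟩ := ha
  -- (b)
  have hb : ∀ (v v' : ℝ) (l l' : ℤ), (h0 : ℝ) ≤ v → v' ≤ h0 + n * F → (l : ℝ) * p < v →
      v < l * p + n + 1 → (l' : ℝ) * p < v' → v' < l' * p + n + 1 → l < l' → False := by
    intro v v' l l' hv hv' h1 h2 h3 h4 hll
    have hll' : ((l : ℝ) + 1) * p ≤ l' * p := by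
      refine mul_le_mul_of_nonneg_right ?_ (by positivity)
      exact_mod_cast hll
    have hlp : (l : ℝ) * p + n + 1 ≤ (l + 1) * p := by
      rw [add_mul, one_mul]
      linarith
    obtain ⟨k, hk1, hk2⟩ := hE (l * p + n + 1) ((l + 1) * p) (by linarith) hlp (by linarith)
      (by
        intro t ht1 ht2 l'' h5 h6
        have h7 : l'' < l + 1 := by
          have : (l'' : ℝ) * p < (l + 1) * p := lt_of_lt_of_le h5 ht2
          have h8 : (l'' : ℝ) < l + 1 := lt_of_mul_lt_mul_right this (by positivity)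
          exact_mod_cast h8
        have h8 : (l'' : ℝ) * p ≤ l * p := by
          refine mul_le_mul_of_nonneg_right ?_ (by positivity)
          have : l'' ≤ l := by omega
          exact_mod_cast this
        linarith)
    have h5 : (m : ℝ) * g < n + 1 := by
      have : (((l : ℝ) + 1) * p - h0) * g = (l * p + n + 1 - h0) * g + m * g := by
        rw [hpR]
        ring
      rw [this] at hk2
      linarith
    have h6 : (m : ℝ) * G < (n + 1) * F := by
      have : (m : ℝ) * g * F < (n + 1) * F := mul_lt_mul_of_pos_right h5 (by linarith)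
      rwa [mul_assoc, hg] at this
    have h7 : (m : ℤ) * G < (n + 1) * F := by exact_mod_cast h6
    by_cases hmn : m = n
    · subst hmn
      exact hd rfl h7
    · have h8 : (n : ℤ) + 1 ≤ m := by omega
      have h9 : ((n : ℤ) + 1) * G ≤ m * G := mul_le_mul_of_nonneg_right h8 (by omega)
      have h10 : ((n : ℤ) + 1) * F ≤ (n + 1) * G := mul_le_mul_of_nonneg_left hFG.le (by omega)
      omega
  have huniq : ∀ (v' : ℝ) (l' : ℤ), (h0 : ℝ) ≤ v' → v' ≤ h0 + n * F → (l' : ℝ) * p < v' →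
      v' < l' * p + n + 1 → l' = l := by
    intro v' l' h1 h2 h3 h4
    rcases lt_trichotomy l l' with h | h | h
    · exact (hb v v' l l' hv1 h2 hl1 hl2 h3 h4 h).elim
    · exact h.symm
    · exact (hb v' v l' l h1 hv2 h3 h4 hl1 hl2 h).elim
  -- the part below
  have hlow : h0 ≤ l * p → ∃ k : ℤ, (k : ℝ) * p < f0 ∧ f0 + (l * p - h0) * g < k * p + n + 1 := by
    intro h
    have hR : (h0 : ℝ) ≤ l * p := by exact_mod_cast h
    obtain ⟨k, hk1, hk2⟩ := hE h0 (l * p) le_rfl hR (by linarith)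
      (by
        intro t ht1 ht2 l' h5 h6
        have := huniq t l' ht1 (by linarith) h5 h6
        subst this
        linarith)
    refine ⟨k, ?_, hk2⟩
    simpa using hk1
  -- the part above
  have hupp : l * p + n + 1 ≤ h0 + n * F → ∃ k : ℤ,
      (k : ℝ) * p < f0 + (l * p + n + 1 - h0) * g ∧ (f0 : ℝ) + n * G < k * p + n + 1 := by
    intro h
    have hR : (l : ℝ) * p + n + 1 ≤ h0 + n * F := by exact_mod_cast h
    obtain ⟨k, hk1, hk2⟩ := hE (l * p + n + 1) (h0 + n * F) (by linarith) hR le_rfl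
      (by
        intro t ht1 ht2 l' h5 h6
        have := huniq t l' (by linarith) ht2 h5 h6
        subst this
        linarith)
    refine ⟨k, hk1, ?_⟩
    have : ((h0 : ℝ) + n * F - h0) * g = n * G := by rw [← hnFg]; ring
    rw [this] at hk2
    exact hk2
  have hlow' : h0 < l * p + n + 1 := by
    have : (h0 : ℝ) < l * p + n + 1 := by linarith
    exact_mod_cast this
  have hupp' : l * p < h0 + n * F := by
    have : (l : ℝ) * p < h0 + n * F := by linarith
    exact_mod_cast this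
  -- (c)
  have hc : h0 ≤ l * p := by
    by_contra hcon
    push Not at hcon
    have h1 : l * p + n + 1 ≤ h0 + n * F := by nlinarith
    obtain ⟨k, hk1, hk2⟩ := hupp h1
    have hconR : (l : ℝ) * p + 1 ≤ h0 := by exact_mod_cast hcon
    have h2 : ((n : ℝ) * (F - 1)) * g < n + 1 := by
      have h3 : ((l : ℝ) * p + n + 1 - h0) * g ≤ n * g :=
        mul_le_mul_of_nonneg_right (by linarith) (by linarith)
      have h4 : ((n : ℝ) * (F - 1)) * g = n * G - n * g := by rw [← hnFg]; ring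
      linarith
    have h3 : (n : ℝ) * (F - 1) * G < (n + 1) * F := by
      have : ((n : ℝ) * (F - 1)) * g * F < (n + 1) * F := mul_lt_mul_of_pos_right h2 (by linarith)
      rwa [mul_assoc, hg] at this
    have h4 : (n : ℤ) * (F - 1) * G < (n + 1) * F := by exact_mod_cast h3
    obtain ⟨hn1, hF2, hG3⟩ := sg_arith hnZ hF hFG h4
    have hn1' : n = 1 := by exact_mod_cast hn1
    subst hn1' hF2 hG3
    have h5 : h0 = l * p + 1 := by
      push_cast at hlow'
      omega
    have hg2 : g = 3 / 2 := by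
      push_cast at hg
      linarith
    rw [h5, hg2] at hk1
    push_cast at hk1 hk2
    have h6 : (k : ℝ) * p < f0 + 2 := by linarith
    have h7 : (f0 : ℝ) + 1 < k * p := by linarith
    have h8 : k * p < f0 + 2 := by exact_mod_cast h6
    have h9 : f0 + 1 < k * p := by exact_mod_cast h7
    omega
  -- (d)
  have hdd : l * p + n + 1 ≤ h0 + n * F := by
    by_contra hcon
    push Not at hcon
    obtain ⟨k, hk1, hk2⟩ := hlow hc
    have hconR : (h0 : ℝ) + n * F < l * p + n + 1 := by exact_mod_cast hcon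
    have hconR' : (h0 : ℝ) + n * F ≤ l * p + n := by
      have : h0 + n * F ≤ l * p + n := by omega
      exact_mod_cast this
    have h2 : ((n : ℝ) * (F - 1)) * g < n + 1 := by
      have h3 : ((n : ℝ) * (F - 1)) * g ≤ (l * p - h0) * g :=
        mul_le_mul_of_nonneg_right (by linarith) (by linarith)
      linarith
    have h3 : (n : ℝ) * (F - 1) * G < (n + 1) * F := by
      have : ((n : ℝ) * (F - 1)) * g * F < (n + 1) * F := mul_lt_mul_of_pos_right h2 (by linarith)
      rwa [mul_assoc, hg] at this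
    have h4 : (n : ℤ) * (F - 1) * G < (n + 1) * F := by exact_mod_cast h3
    obtain ⟨hn1, hF2, hG3⟩ := sg_arith hnZ hF hFG h4
    have hn1' : n = 1 := by exact_mod_cast hn1
    subst hn1' hF2 hG3
    have h5 : l * p = h0 + 1 := by
      push_cast at hupp' hcon
      omega
    have h5R : (l : ℝ) * p = h0 + 1 := by exact_mod_cast h5
    have hg2 : g = 3 / 2 := by
      push_cast at hg
      linarith
    rw [h5R, hg2] at hk2
    push_cast at hk2
    have h6 : (f0 : ℝ) < k * p + 1 := by linarith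
    have h7 : f0 < k * p + 1 := by exact_mod_cast h6
    have h8 : k * p < f0 := by exact_mod_cast hk1
    omega
  obtain ⟨k, hk1, hk2⟩ := hlow hc
  obtain ⟨k', hk1', hk2'⟩ := hupp hdd
  have hk1Z : k * p < f0 := by exact_mod_cast hk1
  have hk2Z' : f0 + n * G < k' * p + n + 1 := by exact_mod_cast hk2'
  have hcR : (h0 : ℝ) ≤ l * p := by exact_mod_cast hc
  have hddR : (l : ℝ) * p + n + 1 ≤ h0 + n * F := by exact_mod_cast hdd
  have hf0 : f0 < k * p + n + 1 := by
    have h1 : 0 ≤ ((l : ℝ) * p - h0) * g := mul_nonneg (by linarith) (by linarith)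
    have h2 : (f0 : ℝ) < k * p + n + 1 := by linarith
    exact_mod_cast h2
  have hf1 : k' * p < f0 + n * G := by
    have h1 : ((l : ℝ) * p + n + 1 - h0) * g ≤ (n * F) * g :=
      mul_le_mul_of_nonneg_right (by linarith) (by linarith)
    rw [hnFg] at h1
    have h2 : (k' : ℝ) * p < f0 + n * G := by linarith
    exact_mod_cast h2
  -- (e)
  obtain ⟨j, hj1, hj2⟩ : ∃ j : ℤ, l * p + 1 ≤ h0 + n * j ∧ h0 + n * j ≤ l * p + n := by
    refine ⟨(l * p + n - h0) / n, ?_, ?_⟩
    · have := Int.lt_mul_ediv_self_add (x := l * p + n - h0) (k := (n : ℤ)) (by omega)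
      omega
    · have := Int.mul_ediv_self_le (x := l * p + n - h0) (k := (n : ℤ)) (by omega)
      omega
  have hj1' : 1 ≤ j := by
    by_contra hcon
    have : n * j ≤ 0 := mul_nonpos_of_nonneg_of_nonpos (by omega) (by omega)
    omega
  have hjF : j ≤ F - 1 := by
    by_contra hcon
    have : (n : ℤ) * F ≤ n * j := mul_le_mul_of_nonneg_left (by omega) (by omega)
    omega
  -- (f)
  have hj : j = 1 := by
    by_contra hcon
    have h1 : (n : ℤ) * 2 ≤ n * j := mul_le_mul_of_nonneg_left (by omega) (by omega)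
    have h2 : (n : ℤ) ≤ l * p - h0 := by omega
    have h2R : (n : ℝ) ≤ l * p - h0 := by exact_mod_cast h2
    have h3 : (n : ℝ) ≤ (l * p - h0) * g := by
      calc (n : ℝ) = n * 1 := by ring
        _ ≤ (l * p - h0) * g := mul_le_mul h2R hg1.le (by norm_num) (by linarith)
    have h4 : (f0 : ℝ) < k * p + 1 := by linarith
    have h5 : f0 < k * p + 1 := by exact_mod_cast h4
    omega
  subst hj
  have hF2 : F = 2 := by
    by_contra hcon
    have h1 : (n : ℤ) * 3 ≤ n * F := mul_le_mul_of_nonneg_left (by omega) (by omega)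
    have h2 : (n : ℤ) ≤ h0 + n * F - (l * p + n + 1) := by omega
    have h2R : (n : ℝ) ≤ h0 + n * F - (l * p + n + 1) := by exact_mod_cast h2
    have h3 : (n : ℝ) ≤ (h0 + n * F - (l * p + n + 1)) * g := by
      calc (n : ℝ) = n * 1 := by ring
        _ ≤ (h0 + n * F - (l * p + n + 1)) * g := mul_le_mul h2R hg1.le (by norm_num) (by linarith)
    have h4 : ((l : ℝ) * p + n + 1 - h0) * g = n * G - (h0 + n * F - (l * p + n + 1)) * g := by
      rw [← hnFg]
      ring
    rw [h4] at hk1'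
    have h5 : (k' : ℝ) * p + n < f0 + n * G := by linarith
    have h6 : k' * p + n < f0 + n * G := by exact_mod_cast h5
    omega
  refine ⟨hF2, k, l, k', ⟨by omega, by omega⟩, ⟨?_, ?_⟩, ⟨by omega, by omega⟩⟩
  · simpa using hj1
  · simpa using hj2

theorem pI_SG (h1 : SI_VC) (h2 : SI_SGd) : SI_SG := by
  intro p m n c d x₀ y₀ G F hp hn hnm hmn hF hFG hs
  have hnR : (1 : ℝ) ≤ n := by exact_mod_cast hn
  have hFR : (2 : ℝ) ≤ F := by exact_mod_cast hF
  have hGR : (F : ℝ) + 1 ≤ G := by exact_mod_cast hFG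
  have hF0 : (F : ℝ) ≠ 0 := by linarith
  have hn0 : (n : ℝ) ≠ 0 := by linarith
  have hnp : n + 1 ≤ p := by omega
  have key := sg_core p m n (n * x₀ - c) (n * y₀ - d) F G ((G : ℝ) / F) hp hn hnm hF hFG
    (by field_simp) (by rw [lt_div_iff₀ (by linarith)]; linarith) ?_ ?_
  · obtain ⟨hF2, k, l, k', ⟨ha1, ha2⟩, ⟨hb1, hb2⟩, ⟨hc1, hc2⟩⟩ := key
    refine ⟨hF2, k, l, k', ⟨ha1, ha2⟩, ⟨?_, ?_⟩, ⟨?_, ?_⟩⟩
    · linarith
    · linarith
    · linarith
    · linarith
  · intro hmn' hlt
    subst hmn'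
    refine h2 m c d G F x₀ y₀ (hmn rfl) hFG hlt ?_
    intro s hs0 hs1
    have hpp : p = 2 * m + 1 := by omega
    rw [← hpp]
    exact hs s hs0 hs1
  · intro v w hv hvw hw hno
    push_cast at hv hw ⊢
    -- the parameter `s` of the value `t`
    have hpar : ∀ t : ℝ, (n * y₀ - d : ℝ) ≤ t → t ≤ n * y₀ - d + n * F →
        0 ≤ (t - (n * y₀ - d)) / (n * F) ∧ (t - (n * y₀ - d)) / (n * F) ≤ 1 := by
      intro t ht1 ht2
      constructor
      · exact div_nonneg (by linarith) (by positivity)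
      · rw [div_le_one (by positivity)]
        linarith
    have hV : ∀ t : ℝ, v ≤ t → t ≤ w →
        Vf p n c (x₀ + (t - (n * y₀ - d)) / (n * F) * G) := by
      intro t ht1 ht2
      obtain ⟨hs0, hs1⟩ := hpar t (by linarith) (by linarith)
      rcases hs _ hs0 hs1 with h | h
      · exact h
      · exfalso
        obtain ⟨l, hl1, hl2⟩ := h
        have : (n : ℝ) * (y₀ + (t - (n * y₀ - d)) / (n * F) * F) - d = t := by
          field_simp
          ring
        rw [this] at hl1 hl2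
        exact hno t ht1 ht2 l hl1 hl2
    obtain ⟨k, hk1, hk2⟩ := hV v le_rfl hvw
    have := h1 p n c k (x₀ + (v - (n * y₀ - d)) / (n * F) * G)
      (x₀ + (w - (n * y₀ - d)) / (n * F) * G) hnp ?_ hk1 hk2
    · refine ⟨k, ?_, ?_⟩
      · refine lt_of_lt_of_eq hk1 ?_
        field_simp
        ring
      · refine lt_of_eq_of_lt ?_ this.2
        field_simp
        ring
    · intro s hs0 hs1
      have h3 := hV ((1 - s) * v + s * w) (by nlinarith) (by nlinarith)
      have h4 : (x₀ : ℝ) + ((1 - s) * v + s * w - (n * y₀ - d)) / (n * F) * G =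
          (1 - s) * (x₀ + (v - (n * y₀ - d)) / (n * F) * G) +
            s * (x₀ + (w - (n * y₀ - d)) / (n * F) * G) := by
        field_simp
        ring
      rw [← h4]
      exact h3

end Pool.Agent.Lib.MP_0bc52e_nt.LC
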