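import Pool.Agent.Lib.MP_0bc52e_nt.T.StmI1

/-!
# MP_0bc52e_nt, conjecture (T), part I: the piece WW
-/

namespace Pool.Agent.Lib.MP_0bc52e_nt.LC

/-- the half of the translated Minkowski sum -/
def ww_F (A B : Set (ℝ × ℝ)) (v₁ v₂ : ℤ) : Set (ℝ × ℝ) :=
  {q | ∃ α ∈ A, ∃ β ∈ B, (v₁ : ℝ) + 2 * q.1 = α.1 + β.1 ∧ (v₂ : ℝ) + 2 * q.2 = α.2 + β.2}

theorem ww_convex (A B : Set (ℝ × ℝ)) (v₁ v₂ : ℤ) (hA : Convex ℝ A) (hB : Convex ℝ B) :
    Convex ℝ (ww_F A B v₁ v₂) := by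
  rintro q ⟨α, hα, β, hβ, h1, h2⟩ q' ⟨α', hα', β', hβ', h1', h2'⟩ s t hs ht hst
  refine ⟨s • α + t • α', hA hα hα' hs ht hst, s • β + t • β', hB hβ hβ' hs ht hst, ?_, ?_⟩
  · simp only [Prod.fst_add, Prod.smul_fst, smul_eq_mul]
    have : (v₁ : ℝ) = s * v₁ + t * v₁ := by rw [← add_mul, hst, one_mul]
    linear_combination this + s * h1 + t * h1'
  · simp only [Prod.snd_add, Prod.smul_snd, smul_eq_mul]
    have : (v₂ : ℝ) = s * v₂ + t * v₂ := by rw [← add_mul, hst, one_mul]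
    linear_combination this + s * h2 + t * h2'

/-- the common part of the two dilates -/
theorem ww_dil (A B : Set (ℝ × ℝ)) (v₁ v₂ : ℤ) (p n i : ℕ) (κ y z : ℤ)
    (hav : Avd A B p i i (κ * y) (κ * z)) (hi : 2 * (i : ℤ) + κ = p) (hn : 2 * (n : ℤ) + 1 = p)
    (h : ℕ) (hh : h = 2 * i) (r s : ℤ) (q₁ q₂ : ℝ) (hq : (q₁, q₂) ∈ ww_F A B v₁ v₂)
    (hr : (r : ℝ) = h * q₁) (hs : (s : ℝ) = h * q₂)
    (h1 : (p : ℤ) ∣ r - h * (-y - (n + 1) * v₁)) (h2 : (p : ℤ) ∣ s - h * (-z - (n + 1) * v₂)) :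
    False := by
  obtain ⟨α, hα, β, hβ, e1, e2⟩ := hq
  have hhz : (h : ℤ) = 2 * i := by rw [hh]; push_cast; ring
  have hhr : (h : ℝ) = 2 * i := by rw [hh]; push_cast; ring
  refine hav (r + i * v₁) (s + i * v₂) ?_ ?_ ⟨α, hα, β, hβ, ?_, ?_⟩
  · obtain ⟨w, hw⟩ := h1
    refine ⟨w - (y + i * v₁), ?_⟩
    rw [hhz] at hw
    linear_combination hw - y * hi - (i : ℤ) * v₁ * hn
  · obtain ⟨w, hw⟩ := h2
    refine ⟨w - (z + i * v₂), ?_⟩
    rw [hhz] at hw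
    linear_combination hw - z * hi - (i : ℤ) * v₂ * hn
  · push_cast
    rw [hr, hhr]
    simp only at e1
    linear_combination (i : ℝ) * e1
  · push_cast
    rw [hs, hhr]
    simp only at e2
    linear_combination (i : ℝ) * e2

theorem pI_WW (h1 : SI_WW4) (h2 : SI_plane2) : SI_WW := by
  intro A B p n y z x₀ y₀ a b c d hA hB hW hWt hdet hp hp13 hnp hav hav'
  obtain ⟨v₁, v₂, hv⟩ := h1 A B x₀ y₀ a b c d hA hB hW hWt hdet
  have hn : 2 * (n : ℤ) + 1 = p := by exact_mod_cast hnp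
  refine h2 (ww_F A B v₁ v₂) p (-y - (n + 1) * v₁) (-z - (n + 1) * v₂)
    (ww_convex A B v₁ v₂ hA hB) ?_ hp (by omega) ?_
  · intro r s
    obtain ⟨X, Y, hX, hY, α, hα, β, hβ, e1, e2⟩ := hv r s
    refine ⟨X, Y, ⟨α, hα, β, hβ, ?_, ?_⟩, hX, hY⟩
    · rw [← e1]
      push_cast
      rfl
    · rw [← e2]
      push_cast
      rfl
  · rintro h hh r s q₁ q₂ hq hr hs d1 d2
    rcases hh with hh | hh
    · exact ww_dil A B v₁ v₂ p n n 1 y z (by simpa using hav) hn hn h (by omega) r s q₁ q₂ hq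
        hr hs d1 d2
    · have hi : 2 * ((n - 1 : ℕ) : ℤ) + 3 = p := by
        rw [Nat.cast_sub (by omega)]
        push_cast
        linarith
      exact ww_dil A B v₁ v₂ p n (n - 1) 3 y z hav' hi hn h (by omega) r s q₁ q₂ hq
        hr hs d1 d2

end Pool.Agent.Lib.MP_0bc52e_nt.LC
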