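import Pool.Agent.Lib.MP_0bc52e_nt.T.StmI2

/-!
# MP_0bc52e_nt : [TI 4B]
-/

set_option autoImplicit false

namespace Pool.Agent.Lib.MP_0bc52e_nt.LC

/-- the form of the corridors for multiplicity one -/
private lemma l4B_vf {p : ℕ} {y y' : ℤ} (hy : y + 1 = p * y') {t : ℝ} (h : Vf p 1 y t) :
    ∃ T : ℤ, |t - T * p| < 1 := by
  obtain ⟨k, h1, h2⟩ := h
  have hyR : (y : ℝ) = p * y' - 1 := by
    have h3 : ((y + 1 : ℤ) : ℝ) = ((p * y' : ℤ) : ℝ) := by rw [hy]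
    push_cast at h3
    linarith
  rw [hyR] at h1 h2
  push_cast at h1 h2
  refine ⟨k + y', ?_⟩
  rw [abs_lt]
  push_cast
  constructor <;> linarith

private lemma l4B_noh {p : ℕ} {z z' : ℤ} (hz : z + 1 = p * z') (hp : 13 ≤ p) {t e : ℝ}
    (he : e = 1 ∨ e = -1) (h1 : 1 ≤ t) (h2 : t ≤ 2) : ¬ Vf p 1 z (e * t) := by
  intro h
  obtain ⟨T, hT⟩ := l4B_vf hz h
  have hpR : (13 : ℝ) ≤ p := by exact_mod_cast hp
  rw [abs_lt] at hT
  rcases lt_trichotomy T 0 with h0 | h0 | h0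
  · have h3 : (T : ℝ) ≤ -1 := by exact_mod_cast (by omega : T ≤ -1)
    have h4 : (T : ℝ) * p ≤ -13 := by nlinarith
    rcases he with rfl | rfl <;> linarith [hT.1, hT.2]
  · rw [h0] at hT
    push_cast at hT
    rcases he with rfl | rfl <;> linarith [hT.1, hT.2]
  · have h3 : (1 : ℝ) ≤ T := by exact_mod_cast (by omega : 1 ≤ T)
    have h4 : 13 ≤ (T : ℝ) * p := by nlinarith
    rcases he with rfl | rfl <;> linarith [hT.1, hT.2]

private lemma l4B_core (h2 : SI_VC) {B : Set (ℝ × ℝ)} {p : ℕ} {y z y' z' k q c₀ : ℤ}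
    (hB : Convex ℝ B) (hp : 13 ≤ p) (hQ : Qc p 1 y z B) (hy : y + 1 = p * y')
    (hz : z + 1 = p * z') (hq : 2 * q + 1 = k * p) (hc : c₀ = q ∨ c₀ = q + 1)
    (hcB : ip2 (c₀, 0) ∈ B) {e : ℝ} (he : e = 1 ∨ e = -1) {v : ℝ × ℝ} (hv : v ∈ B)
    (hv2 : 2 ≤ e * v.2) : False := by
  have hpR : (13 : ℝ) ≤ p := by exact_mod_cast hp
  have hee : e * e = 1 := by rcases he with rfl | rfl <;> norm_num
  set δ : ℝ := (v.1 - c₀) / (e * v.2) with hδ
  have hev : 0 < e * v.2 := by linarith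
  have hδv : δ * (e * v.2) = v.1 - c₀ := by
    rw [hδ, div_mul_cancel₀ _ hev.ne']
  -- the points of the segment
  have hpt : ∀ t : ℝ, 1 ≤ t → t ≤ 2 → (((c₀ : ℝ) + t * δ, e * t) : ℝ × ℝ) ∈ B := by
    intro t ht1 ht2
    have hs1 : 0 ≤ t / (e * v.2) := by positivity
    have hs2 : t / (e * v.2) ≤ 1 := by
      rw [div_le_one hev]
      linarith
    have h := hB hcB hv (sub_nonneg.2 hs2) hs1 (by ring)
    have heq : (1 - t / (e * v.2)) • ip2 (c₀, 0) + (t / (e * v.2)) • v =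
        (((c₀ : ℝ) + t * δ, e * t) : ℝ × ℝ) := by
      refine Prod.ext ?_ ?_
      · simp only [ip2, Prod.fst_add, Prod.smul_fst, smul_eq_mul]
        rw [hδ]
        field_simp
        ring
      · simp only [ip2, Prod.snd_add, Prod.smul_snd, smul_eq_mul]
        push_cast
        rw [mul_zero, zero_add, div_mul_eq_mul_div, div_eq_iff hev.ne']
        linear_combination (-(t * v.2)) * hee
    rw [heq] at h
    exact h
  have hVf : ∀ t : ℝ, 1 ≤ t → t ≤ 2 → Vf p 1 y ((c₀ : ℝ) + t * δ) := by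
    intro t ht1 ht2
    rcases hQ _ (hpt t ht1 ht2) with h | h
    · exact h
    · exact absurd h (l4B_noh hz hp he ht1 ht2)
  obtain ⟨K, hK1, hK2⟩ := hVf 1 le_rfl (by norm_num)
  have hVC := h2 p 1 y K ((c₀ : ℝ) + 1 * δ) ((c₀ : ℝ) + 2 * δ) (by omega) (by
    intro s hs0 hs1
    have h3 := hVf (1 + s) (by linarith) (by linarith)
    have h4 : (1 - s) * ((c₀ : ℝ) + 1 * δ) + s * ((c₀ : ℝ) + 2 * δ) = (c₀ : ℝ) + (1 + s) * δ := by
      ring
    rw [h4]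
    exact h3) hK1 hK2
  have hyR : (y : ℝ) = p * y' - 1 := by
    have h3 : ((y + 1 : ℤ) : ℝ) = ((p * y' : ℤ) : ℝ) := by rw [hy]
    push_cast at h3
    linarith
  rw [hyR] at hK1 hK2 hVC
  push_cast at hK1 hK2 hVC
  obtain ⟨hL1, hL2⟩ := hVC
  -- `|c₀ - T p| < 3`
  set T : ℤ := K + y' with hT
  have hTR : (T : ℝ) = K + y' := by
    rw [hT]
    push_cast
    ring
  have h5 : (c₀ : ℝ) - T * p < 3 := by
    rw [hTR]
    nlinarith
  have h6 : -3 < (c₀ : ℝ) - T * p := by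
    rw [hTR]
    nlinarith
  have h7 : c₀ - T * p < 3 := by exact_mod_cast h5
  have h8 : -3 < c₀ - T * p := by exact_mod_cast h6
  have hpZ : (13 : ℤ) ≤ p := by exact_mod_cast hp
  -- parity
  have hodd : (k - 2 * T) ≠ 0 := by
    intro h0
    have hk : k = 2 * T := by linarith
    rw [hk] at hq
    have : (2 : ℤ) ∣ 1 := ⟨T * p - q, by linarith⟩
    omega
  have h9 : (k - 2 * T) * p = 2 * q + 1 - 2 * (T * p) := by linarith
  rcases lt_or_gt_of_ne hodd with h0 | h0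
  · have h10 : (k - 2 * T) * p ≤ -13 := by nlinarith
    rcases hc with rfl | rfl <;> linarith
  · have h10 : 13 ≤ (k - 2 * T) * p := by nlinarith
    rcases hc with rfl | rfl <;> linarith

theorem pI_4B (h1 : SI_Q) (h2 : SI_VC) : SI_4B := by
  intro A B p y z hA hB hp hC hAvd v hv
  obtain ⟨hS, ⟨k, q, hq, hk, hb1, hb2, hb3⟩, ⟨y', hy⟩, ⟨z', hz⟩⟩ := hC
  have hQ := h1 A B p (p - 2) 1 y z hA hS (by omega) (by omega) hAvd
  obtain ⟨c₀, hc, hcB⟩ : ∃ c₀ : ℤ, (c₀ = q ∨ c₀ = q + 1) ∧ ip2 (c₀, 0) ∈ B := by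
    rcases hb3 with h | h
    · exact ⟨q, Or.inl rfl, h⟩
    · exact ⟨q + 1, Or.inr rfl, h⟩
  constructor
  · by_contra h
    exact l4B_core h2 hB hp hQ hy hz hq hc hcB (e := -1) (Or.inr rfl) hv (by linarith)
  · by_contra h
    exact l4B_core h2 hB hp hQ hy hz hq hc hcB (e := 1) (Or.inl rfl) hv (by linarith)

end Pool.Agent.Lib.MP_0bc52e_nt.LC
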