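import Pool.Agent.Lib.MP_0bc52e_nt.T.StmI1

/-!
# MP_0bc52e_nt, conjecture (T), part I: piece CW
-/

namespace Pool.Agent.Lib.MP_0bc52e_nt.LC

theorem pI_CW (h1 : SI_Wfull) (h2 : SI_wpt) : SI_CW := by
  intro A B p m n y z hA hB hW hWt hmn hp h3 hAvd
  obtain ⟨X, Y, hX, hY, e1, e2, e3⟩ := h1 p (by omega) h3 y z
  have hpR : ((m : ℝ) + n) + 1 = p := by exact_mod_cast hmn
  have hp2 : (2 : ℝ) ≤ p := by exact_mod_cast hp
  have hAB : W3 (A ∩ B) := by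
    obtain ⟨w1, w2, w3⟩ := hW
    obtain ⟨b1, b2, b3⟩ := hWt
    simp only [ip2] at b1 b2 b3
    norm_num at b1 b2 b3
    exact ⟨⟨w1, b1⟩, ⟨w2, b2⟩, ⟨w3, b3⟩⟩
  have e1' : (X : ℝ) + Y ≤ p - 1 := by exact_mod_cast e1
  have e2' : -2 * (X : ℝ) + Y ≤ p - 1 := by exact_mod_cast e2
  have e3' : (X : ℝ) - 2 * Y ≤ p - 1 := by exact_mod_cast e3
  obtain ⟨a, ha, ha1, ha2⟩ := h2 (A ∩ B) ((m : ℝ) + n) X Y (hA.inter hB) hAB (by linarith)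
    (by linarith) (by linarith) (by linarith)
  exact hAvd X Y hX hY ⟨a, ha.1, a, ha.2, by rw [← ha1]; ring, by rw [← ha2]; ring⟩

end Pool.Agent.Lib.MP_0bc52e_nt.LC
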