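import Pool.Agent.Lib.MP_0bc52e_nt.T.StmI1

/-!
# MP_0bc52e_nt, part I: piece CX
-/

set_option autoImplicit false

namespace Pool.Agent.Lib.MP_0bc52e_nt.LC

/-- the lower edge and the upper edge of `n B` -/
private theorem cx_seg (B : Set (ℝ × ℝ)) (n : ℕ) (hB : Convex ℝ B) (hn : 0 < (n : ℝ)) (u : ℝ) (v : ℝ)
    (h1 : ((1 : ℝ), v) ∈ B) (h2 : ((-2 : ℝ), (-1 : ℝ)) ∈ B) (hu : -2 * (n : ℝ) ≤ u) (hu' : u ≤ n) :
    ∃ b ∈ B, (n : ℝ) * b.1 = u ∧ (n : ℝ) * b.2 = -n + (v + 1) * (u + 2 * n) / 3 := by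
  have ht0 : 0 ≤ (u + 2 * n) / (3 * n) := by
    apply div_nonneg <;> linarith
  have ht1 : (u + 2 * n) / (3 * n) ≤ 1 := by
    rw [div_le_one (by linarith)]
    linarith
  refine ⟨_, hB h2 h1 (sub_nonneg.2 ht1) ht0 (by ring), ?_, ?_⟩
  · simp only [Prod.fst_add, Prod.smul_fst, smul_eq_mul]
    field_simp
    ring
  · simp only [Prod.snd_add, Prod.smul_snd, smul_eq_mul]
    field_simp
    ring

/-- [CX] -/
theorem pI_CX (h1 : S_res) (h2 : SI_colm) (h3 : SI_wpt) : SI_CX := by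
  intro A B p m n y z hA hB hW hT hmid hav
  obtain ⟨hmn, hnm, h3m, hn4⟩ := hmid
  obtain ⟨t1, t2, t3⟩ := hT
  simp only [ip2] at t1 t2 t3
  norm_num at t1 t2 t3
  have hp : 0 < p := by omega
  obtain ⟨r, hr⟩ : ∃ r : ℕ, r = (m - 2) / 3 := ⟨_, rfl⟩
  have hr1 : 3 * r + 2 ≤ m := by omega
  have hr2 : m ≤ 3 * r + 4 := by omega
  have hr3 : n + 3 ≤ m + r := by omega
  have hr4 : m ≤ 2 * n + r := by omega
  obtain ⟨X, hX, hX1, hX2⟩ := h1 p hp y ((r : ℝ) - m)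
  have hn0 : (0 : ℝ) < (n : ℝ) := by
    have : 0 < n := by omega
    exact_mod_cast this
  have hm0 : (0 : ℝ) < (m : ℝ) := by
    have : 0 < m := by omega
    exact_mod_cast this
  have hX3 : X ≤ (r : ℤ) + n := by
    have h : (X : ℝ) < ((r : ℤ) - (m : ℤ) + (p : ℤ) : ℤ) := by
      push_cast
      linarith
    have h' : X < (r : ℤ) - (m : ℤ) + (p : ℤ) := by exact_mod_cast h
    omega
  have hX3' : (X : ℝ) ≤ (r : ℝ) + n := by exact_mod_cast hX3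
  have hr1' : 3 * (r : ℝ) + 2 ≤ m := by exact_mod_cast hr1
  have hr2' : (m : ℝ) ≤ 3 * r + 4 := by exact_mod_cast hr2
  have hr3' : (n : ℝ) + 3 ≤ m + r := by exact_mod_cast hr3
  have hr4' : (m : ℝ) ≤ 2 * n + r := by exact_mod_cast hr4
  have hmn' : (m : ℝ) + n + 1 = p := by exact_mod_cast hmn
  have hnm' : (n : ℝ) + 2 ≤ m := by exact_mod_cast hnm
  have h3m' : 3 * (m : ℝ) < 2 * p := by exact_mod_cast h3m
  have hn4' : (4 : ℝ) ≤ n := by exact_mod_cast hn4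
  have hr0 : (0 : ℝ) ≤ r := Nat.cast_nonneg r
  have key : ∀ lo hi : ℝ, Pt A B m n X lo → Pt A B m n X hi → (p : ℝ) ≤ hi - lo → False :=
    fun lo hi h h' h'' => h2 A B p m n y z X lo hi hA hB hp hav hX h h' (Or.inl h'')
  rcases le_total ((n : ℝ) - m) X with hc | hc
  · -- the lower point
    have hlo : Pt A B m n X (((X : ℝ) - n - m) / 2) := by
      obtain ⟨a, ha, ha1, ha2⟩ := h3 A m ((X : ℝ) - n) (((X : ℝ) - n - m) / 2) hA hW hm0
        (by linarith) (by linarith) (by linarith)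
      exact ⟨a, ha, _, t1, by rw [ha1]; simp, by rw [ha2]; simp⟩
    rcases le_total (X : ℝ) n with hc2 | hc2
    · obtain ⟨a, ha, ha1, ha2⟩ := h3 A m 0 m hA hW hm0 (by linarith) (by linarith) (by linarith)
      obtain ⟨b, hb, hb1, hb2⟩ := cx_seg B n hB hn0 X 1 t2 t3 (by linarith) hc2
      refine key _ (m + (-n + (1 + 1) * ((X : ℝ) + 2 * n) / 3)) hlo
        ⟨a, ha, b, hb, by rw [ha1, hb1]; ring, by rw [ha2, hb2]⟩ (by linarith)
    · obtain ⟨a, ha, ha1, ha2⟩ := h3 A m ((X : ℝ) - n) (m - ((X : ℝ) - n)) hA hW hm0 (by linarith) (by linarith) (by linarith)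
      refine key _ (m - ((X : ℝ) - n) + n) hlo
        ⟨a, ha, _, t2, by rw [ha1]; simp, by rw [ha2]; simp⟩ (by linarith)
  · obtain ⟨a, ha, ha1, ha2⟩ := h3 A m 0 m hA hW hm0 (by linarith) (by linarith) (by linarith)
    obtain ⟨b, hb, hb1, hb2⟩ := cx_seg B n hB hn0 X 1 t2 t3 (by linarith) (by linarith)
    obtain ⟨a', ha', ha1', ha2'⟩ := h3 A m (-m) (-m) hA hW hm0 (by linarith) (by linarith) (by linarith)
    obtain ⟨b', hb', hb1', hb2'⟩ := cx_seg B n hB hn0 ((X : ℝ) + m) 0 t1 t3 (by linarith) (by linarith)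
    refine key (-m + (-n + (0 + 1) * ((X : ℝ) + m + 2 * n) / 3)) (m + (-n + (1 + 1) * ((X : ℝ) + 2 * n) / 3))
      ⟨a', ha', b', hb', by rw [ha1', hb1']; ring, by rw [ha2', hb2']⟩
      ⟨a, ha, b, hb, by rw [ha1, hb1]; ring, by rw [ha2, hb2]⟩ (by linarith)

end Pool.Agent.Lib.MP_0bc52e_nt.LC
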