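import Pool.Agent.Lib.MP_0bc52e_nt.T.StmI1

namespace Pool.Agent.Lib.MP_0bc52e_nt.LC

private theorem cz0_pt (h4 : SI_wpt) (h5 : SI_spt) (A B : Set (ℝ × ℝ)) (hA : Convex ℝ A)
    (hB : Convex ℝ B) (hW : W3 A) (hS : S4 B) (m n : ℕ) (hm : 0 < m) (hn : 0 < n)
    (a1 a2 b1 b2 X Y : ℝ) (e1 : a1 + a2 ≤ m) (e2 : -2 * a1 + a2 ≤ m) (e3 : a1 - 2 * a2 ≤ m)
    (f1 : 0 ≤ b1) (f2 : b1 ≤ n) (f3 : 0 ≤ b2) (f4 : b2 ≤ n) (hX : X = a1 + b1)
    (hY : Y = a2 + b2) : Pt A B m n X Y := by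
  obtain ⟨a, ha, ha1, ha2⟩ := h4 A m a1 a2 hA hW (by exact_mod_cast hm) e1 e2 e3
  obtain ⟨b, hb, hb1, hb2⟩ := h5 B n b1 b2 hB hS (by exact_mod_cast hn) f1 f2 f3 f4
  exact ⟨a, ha, b, hb, by rw [ha1, hb1, hX], by rw [ha2, hb2, hY]⟩

theorem pI_CZ0 (h1 : S_res) (h2 : SI_colm) (h3 : SI_colm2) (h4 : SI_wpt) (h5 : SI_spt) :
    SI_CZ0 := by
  intro A B p m n y z hA hB hW hZ hMid hAvd
  obtain ⟨hp, hnm, h3m, hn4⟩ := hMid
  have hS : S4 B := by
    obtain ⟨q1, q2, q3, q4⟩ := hZ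
    simp only [ip2] at q1 q2 q3 q4
    norm_num at q1 q2 q3 q4
    exact ⟨q1, q2, q3, q4⟩
  have hm0 : 0 < m := by omega
  have hn0 : 0 < n := by omega
  have hp0 : 0 < p := by omega
  have P := fun a1 a2 b1 b2 X Y => cz0_pt h4 h5 A B hA hB hW hS m n hm0 hn0 a1 a2 b1 b2 X Y
  have hpR : (p : ℝ) = m + n + 1 := by rw [← hp]; push_cast; ring
  have hnmR : (n : ℝ) + 2 ≤ m := by exact_mod_cast hnm
  have hm2 : (m : ℝ) ≤ 2 * n + 1 := by
    have : m ≤ 2 * n + 1 := by omega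
    exact_mod_cast this
  have hn4R : (4 : ℝ) ≤ n := by exact_mod_cast hn4
  obtain ⟨X, hXy, hX1, hX2⟩ := h1 p hp0 y (-(m : ℝ))
  have hX2' : (X : ℝ) ≤ n := by
    have : (X : ℝ) < (n : ℝ) + 1 := by linarith
    have h : X < (n : ℤ) + 1 := by exact_mod_cast this
    have h' : X ≤ (n : ℤ) := by omega
    exact_mod_cast h'
  by_cases hX0 : 0 ≤ X
  · have hX0' : (0 : ℝ) ≤ X := by exact_mod_cast hX0
    refine h2 A B p m n y z X (-(m : ℝ) / 2) (m + n) hA hB hp0 hAvd hXy ?_ ?_ (Or.inl ?_)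
    · exact P 0 (-(m : ℝ) / 2) X 0 X _ (by linarith) (by linarith) (by linarith) hX0' hX2'
        (by linarith) (by linarith) (by ring) (by ring)
    · exact P 0 m X n X _ (by linarith) (by linarith) (by linarith) hX0' hX2'
        (by linarith) (by linarith) (by ring) (by ring)
    · rw [hpR]; linarith
  · push_neg at hX0
    obtain ⟨u, hu⟩ : ∃ u : ℤ, u = -X := ⟨-X, rfl⟩
    have hu1 : (1 : ℤ) ≤ u := by omega
    have hu1' : (1 : ℝ) ≤ u := by exact_mod_cast hu1
    have hXu : (X : ℝ) = -u := by rw [hu]; push_cast; ring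
    have hum : (u : ℝ) ≤ m := by linarith
    -- points of the column X
    have U : Pt A B m n X (((m : ℤ) + n - 2 * u : ℤ) : ℝ) := by
      push_cast
      exact P (-u) (m - 2 * u) 0 n X _ (by linarith) (by linarith) (by linarith)
        le_rfl (by linarith) (by linarith) le_rfl (by rw [hXu]; ring) (by ring)
    have L1 : (m : ℝ) - n ≤ u → Pt A B m n X (-(m : ℝ)) := fun h =>
      P (-m) (-m) (m - u) 0 X _ (by linarith) (by linarith) (by linarith) (by linarith)
        (by linarith) le_rfl (by linarith) (by rw [hXu]; ring) (by ring)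
    have L2 : (u : ℝ) ≤ m - n → Pt A B m n X (-((u : ℝ) + n + m) / 2) := fun h =>
      P (-u - n) ((-u - n - m) / 2) n 0 X _ (by linarith) (by linarith) (by linarith) (by linarith)
        (by linarith) le_rfl (by linarith) (by rw [hXu]; ring) (by ring)
    -- the column X'
    have hX'y : (p : ℤ) ∣ ((p : ℤ) + X) - y := by
      have : (p : ℤ) + X - y = p + (X - y) := by ring
      rw [this]; exact dvd_add (dvd_refl _) hXy
    have U' : Pt A B m n (((p : ℤ) + X : ℤ) : ℝ) ((u - 1 + n : ℤ) : ℝ) := by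
      push_cast
      exact P (m + 1 - u) (u - 1) n n _ _ (by linarith) (by linarith) (by linarith)
        (by linarith) le_rfl (by linarith) le_rfl (by rw [hXu, hpR]; ring) (by ring)
    have L' : Pt A B m n (((p : ℤ) + X : ℤ) : ℝ) ((1 - (u : ℝ)) / 2) := by
      push_cast
      exact P (m + 1 - u) ((1 - u) / 2) n 0 _ _ (by linarith) (by linarith) (by linarith)
        (by linarith) le_rfl (by linarith) (by linarith) (by rw [hXu, hpR]; ring) (by ring)
    by_cases hA1 : u ≤ (m : ℤ) - n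
    · have hA1' : (u : ℝ) ≤ m - n := by
        have : ((u : ℤ) : ℝ) ≤ (((m : ℤ) - n : ℤ) : ℝ) := by exact_mod_cast hA1
        push_cast at this; exact this
      by_cases hB1 : 3 * u ≤ (m : ℤ) + n
      · have hB1' : 3 * (u : ℝ) ≤ m + n := by exact_mod_cast hB1
        refine h2 A B p m n y z X _ _ hA hB hp0 hAvd hXy (L2 hA1') U
          (Or.inr (Or.inl ⟨_, rfl, ?_⟩))
        push_cast; rw [hpR]; linarith
      · have hB1' : (m : ℝ) + n + 1 ≤ 3 * u := by
          have : (m : ℤ) + n + 1 ≤ 3 * u := by omega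
          exact_mod_cast this
        have hu2 : 3 * (u : ℝ) ≤ 2 * (m + n + 1) - 1 := by
          linarith
        refine h3 A B p m n y z X _ _ _ _ _ hA hB hp0 hAvd hXy hX'y (L2 hA1') U L' U' ?_ ?_
        · push_cast; linarith
        · push_cast; rw [hpR]; linarith
    · have hA1' : (m : ℝ) - n ≤ u := by
        have : (m : ℤ) - n ≤ u := by omega
        have h : (((m : ℤ) - n : ℤ) : ℝ) ≤ ((u : ℤ) : ℝ) := by exact_mod_cast this
        push_cast at h; exact h
      have hu2 : 3 * (u : ℝ) ≤ 2 * (m + n + 1) - 1 := by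
        have h3m' : 3 * u ≤ 2 * ((m : ℤ) + n + 1) - 1 := by
          have : (u : ℤ) ≤ m := by exact_mod_cast hum
          omega
        have h : ((3 * u : ℤ) : ℝ) ≤ ((2 * ((m : ℤ) + n + 1) - 1 : ℤ) : ℝ) := by
          exact_mod_cast h3m'
        push_cast at h; linarith
      refine h3 A B p m n y z X _ _ _ _ _ hA hB hp0 hAvd hXy hX'y (L1 hA1') U L' U' ?_ ?_
      · push_cast; linarith
      · push_cast; rw [hpR]; linarith

end Pool.Agent.Lib.MP_0bc52e_nt.LC
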