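import Pool.Agent.Lib.MP_0bc52e_nt.T.StmI1

namespace Pool.Agent.Lib.MP_0bc52e_nt.LC

private theorem cz3_zt (B : Set (ℝ × ℝ)) (hB : Convex ℝ B) (n : ℝ) (hn : 0 < n) (s t : ℝ)
    (hs0 : 0 ≤ s) (hs1 : s ≤ n) (ht0 : 0 ≤ t) (ht1 : t ≤ n)
    (q1 : ((0 : ℝ), (0 : ℝ)) ∈ B) (q2 : ((0 : ℝ), (1 : ℝ)) ∈ B) (q3 : ((1 : ℝ), (-2 : ℝ)) ∈ B)
    (q4 : ((1 : ℝ), (-1 : ℝ)) ∈ B) : ∃ b ∈ B, n * b.1 = t ∧ n * b.2 = s - 2 * t := by
  have hs' : s / n ≤ 1 := (div_le_one hn).2 hs1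
  have ht' : t / n ≤ 1 := (div_le_one hn).2 ht1
  have hs2 : 0 ≤ s / n := div_nonneg hs0 hn.le
  have ht2 : 0 ≤ t / n := div_nonneg ht0 hn.le
  have P0 := hB q1 q2 (sub_nonneg.2 hs') hs2 (by ring)
  have P1 := hB q3 q4 (sub_nonneg.2 hs') hs2 (by ring)
  have P2 := hB P0 P1 (sub_nonneg.2 ht') ht2 (by ring)
  refine ⟨_, P2, ?_, ?_⟩
  · simp only [Prod.fst_add, Prod.smul_fst, smul_eq_mul]
    field_simp
    ring
  · simp only [Prod.snd_add, Prod.smul_snd, smul_eq_mul]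
    field_simp
    ring

private theorem cz3_pt (h4 : SI_wpt) (A B : Set (ℝ × ℝ)) (hA : Convex ℝ A)
    (hB : Convex ℝ B) (hW : W3 A) (q1 : ((0 : ℝ), (0 : ℝ)) ∈ B) (q2 : ((0 : ℝ), (1 : ℝ)) ∈ B)
    (q3 : ((1 : ℝ), (-2 : ℝ)) ∈ B) (q4 : ((1 : ℝ), (-1 : ℝ)) ∈ B)
    (m n : ℕ) (hm : 0 < m) (hn : 0 < n)
    (a1 a2 s t X Y : ℝ) (e1 : a1 + a2 ≤ m) (e2 : -2 * a1 + a2 ≤ m) (e3 : a1 - 2 * a2 ≤ m)
    (f1 : 0 ≤ s) (f2 : s ≤ n) (f3 : 0 ≤ t) (f4 : t ≤ n) (hX : X = a1 + t)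
    (hY : Y = a2 + (s - 2 * t)) : Pt A B m n X Y := by
  obtain ⟨a, ha, ha1, ha2⟩ := h4 A m a1 a2 hA hW (by exact_mod_cast hm) e1 e2 e3
  obtain ⟨b, hb, hb1, hb2⟩ := cz3_zt B hB n (by exact_mod_cast hn) s t f1 f2 f3 f4 q1 q2 q3 q4
  exact ⟨a, ha, b, hb, by rw [ha1, hb1, hX], by rw [ha2, hb2, hY]⟩

theorem pI_CZ3 (h1 : S_res) (h2 : SI_colm) (h3 : SI_wpt) : SI_CZ3 := by
  intro A B p m n y z hA hB hW hZ hMid hAvd
  obtain ⟨hp, hnm, h3m, hn4⟩ := hMid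
  obtain ⟨q1, q2, q3, q4⟩ := hZ
  simp only [ip2] at q1 q2 q3 q4
  norm_num at q1 q2 q3 q4
  have hm0 : 0 < m := by omega
  have hn0 : 0 < n := by omega
  have hp0 : 0 < p := by omega
  have P := fun a1 a2 s t X Y => cz3_pt h3 A B hA hB hW q1 q2 q3 q4 m n hm0 hn0 a1 a2 s t X Y
  have hpR : (p : ℝ) = m + n + 1 := by rw [← hp]; push_cast; ring
  have hnmR : (n : ℝ) + 2 ≤ m := by exact_mod_cast hnm
  have hm2 : (m : ℝ) ≤ 2 * n + 1 := by
    have : m ≤ 2 * n + 1 := by omega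
    exact_mod_cast this
  have hn4R : (4 : ℝ) ≤ n := by exact_mod_cast hn4
  obtain ⟨h, hh1, hh2⟩ : ∃ h : ℕ, m ≤ 2 * h ∧ 2 * h ≤ m + 1 := ⟨(m + 1) / 2, by omega, by omega⟩
  have hh1' : (m : ℝ) ≤ 2 * h := by exact_mod_cast hh1
  have hh2' : 2 * (h : ℝ) ≤ m + 1 := by exact_mod_cast hh2
  obtain ⟨X, hXy, hX1, hX2⟩ := h1 p hp0 y (-(h : ℝ))
  have hX2' : (X : ℝ) ≤ n + m - h := by
    have h0 : (X : ℝ) < (n : ℝ) + m - h + 1 := by linarith
    have h1 : X < (n : ℤ) + m - h + 1 := by exact_mod_cast h0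
    have h' : X ≤ (n : ℤ) + m - h := by omega
    exact_mod_cast h'
  by_cases hX0 : 0 ≤ X
  · have hX0' : (0 : ℝ) ≤ X := by exact_mod_cast hX0
    have L : Pt A B m n X (((X : ℝ) - n - m) / 2 - 2 * n) :=
      P (X - n) ((X - n - m) / 2) 0 n X _ (by linarith) (by linarith) (by linarith)
        (by linarith) (by linarith) (by linarith) (by linarith) (by ring) (by ring)
    by_cases hXm : X ≤ (m : ℤ)
    · have hXm' : (X : ℝ) ≤ m := by exact_mod_cast hXm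
      have U : Pt A B m n X (((m : ℤ) + n - X : ℤ) : ℝ) := by
        push_cast
        exact P X (m - X) n 0 X _ (by linarith) (by linarith) (by linarith)
          (by linarith) le_rfl le_rfl (by linarith) (by ring) (by ring)
      refine h2 A B p m n y z X _ _ hA hB hp0 hAvd hXy L U (Or.inr (Or.inl ⟨_, rfl, ?_⟩))
      push_cast; rw [hpR]; linarith
    · have hXm' : (m : ℝ) ≤ X := by
        have : (m : ℤ) ≤ X := by omega
        exact_mod_cast this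
      have U : Pt A B m n X (((n : ℤ) - 2 * (X - m) : ℤ) : ℝ) := by
        push_cast
        exact P m 0 n (X - m) X _ (by linarith) (by linarith) (by linarith)
          (by linarith) le_rfl (by linarith) (by linarith) (by ring) (by ring)
      refine h2 A B p m n y z X _ _ hA hB hp0 hAvd hXy L U (Or.inr (Or.inl ⟨_, rfl, ?_⟩))
      push_cast; rw [hpR]; linarith
  · push_neg at hX0
    obtain ⟨u, hu⟩ : ∃ u : ℤ, u = -X := ⟨-X, rfl⟩
    have hu1 : (1 : ℤ) ≤ u := by omega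
    have hu1' : (1 : ℝ) ≤ u := by exact_mod_cast hu1
    have hXu : (X : ℝ) = -u := by rw [hu]; push_cast; ring
    have hum : (u : ℝ) ≤ h := by linarith
    have U : Pt A B m n X (((m : ℤ) + n - 2 * u : ℤ) : ℝ) := by
      push_cast
      exact P (-u) (m - 2 * u) n 0 X _ (by linarith) (by linarith) (by linarith)
        (by linarith) le_rfl le_rfl (by linarith) (by rw [hXu]; ring) (by ring)
    have L1 : (m : ℝ) - n ≤ u → Pt A B m n X (2 * (u : ℝ) - 3 * m) := fun h =>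
      P (-m) (-m) 0 (m - u) X _ (by linarith) (by linarith) (by linarith) le_rfl
        (by linarith) (by linarith) (by linarith) (by rw [hXu]; ring) (by ring)
    have L2 : (u : ℝ) ≤ m - n → Pt A B m n X (-((u : ℝ) + n + m) / 2 - 2 * n) := fun h =>
      P (-u - n) ((-u - n - m) / 2) 0 n X _ (by linarith) (by linarith) (by linarith) le_rfl
        (by linarith) (by linarith) (by linarith) (by rw [hXu]; ring) (by ring)
    by_cases hA1 : u ≤ (m : ℤ) - n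
    · have hA1' : (u : ℝ) ≤ m - n := by
        have : ((u : ℤ) : ℝ) ≤ (((m : ℤ) - n : ℤ) : ℝ) := by exact_mod_cast hA1
        push_cast at this; exact this
      refine h2 A B p m n y z X _ _ hA hB hp0 hAvd hXy (L2 hA1') U
        (Or.inr (Or.inl ⟨_, rfl, ?_⟩))
      push_cast; rw [hpR]; linarith
    · have hA1' : (m : ℝ) - n ≤ u := by
        have : (m : ℤ) - n ≤ u := by omega
        have h : (((m : ℤ) - n : ℤ) : ℝ) ≤ ((u : ℤ) : ℝ) := by exact_mod_cast this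
        push_cast at h; exact h
      refine h2 A B p m n y z X _ _ hA hB hp0 hAvd hXy (L1 hA1') U
        (Or.inr (Or.inl ⟨_, rfl, ?_⟩))
      push_cast; rw [hpR]; linarith

end Pool.Agent.Lib.MP_0bc52e_nt.LC
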