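import Pool.Agent.Lib.MP_0bc52e_nt.T.StmI1

namespace Pool.Agent.Lib.MP_0bc52e_nt.LC

private theorem cmw_edge (B : Set (ℝ × ℝ)) (hB : Convex ℝ B) (n : ℝ) (hn : 0 < n) (x : ℝ)
    (hx0 : -n ≤ x) (hx1 : x ≤ n) (q1 : ((-1 : ℝ), (0 : ℝ)) ∈ B) (q2 : ((1 : ℝ), (1 : ℝ)) ∈ B) :
    ∃ b ∈ B, n * b.1 = x ∧ n * b.2 = (n + x) / 2 := by
  have e : (n + x) / (2 * n) ≤ 1 := (div_le_one (by linarith)).2 (by linarith)
  have e' : 0 ≤ (n + x) / (2 * n) := div_nonneg (by linarith) (by linarith)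
  have P := hB q1 q2 (sub_nonneg.2 e) e' (by ring)
  refine ⟨_, P, ?_, ?_⟩
  · simp only [Prod.fst_add, Prod.smul_fst, smul_eq_mul]
    field_simp
    ring
  · simp only [Prod.snd_add, Prod.smul_snd, smul_eq_mul]
    field_simp
    ring

theorem pI_CmW (h1 : S_res) (h2 : SI_colm) (h3 : SI_wpt) : SI_CmW := by
  intro A B p m n y z hA hB hW hZ hMid hodd hAvd
  obtain ⟨hp, hnm, h3m, hn4⟩ := hMid
  obtain ⟨q1, q2, q3⟩ := hZ
  simp only [ip2] at q1 q2 q3
  norm_num at q1 q2 q3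
  have hm0 : 0 < m := by omega
  have hn0 : 0 < n := by omega
  have hp0 : 0 < p := by omega
  have hnR : (0 : ℝ) < n := by exact_mod_cast hn0
  have hmR : (0 : ℝ) < m := by exact_mod_cast hm0
  have hpR : (p : ℝ) = m + n + 1 := by rw [← hp]; push_cast; ring
  have hnmR : (n : ℝ) + 2 ≤ m := by exact_mod_cast hnm
  have hm2 : (m : ℝ) ≤ 2 * n + 1 := by
    have : m ≤ 2 * n + 1 := by omega
    exact_mod_cast this
  have hn4R : (4 : ℝ) ≤ n := by exact_mod_cast hn4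
  obtain ⟨k, hk⟩ : ∃ k : ℕ, m + n = 2 * k := by
    obtain ⟨k, hk⟩ := hodd
    exact ⟨k, by omega⟩
  have hkR : (m : ℝ) + n = 2 * k := by exact_mod_cast hk
  obtain ⟨X, hXy, hX1, hX2⟩ := h1 p hp0 y (-(k : ℝ))
  have hX2' : (X : ℝ) ≤ k := by
    have h0 : (X : ℝ) < (k : ℝ) + 1 := by linarith
    have h1 : X < (k : ℤ) + 1 := by exact_mod_cast h0
    have h' : X ≤ (k : ℤ) := by omega
    exact_mod_cast h'
  have L : Pt A B m n X (((X : ℝ) - m) / 2 - n) := by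
    obtain ⟨a, ha, ha1, ha2⟩ := h3 A m X ((X - m) / 2) hA hW hmR (by linarith) (by linarith)
      (by linarith)
    exact ⟨a, ha, _, q2, by rw [ha1]; simp, by rw [ha2]; simp; ring⟩
  by_cases hXn : X ≤ (n : ℤ)
  · have hXn' : (X : ℝ) ≤ n := by exact_mod_cast hXn
    by_cases hXn2 : -(n : ℤ) ≤ X
    · have hXn2' : -(n : ℝ) ≤ X := by exact_mod_cast hXn2
      obtain ⟨a, ha, ha1, ha2⟩ := h3 A m 0 m hA hW hmR (by linarith) (by linarith)
        (by linarith)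
      obtain ⟨b, hb, hb1, hb2⟩ := cmw_edge B hB n hnR X hXn2' hXn' q1 q3
      have U : Pt A B m n X ((m : ℝ) + (n + X) / 2) :=
        ⟨a, ha, b, hb, by rw [ha1, hb1]; ring, by rw [ha2, hb2]⟩
      refine h2 A B p m n y z X _ _ hA hB hp0 hAvd hXy L U (Or.inl ?_)
      rw [hpR]; linarith
    · have hXn2' : (X : ℝ) ≤ -n := by
        have : X ≤ -(n : ℤ) := by omega
        exact_mod_cast this
      obtain ⟨a, ha, ha1, ha2⟩ := h3 A m (X + n) (m + 2 * (X + n)) hA hW hmR (by linarith)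
        (by linarith) (by linarith)
      have U : Pt A B m n X ((m : ℝ) + 2 * (X + n)) :=
        ⟨a, ha, _, q1, by rw [ha1]; simp, by rw [ha2]; simp⟩
      refine h2 A B p m n y z X _ _ hA hB hp0 hAvd hXy L U (Or.inl ?_)
      rw [hpR]; linarith
  · have hXn' : (n : ℝ) ≤ X := by
      have : (n : ℤ) ≤ X := by omega
      exact_mod_cast this
    obtain ⟨a, ha, ha1, ha2⟩ := h3 A m (X - n) (m - (X - n)) hA hW hmR (by linarith)
      (by linarith) (by linarith)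
    have U : Pt A B m n X ((m : ℝ) - (X - n) + n) :=
      ⟨a, ha, _, q3, by rw [ha1]; simp, by rw [ha2]; simp⟩
    refine h2 A B p m n y z X _ _ hA hB hp0 hAvd hXy L U (Or.inl ?_)
    rw [hpR]; linarith

end Pool.Agent.Lib.MP_0bc52e_nt.LC
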