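import Pool.Agent.Lib.MP_0bc52e_nt.T.StmI1

/-!
MP_0bc52e_nt, conjecture (T), part I, piece E1.
-/

namespace Pool.Agent.Lib.MP_0bc52e_nt.LC

theorem pI_E1 : SI_E1 := by
  intro p m y₀ σ x₁ hm hx0 hxm hFR hy
  by_contra hcon
  push Not at hcon
  have hprod : 0 < (σ - 1 / 2) * x₁ := by linarith
  have hx1 : 0 < x₁ := by
    rcases hx0.lt_or_eq with h | h
    · exact h
    · rw [← h, mul_zero] at hprod
      exact absurd hprod (lt_irrefl _)
  have hσ : 0 < σ - 1 / 2 := by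
    by_contra h
    exact absurd hprod (not_lt.2 (mul_nonpos_of_nonpos_of_nonneg (not_lt.1 h) hx0))
  set x := (p - m / 2 - y₀) / (σ - 1 / 2) with hx
  have h1 : (σ - 1 / 2) * x = p - m / 2 - y₀ := by
    rw [hx, mul_div_cancel₀ _ hσ.ne']
  have hx2 : 0 ≤ x := div_nonneg (by linarith) hσ.le
  have hx3 : x ≤ x₁ := by
    rw [hx, div_le_iff₀ hσ]
    linarith
  have h2 := hFR x hx2 hx3 0 1
  apply h2
  push_cast
  have h3 : σ * x = p - m / 2 - y₀ + x / 2 := by linarith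
  refine ⟨?_, ?_, ?_⟩ <;> linarith

end Pool.Agent.Lib.MP_0bc52e_nt.LC
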