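import Pool.Agent.Lib.MP_0bc52e_nt.T.StmI1

namespace Pool.Agent.Lib.MP_0bc52e_nt.LC

theorem pI_E2 : SI_E2 := by
  intro p m y₀ σ x₁ hm hx1 hx2 hF h0
  by_contra hcon
  push Not at hcon
  obtain ⟨A, hA⟩ : ∃ A : ℝ, A = y₀ + σ * (p - m) - (p - m) := ⟨_, rfl⟩
  obtain ⟨B, hB⟩ : ∃ B : ℝ, B = y₀ + σ * x₁ - (2 * x₁ - p + m) := ⟨_, rfl⟩
  have hA0 : 0 < A := by linarith
  have hB0 : B ≤ 0 := by linarith
  have hAB : 0 < A - B := by linarith
  obtain ⟨t, ht⟩ : ∃ t : ℝ, t * (A - B) = A := ⟨A / (A - B), by field_simp⟩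
  have ht0 : 0 ≤ t := by
    by_contra h
    push Not at h
    nlinarith
  have ht1 : t ≤ 1 := by
    by_contra h
    push Not at h
    nlinarith
  obtain ⟨x, hx⟩ : ∃ x : ℝ, x = (p - m) + t * (x₁ - (p - m)) := ⟨_, rfl⟩
  have hxl : p - m ≤ x := by
    rw [hx]
    nlinarith
  have hxr : x ≤ x₁ := by
    rw [hx]
    nlinarith
  have hxy : y₀ + σ * x = 2 * x - p + m := by
    have e1 : y₀ + σ * x - (2 * x - p + m) = A + t * (B - A) := by
      rw [hx, hA, hB]; ring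
    have e2 : A + t * (B - A) = 0 := by linarith
    linarith
  have h := hF x hxl hxr 1 1
  apply h
  push_cast
  refine ⟨?_, ?_, ?_⟩ <;> rw [hxy] <;> linarith

end Pool.Agent.Lib.MP_0bc52e_nt.LC
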