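import Pool.Agent.Lib.MP_0bc52e_nt.T.StmI1

/-!
# MP_0bc52e_nt, part I: piece E3
-/

set_option autoImplicit false

namespace Pool.Agent.Lib.MP_0bc52e_nt.LC

/-- [E3] -/
theorem pI_E3 : SI_E3 := by
  intro p m y₀ σ x₁ hm h1 h2 hFR h0
  by_contra hc
  have hc' : y₀ + σ * x₁ - (m - p - x₁) ≤ 0 := by linarith [not_lt.mp hc]
  have hcont : ContinuousOn (fun x : ℝ => y₀ + σ * x - (m - p - x)) (Set.Icc x₁ (m - p)) := by
    fun_prop
  have h3 := intermediate_value_Icc h2 hcont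
  have h4 : (0 : ℝ) ∈ Set.Icc ((fun x : ℝ => y₀ + σ * x - (m - p - x)) x₁)
      ((fun x : ℝ => y₀ + σ * x - (m - p - x)) (m - p)) := by
    refine ⟨hc', ?_⟩
    show (0 : ℝ) ≤ y₀ + σ * (m - p) - (m - p - (m - p))
    linarith
  obtain ⟨x, ⟨hx1, hx2⟩, hx⟩ := h3 h4
  have hx' : y₀ + σ * x = m - p - x := by
    have : y₀ + σ * x - (m - p - x) = 0 := hx
    linarith
  apply hFR x hx1 hx2 (-1) 0
  rw [hx']
  push_cast
  refine ⟨?_, ?_, ?_⟩ <;> linarith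

end Pool.Agent.Lib.MP_0bc52e_nt.LC
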