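import Pool.Agent.Lib.MP_0bc52e_nt.T.StmI1

namespace Pool.Agent.Lib.MP_0bc52e_nt.LC

theorem pI_E4 : SI_E4 := by
  intro p m y₀ σ k hm hF h
  by_contra hcon
  push Not at hcon
  obtain ⟨a, ha⟩ : ∃ a : ℝ, a = y₀ + σ * (p - m) - ((k + 1) * p - m) := ⟨_, rfl⟩
  obtain ⟨b, hb⟩ : ∃ b : ℝ, b = (k + 1) * p - m / 2 - (y₀ + σ * p) := ⟨_, rfl⟩
  have ha0 : 0 ≤ a := by rw [ha]; linarith
  have hb0 : 0 < b := by rw [hb]; linarith
  have hab : 0 < a + b := by linarith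
  obtain ⟨t, ht⟩ : ∃ t : ℝ, t = a / (a + b) := ⟨_, rfl⟩
  have ht0 : 0 ≤ t := by rw [ht]; positivity
  have ht1 : t ≤ 1 := by rw [ht, div_le_one hab]; linarith
  have hta : t * (a + b) = a := by rw [ht]; field_simp
  have hmt : 0 ≤ m * t := by positivity
  have hmt1 : m * t ≤ m := by nlinarith
  have hy : y₀ + σ * (p - m + m * t) = (k + 1) * p - m / 2 + ((p - m + m * t) - p) / 2 := by
    rw [ha, hb] at hta
    linear_combination -hta
  refine hF (p - m + m * t) (by linarith) (by linarith) 1 (k + 1) ?_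
  rw [hy]
  push_cast
  refine ⟨?_, ?_, ?_⟩ <;> nlinarith

end Pool.Agent.Lib.MP_0bc52e_nt.LC
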