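import Pool.Agent.Lib.MP_0bc52e_nt.T.StmI2

namespace Pool.Agent.Lib.MP_0bc52e_nt.LC

theorem pI_IN1 (h1 : SI_VC) : SI_IN1 := by
  intro p m n c d x₀ y₀ k l g hmn hn hnm hs hk1 hk2 hl1 hl2
  obtain ⟨ρ, hρ⟩ : ∃ ρ : ℤ, ρ = n * (y₀ + 1) - d - l * p := ⟨_, rfl⟩
  obtain ⟨σ, hσ⟩ : ∃ σ : ℤ, σ = n * x₀ - c - k * p := ⟨_, rfl⟩
  rw [← hρ, ← hσ]
  have hρ1 : 1 ≤ ρ := by rw [hρ]; linarith
  have hρn : ρ ≤ n := by rw [hρ]; linarith
  have hσ1 : 1 ≤ σ := by rw [hσ]; linarith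
  have hσn : σ ≤ n := by rw [hσ]; linarith
  have hρR : (ρ : ℝ) = n * (y₀ + 1) - d - l * p := by rw [hρ]; push_cast; ring
  have hσR : (σ : ℝ) = n * x₀ - c - k * p := by rw [hσ]; push_cast; ring
  have hρ1' : (1 : ℝ) ≤ ρ := by exact_mod_cast hρ1
  have hρn' : (ρ : ℝ) ≤ n := by exact_mod_cast hρn
  have hσ1' : (1 : ℝ) ≤ σ := by exact_mod_cast hσ1
  have hσn' : (σ : ℝ) ≤ n := by exact_mod_cast hσn
  have hnpos : (0 : ℝ) < n := by exact_mod_cast (by omega : 0 < n)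
  have hpR : (p : ℝ) = m + n + 1 := by rw [← hmn]; push_cast; ring
  have hnmR : (n : ℝ) ≤ m := by exact_mod_cast hnm
  have hppos : (0 : ℝ) < p := by rw [hpR]; linarith
  obtain ⟨s₁, hs₁⟩ : ∃ s₁ : ℝ, s₁ = (n - ρ) / n := ⟨_, rfl⟩
  have hs₁m : n * s₁ = n - ρ := by rw [hs₁]; field_simp
  have hs₁0 : 0 ≤ s₁ := by rw [hs₁]; exact div_nonneg (by linarith) hnpos.le
  have hs₁1 : s₁ ≤ 1 := by rw [hs₁, div_le_one hnpos]; linarith
  have key := h1 p n c k x₀ (x₀ + s₁ * g) (by omega) (by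
    intro s hs0 hs1
    have ht0 : 0 ≤ s * s₁ := mul_nonneg hs0 hs₁0
    have ht1 : s * s₁ ≤ s₁ := mul_le_of_le_one_left hs₁0 hs1
    have ht1' : s * s₁ ≤ 1 := ht1.trans hs₁1
    have e : (1 - s) * x₀ + s * (x₀ + s₁ * g) = x₀ + (s * s₁) * g := by ring
    rw [e]
    rcases hs (s * s₁) ht0 ht1' with h | h
    · exact h
    · exfalso
      obtain ⟨l', hl'1, hl'2⟩ := h
      have h3 : (n : ℝ) * (s * s₁) ≤ n - ρ := by
        rw [← hs₁m]; exact mul_le_mul_of_nonneg_left ht1 hnpos.le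
      have h4 : (l' : ℝ) * p < l * p := by linarith
      have h5 : (l' : ℝ) < l := lt_of_mul_lt_mul_right h4 hppos.le
      have h6 : l' + 1 ≤ l := by exact_mod_cast h5
      have h7 : (l' : ℝ) + 1 ≤ l := by exact_mod_cast h6
      have h8 : ((l' : ℝ) + 1) * p ≤ l * p := mul_le_mul_of_nonneg_right h7 hppos.le
      have h9 : 0 ≤ (n : ℝ) * (s * s₁) := mul_nonneg hnpos.le ht0
      linarith) (by linarith) (by linarith)
  have h10 : n * (s₁ * g) = (n - ρ) * g := by rw [← mul_assoc, hs₁m]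
  linarith [key.2]

end Pool.Agent.Lib.MP_0bc52e_nt.LC
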