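import Pool.Agent.Lib.MP_0bc52e_nt.T.StmI2
namespace Pool.Agent.Lib.MP_0bc52e_nt.LC

private lemma nfw_im {B : Set (ℝ × ℝ)} {X Y : ℤ} (h : ip2 (X, Y) ∈ B) (a b c d : ℤ) :
    ip2 (a * X + b * Y, c * X + d * Y) ∈ umap a b c d 0 0 '' B := by
  refine ⟨_, h, ?_⟩
  simp [umap, ip2]

private lemma nfw_wt {B : Set (ℝ × ℝ)} {x₀ y₀ p q r s : ℤ} (h : Wt B x₀ y₀ p q r s) (a b c d : ℤ) :
    Wt (umap a b c d 0 0 '' B) (a * x₀ + b * y₀) (c * x₀ + d * y₀)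
      (a * p + b * q) (c * p + d * q) (a * r + b * s) (c * r + d * s) := by
  obtain ⟨h1, h2, h3⟩ := h
  refine ⟨?_, ?_, ?_⟩
  · have := nfw_im h1 a b c d
    convert this using 3 <;> ring
  · have := nfw_im h2 a b c d
    convert this using 3 <;> ring
  · have := nfw_im h3 a b c d
    convert this using 3 <;> ring

private lemma nfw_swap {B : Set (ℝ × ℝ)} {x₀ y₀ p q r s : ℤ} (h : Wt B x₀ y₀ p q r s) :
    Wt B x₀ y₀ r s p q := by
  obtain ⟨h1, h2, h3⟩ := h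
  refine ⟨h2, h1, ?_⟩
  convert h3 using 3 <;> ring

private lemma nfw_rot {B : Set (ℝ × ℝ)} {x₀ y₀ p q r s : ℤ} (h : Wt B x₀ y₀ p q r s) :
    Wt B x₀ y₀ r s (-p - r) (-q - s) := by
  obtain ⟨h1, h2, h3⟩ := h
  refine ⟨h2, ?_, ?_⟩
  · convert h3 using 3 <;> ring
  · convert h1 using 3 <;> ring

private def nfw_G (B : Set (ℝ × ℝ)) : Prop :=
  ∃ a' b' c' d' : ℤ, SqM a' b' c' d' ∧ ∃ x₁ y₁ : ℤ, (Wt (umap a' b' c' d' 0 0 '' B) x₁ y₁ 1 0 0 1 ∨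
    ∃ a₁ b₁ c₁ d₁ : ℤ, Nf a₁ b₁ c₁ d₁ ∧ Wt (umap a' b' c' d' 0 0 '' B) x₁ y₁ a₁ b₁ c₁ d₁)

private lemma nfw_one (a b c d : ℤ) (ha : 0 ≤ a) (hb : 0 ≤ b) (hc : 0 ≤ c) (hd : 0 ≤ d)
    (h : a * d - b * c = 1) (hs : a + c = b + d) : a = 1 ∧ b = 0 ∧ c = 0 ∧ d = 1 := by
  have hd' : d = a - b + c := by linarith
  have e : (a - b) * (a + c) = 1 := by rw [hd'] at h; linarith [h]
  have h1 : a + c = 1 := by
    rcases Int.eq_one_or_neg_one_of_mul_eq_one' e with h' | h'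
    · exact h'.2
    · linarith [h'.2]
  have h2 : a - b = 1 := by rw [h1] at e; linarith
  refine ⟨by linarith, by linarith, by linarith, by linarith⟩

private lemma nfw_pos1 {B : Set (ℝ × ℝ)} {x₀ y₀ a b c d : ℤ} (sx sy : ℤ) (hx : sx = 1 ∨ sx = -1)
    (hy : sy = 1 ∨ sy = -1) (ha : 0 ≤ sx * a) (hb : 0 ≤ sy * b) (hc : 0 ≤ sx * c) (hd : 0 ≤ sy * d)
    (hdet : (sx * a) * (sy * d) - (sy * b) * (sx * c) = 1) (h : Wt B x₀ y₀ a b c d) : nfw_G B := by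
  rcases lt_trichotomy (sx * a + sx * c) (sy * b + sy * d) with hlt | heq | hgt
  · refine ⟨0, sy, sx, 0, Or.inr ⟨rfl, hy, hx, rfl⟩, 0 * x₀ + sy * y₀, sx * x₀ + 0 * y₀, Or.inr
      ⟨sy * d, sx * c, sy * b, sx * a, ⟨hd, hc, hb, ha, by linarith, by linarith⟩, ?_⟩⟩
    have := nfw_swap (nfw_wt h 0 sy sx 0)
    convert this using 1 <;> ring
  · obtain ⟨e1, e2, e3, e4⟩ := nfw_one _ _ _ _ ha hb hc hd hdet heq
    refine ⟨sx, 0, 0, sy, Or.inl ⟨hx, rfl, rfl, hy⟩, sx * x₀ + 0 * y₀, 0 * x₀ + sy * y₀, Or.inl ?_⟩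
    have := nfw_wt h sx 0 0 sy
    convert this using 1 <;> linarith
  · refine ⟨sx, 0, 0, sy, Or.inl ⟨hx, rfl, rfl, hy⟩, sx * x₀ + 0 * y₀, 0 * x₀ + sy * y₀, Or.inr
      ⟨sx * a, sy * b, sx * c, sy * d, ⟨ha, hb, hc, hd, hdet, by linarith⟩, ?_⟩⟩
    have := nfw_wt h sx 0 0 sy
    convert this using 1 <;> ring

private lemma nfw_pos {B : Set (ℝ × ℝ)} {x₀ y₀ a b c d : ℤ} (sx sy : ℤ) (hx : sx = 1 ∨ sx = -1)
    (hy : sy = 1 ∨ sy = -1) (ha : 0 ≤ sx * a) (hb : 0 ≤ sy * b) (hc : 0 ≤ sx * c) (hd : 0 ≤ sy * d)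
    (hdet : a * d - b * c = 1) (h : Wt B x₀ y₀ a b c d) : nfw_G B := by
  have e : sx * sy = 1 ∨ sx * sy = -1 := by
    rcases hx with rfl | rfl <;> rcases hy with rfl | rfl <;> simp
  rcases e with e | e
  · exact nfw_pos1 sx sy hx hy ha hb hc hd (by linear_combination (a * d - b * c) * e + hdet) h
  · exact nfw_pos1 sx sy hx hy hc hd ha hb
      (by linear_combination (-(a * d - b * c)) * e + hdet) (nfw_swap h)

private lemma nfw_prod (u w : ℤ) (h : u - w = 1) : 0 ≤ u * w := by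
  rcases le_or_gt u 0 with h1 | h1
  · nlinarith
  · nlinarith

private lemma nfw_side (x y : ℤ) (h : 0 ≤ x * y) : (0 ≤ x ∧ 0 ≤ y) ∨ (0 ≤ -x ∧ 0 ≤ -y) := by
  rcases mul_nonneg_iff.1 h with ⟨h1, h2⟩ | ⟨h1, h2⟩
  · exact Or.inl ⟨h1, h2⟩
  · exact Or.inr ⟨by linarith, by linarith⟩

theorem pI_NFW : SI_NFW := by
  intro B x₀ y₀ a b c d hdet h
  show nfw_G B
  have h2 := nfw_rot h
  have h3 := nfw_rot h2
  have d2 : c * (-b - d) - d * (-a - c) = 1 := by linear_combination hdet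
  have d3 : (-a - c) * (-d - (-b - d)) - (-b - d) * (-c - (-a - c)) = 1 := by
    linear_combination hdet
  have p12 : 0 ≤ (a * b) * (c * d) := by
    have := nfw_prod _ _ hdet
    linarith
  have p23 : 0 ≤ (c * d) * ((-a - c) * (-b - d)) := by
    have := nfw_prod _ _ d2
    linarith
  have p31 : 0 ≤ ((-a - c) * (-b - d)) * (a * b) := by
    have := nfw_prod _ _ d3
    linarith
  have key : ∃ s : ℤ, (s = 1 ∨ s = -1) ∧ 0 ≤ a * (s * b) ∧ 0 ≤ c * (s * d) ∧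
      0 ≤ (-a - c) * (s * (-b - d)) := by
    generalize hP : a * b = P at p12 p31
    generalize hQ : c * d = Q at p12 p23
    generalize hR : (-a - c) * (-b - d) = R at p23 p31
    have : (0 ≤ P ∧ 0 ≤ Q ∧ 0 ≤ R) ∨ (P ≤ 0 ∧ Q ≤ 0 ∧ R ≤ 0) := by
      rcases lt_trichotomy P 0 with hp | hp | hp
      · right
        exact ⟨hp.le, by nlinarith, by nlinarith⟩
      · rcases mul_nonneg_iff.1 p23 with ⟨h1, h2⟩ | ⟨h1, h2⟩
        · left; exact ⟨hp.ge, h1, h2⟩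
        · right; exact ⟨hp.le, h1, h2⟩
      · left
        exact ⟨hp.le, by nlinarith, by nlinarith⟩
    rcases this with ⟨q1, q2, q3⟩ | ⟨q1, q2, q3⟩
    · exact ⟨1, Or.inl rfl, by linarith, by linarith, by linarith⟩
    · exact ⟨-1, Or.inr rfl, by linarith, by linarith, by linarith⟩
  obtain ⟨s, hs, k1, k2, k3⟩ := key
  have hs' : -s = 1 ∨ -s = -1 := by
    rcases hs with rfl | rfl
    · right; rfl
    · left; rfl
  rcases nfw_side _ _ k1 with ⟨a1, a2⟩ | ⟨a1, a2⟩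
  · rcases nfw_side _ _ k2 with ⟨b1, b2⟩ | ⟨b1, b2⟩
    · exact nfw_pos 1 s (Or.inl rfl) hs (by linarith) a2 (by linarith) b2 hdet h
    · rcases nfw_side _ _ k3 with ⟨c1, c2⟩ | ⟨c1, c2⟩
      · refine nfw_pos 1 s (Or.inl rfl) hs (by linarith) c2 (by linarith) (by linarith) d3 h3
      · exact nfw_pos (-1) (-s) (Or.inr rfl) hs' (by linarith) (by linarith) (by linarith)
          (by linarith) d2 h2
  · rcases nfw_side _ _ k2 with ⟨b1, b2⟩ | ⟨b1, b2⟩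
    · rcases nfw_side _ _ k3 with ⟨c1, c2⟩ | ⟨c1, c2⟩
      · exact nfw_pos 1 s (Or.inl rfl) hs (by linarith) b2 (by linarith) c2 d2 h2
      · exact nfw_pos (-1) (-s) (Or.inr rfl) hs' (by linarith) (by linarith) (by linarith)
          (by linarith) d3 h3
    · exact nfw_pos (-1) (-s) (Or.inr rfl) hs' (by linarith) (by linarith) (by linarith)
        (by linarith) hdet h

end Pool.Agent.Lib.MP_0bc52e_nt.LC
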