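import Pool.Agent.Lib.MP_0bc52e_nt.T.StmI2

/-!
# MP_0bc52e_nt, conjecture (T), part I : [Q]
-/

set_option autoImplicit false

namespace Pool.Agent.Lib.MP_0bc52e_nt.LC

private theorem q_key {p m n : ℕ} (hp : m + n + 1 = p) (y : ℤ) (v : ℝ) (h : ¬ Vf p n y v) :
    ∃ Y : ℤ, (p : ℤ) ∣ Y - y ∧ (n : ℝ) * v ≤ Y ∧ (Y : ℝ) ≤ n * v + m := by
  have hp0 : (0 : ℝ) < p := by
    have : 0 < p := by omega
    exact_mod_cast this
  have hpr : (p : ℝ) = m + n + 1 := by
    rw [← hp]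
    push_cast
    ring
  set t : ℝ := n * v - y with ht
  set k : ℤ := ⌊t / p⌋ with hk
  have h1 : (k : ℝ) * p ≤ t := by
    have := Int.floor_le (t / p)
    rwa [le_div_iff₀ hp0] at this
  have h2 : t < (k + 1) * p := by
    have := Int.lt_floor_add_one (t / p)
    rwa [div_lt_iff₀ hp0] at this
  rcases h1.eq_or_lt with h3 | h3
  · refine ⟨y + k * p, ⟨k, by ring⟩, ?_, ?_⟩
    · push_cast
      linarith
    · push_cast
      have : (0 : ℝ) ≤ m := Nat.cast_nonneg m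
      linarith
  · have h4 : (k : ℝ) * p + n + 1 ≤ t := by
      by_contra h5
      exact h ⟨k, h3, not_le.mp h5⟩
    refine ⟨y + (k + 1) * p, ⟨k + 1, by ring⟩, ?_, ?_⟩
    · push_cast
      linarith
    · push_cast
      have : ((k : ℝ) + 1) * p = k * p + p := by ring
      linarith

theorem pI_Q (h1 : SI_spt) : SI_Q := by
  intro A B p m n y z hA hS hp hm hav v hv
  by_contra hc
  push Not at hc
  obtain ⟨Y, hY, hY1, hY2⟩ := q_key hp y v.1 hc.1
  obtain ⟨Z, hZ, hZ1, hZ2⟩ := q_key hp z v.2 hc.2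
  have hm0 : (0 : ℝ) < m := by exact_mod_cast hm
  obtain ⟨a, ha, ha1, ha2⟩ := h1 A m (Y - n * v.1) (Z - n * v.2) hA hS hm0 (by linarith)
    (by linarith) (by linarith) (by linarith)
  exact hav Y Z hY hZ ⟨a, ha, v, hv, by linarith, by linarith⟩

end Pool.Agent.Lib.MP_0bc52e_nt.LC
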