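import Pool.Agent.Lib.MP_0bc52e_nt.T.StmI2

set_option autoImplicit false

namespace Pool.Agent.Lib.MP_0bc52e_nt.LC

theorem pI_S4sq : SI_S4sq := by
  intro A a b c d h
  refine ⟨?_, ?_⟩
  · rcases h with ⟨h1 | h1, h2, h3, h4 | h4⟩ | ⟨h1, h2 | h2, h3 | h3, h4⟩ <;>
      rw [h1, h2, h3, h4] <;> norm_num
  · rintro ⟨p1, p2, p3, p4⟩
    rcases h with ⟨h1 | h1, h2, h3, h4 | h4⟩ | ⟨h1, h2 | h2, h3 | h3, h4⟩
    · subst h1 h2 h3 h4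
      exact ⟨0, 0, ⟨_, p1, by norm_num [umap]⟩, ⟨_, p2, by norm_num [umap]⟩,
        ⟨_, p3, by norm_num [umap]⟩, ⟨_, p4, by norm_num [umap]⟩⟩
    · subst h1 h2 h3 h4
      exact ⟨0, 1, ⟨_, p3, by norm_num [umap]⟩, ⟨_, p4, by norm_num [umap]⟩,
        ⟨_, p1, by norm_num [umap]⟩, ⟨_, p2, by norm_num [umap]⟩⟩
    · subst h1 h2 h3 h4
      exact ⟨1, 0, ⟨_, p2, by norm_num [umap]⟩, ⟨_, p1, by norm_num [umap]⟩,
        ⟨_, p4, by norm_num [umap]⟩, ⟨_, p3, by norm_num [umap]⟩⟩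
    · subst h1 h2 h3 h4
      exact ⟨1, 1, ⟨_, p4, by norm_num [umap]⟩, ⟨_, p3, by norm_num [umap]⟩,
        ⟨_, p2, by norm_num [umap]⟩, ⟨_, p1, by norm_num [umap]⟩⟩
    · subst h1 h2 h3 h4
      exact ⟨0, 0, ⟨_, p1, by norm_num [umap]⟩, ⟨_, p3, by norm_num [umap]⟩,
        ⟨_, p2, by norm_num [umap]⟩, ⟨_, p4, by norm_num [umap]⟩⟩
    · subst h1 h2 h3 h4
      exact ⟨0, 1, ⟨_, p2, by norm_num [umap]⟩, ⟨_, p4, by norm_num [umap]⟩,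
        ⟨_, p1, by norm_num [umap]⟩, ⟨_, p3, by norm_num [umap]⟩⟩
    · subst h1 h2 h3 h4
      exact ⟨1, 0, ⟨_, p3, by norm_num [umap]⟩, ⟨_, p1, by norm_num [umap]⟩,
        ⟨_, p4, by norm_num [umap]⟩, ⟨_, p2, by norm_num [umap]⟩⟩
    · subst h1 h2 h3 h4
      exact ⟨1, 1, ⟨_, p4, by norm_num [umap]⟩, ⟨_, p2, by norm_num [umap]⟩,
        ⟨_, p3, by norm_num [umap]⟩, ⟨_, p1, by norm_num [umap]⟩⟩

end Pool.Agent.Lib.MP_0bc52e_nt.LC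

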