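import Pool.Agent.Lib.MP_0bc52e_nt.T.StmI2

namespace Pool.Agent.Lib.MP_0bc52e_nt.LC

private lemma sgd_int_lt {a b : ℤ} {P : ℝ} (hP : 0 < P) (h : (a : ℝ) * P < b * P) : a < b := by
  have : (a : ℝ) < b := lt_of_mul_lt_mul_right h hP.le
  exact_mod_cast this

theorem pI_SGd : SI_SGd := by
  intro n c d G F x₀ y₀ hn hFG hst hfree
  have hnR : (6 : ℝ) ≤ n := by exact_mod_cast hn
  have hnZ : (6 : ℤ) ≤ n := by exact_mod_cast hn
  -- G ≥ n + 2
  have hG2 : (n : ℤ) + 2 ≤ G := by
    by_contra hcon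
    push Not at hcon
    have h1 : F ≤ G - 1 := by omega
    have h2 : ((n : ℤ) + 1) * F ≤ (n + 1) * (G - 1) := by
      apply mul_le_mul_of_nonneg_left h1; omega
    nlinarith
  have hGR : (n : ℝ) + 2 ≤ G := by exact_mod_cast hG2
  have hG0 : (0 : ℝ) < G := by linarith
  have hFGR : (F : ℝ) + 1 ≤ G := by exact_mod_cast hFG
  have hstR : (n : ℝ) * G < (n + 1) * F := by exact_mod_cast hst
  set P : ℝ := 2 * n + 1 with hPdef
  have hP13 : (13 : ℝ) ≤ P := by rw [hPdef]; linarith
  have hP0 : 0 < P := by linarith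
  set κ : ℝ := (G - F) / G with hκ
  have hκG : κ * G = G - F := by rw [hκ]; field_simp
  have hκpos : 0 < κ := by rw [hκ]; apply div_pos <;> linarith
  have hκ1 : (n + 1) * κ < 1 := by
    have : (n + 1) * κ * G < 1 * G := by
      have e : (n + 1) * κ * G = (n + 1) * (G - F) := by rw [mul_assoc, hκG]
      rw [e]; nlinarith
    exact lt_of_mul_lt_mul_right this hG0.le
  set f₀ : ℝ := n * x₀ - c with hf0
  set h₀ : ℝ := n * y₀ - d with hh0
  set f₁ : ℝ := f₀ + n * G with hf1
  have hnG : 0 < (n : ℝ) * G := by positivity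
  -- psi
  let ψ : ℝ → ℝ := fun v => (f₀ - h₀) + (v - f₀) * κ
  have hψdef : ∀ v, ψ v = (f₀ - h₀) + (v - f₀) * κ := fun v => rfl
  -- blocked values
  have hblk : ∀ v : ℝ, f₀ ≤ v → v ≤ f₁ → (∀ k' : ℤ, ¬ ((k' : ℝ) * P < v ∧ v < k' * P + n + 1)) →
      ∃ l : ℤ, (l : ℝ) * P < v - ψ v ∧ v - ψ v < l * P + n + 1 := by
    intro v hv0 hv1 hno
    have hs0 : 0 ≤ (v - f₀) / (n * G) := div_nonneg (by linarith) hnG.le
    have hs1 : (v - f₀) / (n * G) ≤ 1 := by
      rw [div_le_one hnG]; linarith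
    have hsv : (v - f₀) / (n * G) * (n * G) = v - f₀ := by field_simp
    rcases hfree _ hs0 hs1 with h | h
    · exfalso
      obtain ⟨k', hk1, hk2⟩ := h
      have e : (n : ℝ) * (x₀ + (v - f₀) / (n * G) * G) - c = v := by
        have : (n : ℝ) * (x₀ + (v - f₀) / (n * G) * G) - c = f₀ + (v - f₀) / (n * G) * (n * G) := by
          rw [hf0]; ring
        rw [this, hsv]; ring
      rw [e] at hk1 hk2
      push_cast at hk1 hk2
      exact hno k' ⟨hk1, hk2⟩
    · obtain ⟨l, hl1, hl2⟩ := h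
      have e : (n : ℝ) * (y₀ + (v - f₀) / (n * G) * F) - d = v - ψ v := by
        have e1 : (n : ℝ) * (y₀ + (v - f₀) / (n * G) * F) - d = h₀ + (v - f₀) / (n * G) * (n * F) := by
          rw [hh0]; ring
        have e2 : (v - f₀) / (n * G) * (n * F) = (v - f₀) * (1 - κ) := by
          have : (1 - κ) * G = F := by linarith [hκG]
          rw [← this]
          field_simp
        rw [e1, e2, hψdef]; ring
      rw [e] at hl1 hl2
      push_cast at hl1 hl2
      exact ⟨l, hl1, hl2⟩
  have hH1 : ∀ k : ℤ, f₀ ≤ k * P → k * P ≤ f₁ → ∃ c : ℤ, (c : ℝ) * P - n - 1 < ψ (k * P) ∧ ψ (k * P) < c * P := by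
    intro k h1 h2
    obtain ⟨l, hl1, hl2⟩ := hblk (k * P) h1 h2 (by
      rintro k' ⟨ha, hb⟩
      have hlt : k' < k := sgd_int_lt hP0 ha
      have : (k' : ℝ) ≤ k - 1 := by exact_mod_cast Int.le_sub_one_of_lt hlt
      have h3 : (k' : ℝ) * P ≤ (k - 1) * P := mul_le_mul_of_nonneg_right this hP0.le
      nlinarith)
    refine ⟨k - l, ?_, ?_⟩
    · push_cast; nlinarith
    · push_cast; nlinarith
  have hH2 : ∀ k : ℤ, f₀ ≤ k * P + n + 1 → k * P + n + 1 ≤ f₁ →
      ∃ c : ℤ, (c : ℝ) * P < ψ (k * P + n + 1) ∧ ψ (k * P + n + 1) < c * P + n + 1 := by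
    intro k h1 h2
    obtain ⟨l, hl1, hl2⟩ := hblk (k * P + n + 1) h1 h2 (by
      rintro k' ⟨ha, hb⟩
      have hlt : k < k' := sgd_int_lt hP0 (by linarith)
      have : (k : ℝ) + 1 ≤ k' := by exact_mod_cast hlt
      have h3 : ((k : ℝ) + 1) * P ≤ k' * P := mul_le_mul_of_nonneg_right this hP0.le
      nlinarith)
    refine ⟨k - l, ?_, ?_⟩
    · push_cast; nlinarith
    · push_cast; nlinarith
  have hκn : (n : ℝ) * κ < 1 := by nlinarith
  have hκP : P * κ < 2 := by rw [hPdef]; nlinarith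
  have hf1f0 : f₀ + 3 * n + 2 ≤ f₁ := by rw [hf1]; nlinarith
  -- good k lie in corridors
  have hcor : ∀ k : ℤ, f₀ ≤ k * P → k * P + n + 1 ≤ f₁ →
      ∃ c : ℤ, (c : ℝ) * P - n - 1 < ψ (k * P) ∧ ψ (k * P) < c * P - n := by
    intro k h1 h2
    obtain ⟨c₁, hc1, hc2⟩ := hH1 k h1 (by linarith)
    obtain ⟨c₂, hd1, hd2⟩ := hH2 k (by linarith) h2
    have hstep : ψ (k * P + n + 1) = ψ (k * P) + (n + 1) * κ := by rw [hψdef, hψdef]; ring
    have hpos : 0 < (n + 1) * κ := by positivity
    rw [hstep] at hd1 hd2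
    have hle : c₂ ≤ c₁ := by
      by_contra hcon
      push Not at hcon
      have : (c₁ : ℝ) + 1 ≤ c₂ := by exact_mod_cast hcon
      have h3 : ((c₁ : ℝ) + 1) * P ≤ c₂ * P := mul_le_mul_of_nonneg_right this hP0.le
      nlinarith
    have hge : c₁ - 1 ≤ c₂ := by
      by_contra hcon
      push Not at hcon
      have : (c₂ : ℝ) ≤ c₁ - 2 := by
        have : c₂ ≤ c₁ - 2 := by omega
        exact_mod_cast this
      have h3 : (c₂ : ℝ) * P ≤ (c₁ - 2) * P := mul_le_mul_of_nonneg_right this hP0.le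
      have hPn : P = 2 * n + 1 := hPdef
      nlinarith
    rcases eq_or_lt_of_le hle with heq | hlt
    · exfalso
      rw [heq] at hd1 hd2
      -- crossing case
      by_cases hnext : ((k : ℝ) + 1) * P ≤ f₁
      · obtain ⟨c₃, he1, he2⟩ := hH1 (k + 1) (by push_cast; nlinarith) (by push_cast; exact hnext)
        have hs3 : ψ (((k + 1 : ℤ) : ℝ) * P) = ψ (k * P) + (n + 1) * κ + n * κ := by
          rw [hψdef, hψdef]; push_cast; rw [hPdef]; ring
        rw [hs3] at he1 he2
        have hnκ : 0 < (n : ℝ) * κ := by positivity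
        have : c₁ < c₃ := sgd_int_lt hP0 (by linarith)
        have h4 : (c₁ : ℝ) + 1 ≤ c₃ := by exact_mod_cast this
        have h5 : ((c₁ : ℝ) + 1) * P ≤ c₃ * P := mul_le_mul_of_nonneg_right h4 hP0.le
        have hPn : P = 2 * n + 1 := hPdef
        nlinarith
      · push Not at hnext
        obtain ⟨c₃, he1, he2⟩ := hH2 (k - 1) (by push_cast; nlinarith) (by push_cast; nlinarith)
        have hs3 : ψ (((k - 1 : ℤ) : ℝ) * P + n + 1) = ψ (k * P) - n * κ := by
          rw [hψdef, hψdef]; push_cast; rw [hPdef]; ring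
        rw [hs3] at he1 he2
        have hnκ : 0 < (n : ℝ) * κ := by positivity
        have : c₃ < c₁ := sgd_int_lt hP0 (by linarith)
        have h4 : (c₃ : ℝ) ≤ c₁ - 1 := by
          have : c₃ ≤ c₁ - 1 := by omega
          exact_mod_cast this
        have h5 : (c₃ : ℝ) * P ≤ (c₁ - 1) * P := mul_le_mul_of_nonneg_right h4 hP0.le
        have hPn : P = 2 * n + 1 := hPdef
        nlinarith
    · have heq : c₂ = c₁ - 1 := by omega
      refine ⟨c₁, hc1, ?_⟩
      rw [heq] at hd2
      push_cast at hd2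
      have hPn : P = 2 * n + 1 := hPdef
      nlinarith
  -- first and last good k
  set ka : ℤ := ⌈f₀ / P⌉ with hka
  set kb : ℤ := ⌊(f₁ - n - 1) / P⌋ with hkb
  have hka1 : f₀ ≤ ka * P := by
    have := Int.le_ceil (f₀ / P)
    rw [div_le_iff₀ hP0] at this
    exact this
  have hka2 : (ka : ℝ) * P < f₀ + P := by
    have := Int.ceil_lt_add_one (f₀ / P)
    have h2 : (ka : ℝ) * P < (f₀ / P + 1) * P := mul_lt_mul_of_pos_right this hP0
    have h3 : (f₀ / P + 1) * P = f₀ + P := by field_simp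
    linarith
  have hkb1 : (kb : ℝ) * P ≤ f₁ - n - 1 := by
    have := Int.floor_le ((f₁ - n - 1) / P)
    rw [le_div_iff₀ hP0] at this
    exact this
  have hkb2 : f₁ - n - 1 - P < kb * P := by
    have := Int.lt_floor_add_one ((f₁ - n - 1) / P)
    have h2 : (f₁ - n - 1) / P * P < ((kb : ℝ) + 1) * P := mul_lt_mul_of_pos_right this hP0
    have h3 : (f₁ - n - 1) / P * P = f₁ - n - 1 := by field_simp
    linarith
  have hdiff : (n : ℝ) * G - 5 * n - 3 < (kb - ka) * P := by
    have : P = 2 * n + 1 := hPdef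
    rw [hf1] at hkb2
    nlinarith
  have hbig : 0 < (n : ℝ) * G - 5 * n - 3 := by nlinarith
  have hkab : ka < kb := by
    have : (0 : ℝ) < (kb - ka) * P := by linarith
    have h2 : (0 : ℝ) < kb - ka := by
      by_contra hcon
      push Not at hcon
      have := mul_nonpos_of_nonpos_of_nonneg hcon hP0.le
      linarith
    have h3 : (ka : ℝ) < kb := by linarith
    exact_mod_cast h3
  obtain ⟨ca, hca1, hca2⟩ := hcor ka hka1 (by
    have : (ka : ℝ) * P ≤ kb * P := by
      apply mul_le_mul_of_nonneg_right _ hP0.le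
      exact_mod_cast hkab.le
    linarith)
  have hind : ∀ j : ℕ, ka + j ≤ kb → (ca : ℝ) * P - n - 1 < ψ (((ka + j : ℤ) : ℝ) * P) ∧
      ψ (((ka + j : ℤ) : ℝ) * P) < ca * P - n := by
    intro j
    induction j with
    | zero => intro _; simpa using ⟨hca1, hca2⟩
    | succ j ih =>
      intro hj
      have hj' : ka + (j : ℤ) ≤ kb := by push_cast at hj; omega
      obtain ⟨i1, i2⟩ := ih hj'
      have hge : f₀ ≤ ((ka + (j + 1 : ℕ) : ℤ) : ℝ) * P := by
        have : (ka : ℝ) * P ≤ ((ka + (j + 1 : ℕ) : ℤ) : ℝ) * P := by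
          apply mul_le_mul_of_nonneg_right _ hP0.le
          push_cast
          have : (0 : ℝ) ≤ (j : ℝ) := Nat.cast_nonneg j
          linarith
        linarith
      have hle : ((ka + (j + 1 : ℕ) : ℤ) : ℝ) * P + n + 1 ≤ f₁ := by
        have : ((ka + (j + 1 : ℕ) : ℤ) : ℝ) * P ≤ kb * P := by
          apply mul_le_mul_of_nonneg_right _ hP0.le
          exact_mod_cast hj
        linarith
      obtain ⟨c', q1, q2⟩ := hcor _ hge hle
      have hstep : ψ (((ka + (j + 1 : ℕ) : ℤ) : ℝ) * P) = ψ (((ka + j : ℤ) : ℝ) * P) + P * κ := by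
        rw [hψdef, hψdef]; push_cast; ring
      have hPκ : 0 < P * κ := by positivity
      have hceq : c' = ca := by
        have a1 : c' ≤ ca := by
          by_contra hcon
          push Not at hcon
          have : (ca : ℝ) + 1 ≤ c' := by exact_mod_cast hcon
          have h3 : ((ca : ℝ) + 1) * P ≤ c' * P := mul_le_mul_of_nonneg_right this hP0.le
          rw [hstep] at q1
          linarith
        have a2 : ca ≤ c' := by
          by_contra hcon
          push Not at hcon
          have : (c' : ℝ) ≤ ca - 1 := by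
            have : c' ≤ ca - 1 := by omega
            exact_mod_cast this
          have h3 : (c' : ℝ) * P ≤ (ca - 1) * P := mul_le_mul_of_nonneg_right this hP0.le
          rw [hstep] at q2
          linarith
        omega
      rw [hceq] at q1 q2
      exact ⟨q1, q2⟩
  have hlast := hind (kb - ka).toNat (by
    have : ((kb - ka).toNat : ℤ) = kb - ka := Int.toNat_of_nonneg (by omega)
    rw [this]; omega)
  have hcast : ((kb - ka).toNat : ℤ) = kb - ka := Int.toNat_of_nonneg (by omega)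
  rw [hcast] at hlast
  have hkk : ((ka + (kb - ka) : ℤ) : ℝ) = kb := by push_cast; ring
  rw [hkk] at hlast
  have hfin : ψ (kb * P) - ψ (ka * P) = (kb - ka) * P * κ := by rw [hψdef, hψdef]; ring
  have hlt1 : ((kb : ℝ) - ka) * P * κ < 1 := by rw [← hfin]; linarith [hlast.2, hca1]
  have hκge : 1 / (G : ℝ) ≤ κ := by
    rw [hκ]
    apply div_le_div_of_nonneg_right _ hG0.le
    linarith
  have h6 : ((kb : ℝ) - ka) * P * (1 / G) < 1 := by
    have hpos : 0 < ((kb : ℝ) - ka) * P := by linarith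
    have := mul_le_mul_of_nonneg_left hκge hpos.le
    linarith
  have h7 : ((kb : ℝ) - ka) * P < G := by
    have e : ((kb : ℝ) - ka) * P * (1 / G) * G = (kb - ka) * P := by field_simp
    have := mul_lt_mul_of_pos_right h6 hG0
    rw [e] at this
    linarith
  nlinarith

end Pool.Agent.Lib.MP_0bc52e_nt.LC
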