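import Pool.Agent.Lib.MP_0bc52e_nt.T.StmI2

namespace Pool.Agent.Lib.MP_0bc52e_nt.LC

lemma vc_up (p n : ℕ) (c k : ℤ) (t : ℝ) (hnp : n + 1 ≤ p) (hV : Vf p n c t)
    (h : n * t - c = k * p + n + 1) : False := by
  obtain ⟨k', h1, h2⟩ := hV
  rw [h] at h1 h2
  have hp : (0 : ℝ) < p := by exact_mod_cast (by omega : 0 < p)
  have hnp' : (n : ℝ) + 1 ≤ p := by exact_mod_cast hnp
  have h3 : (k : ℝ) * p < k' * p := by linarith
  have h4 : (k : ℝ) < k' := lt_of_mul_lt_mul_right h3 hp.le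
  have h5 : k + 1 ≤ k' := by exact_mod_cast h4
  have h6 : (k : ℝ) + 1 ≤ k' := by exact_mod_cast h5
  have h7 : ((k : ℝ) + 1) * p ≤ k' * p := mul_le_mul_of_nonneg_right h6 hp.le
  linarith

lemma vc_lo (p n : ℕ) (c k : ℤ) (t : ℝ) (hnp : n + 1 ≤ p) (hV : Vf p n c t)
    (h : n * t - c = k * p) : False := by
  obtain ⟨k', h1, h2⟩ := hV
  rw [h] at h1 h2
  have hp : (0 : ℝ) < p := by exact_mod_cast (by omega : 0 < p)
  have hnp' : (n : ℝ) + 1 ≤ p := by exact_mod_cast hnp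
  have h4 : (k' : ℝ) < k := lt_of_mul_lt_mul_right h1 hp.le
  have h5 : k' + 1 ≤ k := by exact_mod_cast h4
  have h6 : (k' : ℝ) + 1 ≤ k := by exact_mod_cast h5
  have h7 : ((k' : ℝ) + 1) * p ≤ k * p := mul_le_mul_of_nonneg_right h6 hp.le
  linarith

theorem pI_VC : SI_VC := by
  intro p n c k x₀ x₁ hnp hs h1 h2
  constructor
  · by_contra hcon
    have hcon' : n * x₁ - c ≤ (k : ℝ) * p := not_lt.mp hcon
    have hd : 0 < (n * x₀ - c) - (n * x₁ - (c : ℝ)) := by linarith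
    obtain ⟨s, hse⟩ : ∃ s : ℝ, s = ((n * x₀ - c) - k * p) / ((n * x₀ - c) - (n * x₁ - (c : ℝ))) :=
      ⟨_, rfl⟩
    have hs0 : 0 ≤ s := by rw [hse]; exact div_nonneg (by linarith) hd.le
    have hs1 : s ≤ 1 := by rw [hse, div_le_one hd]; linarith
    have hsm : s * ((n * x₀ - c) - (n * x₁ - (c : ℝ))) = (n * x₀ - c) - k * p := by
      rw [hse]; exact div_mul_cancel₀ _ hd.ne'
    exact vc_lo p n c k _ hnp (hs s hs0 hs1) (by linarith [hsm])
  · by_contra hcon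
    have hcon' : (k : ℝ) * p + n + 1 ≤ n * x₁ - c := not_lt.mp hcon
    have hd : 0 < (n * x₁ - c) - (n * x₀ - (c : ℝ)) := by linarith
    obtain ⟨s, hse⟩ : ∃ s : ℝ, s = ((k : ℝ) * p + n + 1 - (n * x₀ - c)) /
        ((n * x₁ - c) - (n * x₀ - (c : ℝ))) := ⟨_, rfl⟩
    have hs0 : 0 ≤ s := by rw [hse]; exact div_nonneg (by linarith) hd.le
    have hs1 : s ≤ 1 := by rw [hse, div_le_one hd]; linarith
    have hsm : s * ((n * x₁ - c) - (n * x₀ - (c : ℝ))) = (k : ℝ) * p + n + 1 - (n * x₀ - c) := by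
      rw [hse]; exact div_mul_cancel₀ _ hd.ne'
    exact vc_up p n c k _ hnp (hs s hs0 hs1) (by linarith [hsm])

end Pool.Agent.Lib.MP_0bc52e_nt.LC
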