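import Pool.Agent.Lib.MP_0bc52e_nt.T.StmI1

/-!
# MP_0bc52e_nt, part I: piece WL1
-/

set_option autoImplicit false

namespace Pool.Agent.Lib.MP_0bc52e_nt.LC

/-- the first kind of holes -/
private theorem wl1_core (h3 : SI_exit) (h4 : SI_slack) (p m n X Y s t : ℤ) (hp : m + n + 1 = p)
    (hn : 1 ≤ n) (hm0 : 0 < m) (h23 : 2 * p ≤ 3 * m) (h3p : ¬ (3 : ℤ) ∣ p)
    (hFR : ∀ r : ℝ, 0 ≤ r → r ≤ 1 → FR p m ((1 - r) * (X : ℝ) + r * ((X + n * s : ℤ) : ℝ))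
      ((1 - r) * (Y : ℝ) + r * ((Y + n * t : ℤ) : ℝ)))
    (hX : m < X + Y ∧ m - p < X - 2 * Y ∧ m - 2 * p < -2 * X + Y)
    (hst : 3 ≤ |s + t| ∨ 3 ≤ |-2 * s + t| ∨ 3 ≤ |s - 2 * t|) : False := by
  have hp0 : (0 : ℝ) < (p : ℝ) := by
    have : 0 < p := by omega
    exact_mod_cast this
  have hmp : (m : ℝ) ≤ (p : ℝ) := by
    have : m ≤ p := by omega
    exact_mod_cast this
  have h23' : 2 * (p : ℝ) ≤ 3 * (m : ℝ) := by exact_mod_cast h23
  obtain ⟨a1, a2, a3⟩ := hX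
  have e1 : (m : ℝ) < (X : ℝ) + (Y : ℝ) := by exact_mod_cast a1
  have e2 : (m : ℝ) - (p : ℝ) < (X : ℝ) - 2 * (Y : ℝ) := by exact_mod_cast a2
  have e3 : (m : ℝ) - 2 * (p : ℝ) < -2 * (X : ℝ) + (Y : ℝ) := by exact_mod_cast a3
  obtain ⟨b1, b2, b3⟩ := h3 (p : ℝ) (m : ℝ) (X : ℝ) (Y : ℝ) ((X + n * s : ℤ) : ℝ)
    ((Y + n * t : ℤ) : ℝ) hp0 hmp h23' hFR e1 e2 e3
  refine h4 p m n X Y s t hp hn h3p ⟨a1, a2, a3⟩ ⟨?_, ?_, ?_⟩ hst
  · exact_mod_cast b1
  · exact_mod_cast b2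
  · exact_mod_cast b3

theorem pI_WL1 (h1 : SI_fra) (h2 : SI_hole) (h3 : SI_exit) (h4 : SI_slack) (h5 : SI_diff3)
    (h6 : SI_frsym) : SI_WL1 := by
  intro A B p m n y z hA hB hW hPC hmn hn h23 h3p hAvd
  have hm0 : 0 < m := by omega
  obtain ⟨x₀, y₀, s, t, hb0, hb1, hst⟩ := h5 B hPC
  have hfr := h1 A B p m n y z hA hW hm0 hAvd
  have h3p' : ¬ (3 : ℤ) ∣ (p : ℤ) := by
    intro h
    apply h3p
    exact_mod_cast h
  -- the free segment
  have hseg : ∀ r : ℝ, 0 ≤ r → r ≤ 1 →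
      FR p m ((1 - r) * ((y - n * x₀ : ℤ) : ℝ) + r * ((y - n * x₀ + n * (-s) : ℤ) : ℝ))
        ((1 - r) * ((z - n * y₀ : ℤ) : ℝ) + r * ((z - n * y₀ + n * (-t) : ℤ) : ℝ)) := by
    intro r hr0 hr1
    have hmem : (1 - r) • ip2 (x₀, y₀) + r • ip2 (x₀ + s, y₀ + t) ∈ B :=
      hB hb0 hb1 (by linarith) hr0 (by ring)
    have h := hfr _ hmem
    have e1 : (y : ℝ) - (n : ℝ) * ((1 - r) • ip2 (x₀, y₀) + r • ip2 (x₀ + s, y₀ + t)).1 =
        (1 - r) * ((y - n * x₀ : ℤ) : ℝ) + r * ((y - n * x₀ + n * (-s) : ℤ) : ℝ) := by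
      simp only [ip2, Prod.fst_add, Prod.smul_fst, smul_eq_mul]
      push_cast
      ring
    have e2 : (z : ℝ) - (n : ℝ) * ((1 - r) • ip2 (x₀, y₀) + r • ip2 (x₀ + s, y₀ + t)).2 =
        (1 - r) * ((z - n * y₀ : ℤ) : ℝ) + r * ((z - n * y₀ + n * (-t) : ℤ) : ℝ) := by
      simp only [ip2, Prod.snd_add, Prod.smul_snd, smul_eq_mul]
      push_cast
      ring
    rw [e1, e2] at h
    exact h
  obtain ⟨i, j, hij⟩ := h2 (p : ℤ) (m : ℤ) (by exact_mod_cast hm0) (by omega) (by omega)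
    (y - n * x₀) (z - n * y₀)
  have hp' : (m : ℤ) + (n : ℤ) + 1 = (p : ℤ) := by exact_mod_cast hmn
  have hn' : (1 : ℤ) ≤ (n : ℤ) := by exact_mod_cast hn
  have hm' : (0 : ℤ) < (m : ℤ) := by exact_mod_cast hm0
  have h23' : 2 * (p : ℤ) ≤ 3 * (m : ℤ) := by exact_mod_cast h23
  -- translated segment
  have hseg' : ∀ r : ℝ, 0 ≤ r → r ≤ 1 →
      FR p m ((1 - r) * ((y - n * x₀ - i * p : ℤ) : ℝ) +
          r * ((y - n * x₀ - i * p + n * (-s) : ℤ) : ℝ))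
        ((1 - r) * ((z - n * y₀ - j * p : ℤ) : ℝ) +
          r * ((z - n * y₀ - j * p + n * (-t) : ℤ) : ℝ)) := by
    intro r hr0 hr1
    have h := ((h6 p m _ _).1 i j).1 (hseg r hr0 hr1)
    have e1 : (1 - r) * ((y - n * x₀ : ℤ) : ℝ) + r * ((y - n * x₀ + n * (-s) : ℤ) : ℝ) - i * p =
        (1 - r) * ((y - n * x₀ - i * p : ℤ) : ℝ) +
          r * ((y - n * x₀ - i * p + n * (-s) : ℤ) : ℝ) := by
      push_cast
      ring
    have e2 : (1 - r) * ((z - n * y₀ : ℤ) : ℝ) + r * ((z - n * y₀ + n * (-t) : ℤ) : ℝ) - j * p =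
        (1 - r) * ((z - n * y₀ - j * p : ℤ) : ℝ) +
          r * ((z - n * y₀ - j * p + n * (-t) : ℤ) : ℝ) := by
      push_cast
      ring
    rw [e1, e2] at h
    exact h
  rcases hij with hij | hij | hij
  · have h := hseg 0 le_rfl zero_le_one i j
    apply h
    obtain ⟨c1, c2, c3⟩ := hij
    have c1' : ((y - n * x₀ : ℤ) : ℝ) - i * p + (((z - n * y₀ : ℤ) : ℝ) - j * p) ≤ m := by
      exact_mod_cast c1
    have c2' : -2 * (((y - n * x₀ : ℤ) : ℝ) - i * p) + (((z - n * y₀ : ℤ) : ℝ) - j * p) ≤ m := by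
      exact_mod_cast c2
    have c3' : (((y - n * x₀ : ℤ) : ℝ) - i * p) - 2 * (((z - n * y₀ : ℤ) : ℝ) - j * p) ≤ m := by
      exact_mod_cast c3
    simp only [sub_zero, one_mul, zero_mul, add_zero]
    exact ⟨c1', c2', c3'⟩
  · refine wl1_core h3 h4 (p : ℤ) (m : ℤ) (n : ℤ) (y - n * x₀ - i * p) (z - n * y₀ - j * p)
      (-s) (-t) hp' hn' hm' h23' h3p' ?_ hij ?_
    · intro r hr0 hr1
      exact_mod_cast hseg' r hr0 hr1
    · rcases hst with h | h | h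
      · left
        rw [show -s + -t = -(s + t) by ring, abs_neg]
        exact h
      · right
        left
        rw [show -2 * -s + -t = -(-2 * s + t) by ring, abs_neg]
        exact h
      · right
        right
        rw [show -s - 2 * -t = -(s - 2 * t) by ring, abs_neg]
        exact h
  · refine wl1_core h3 h4 (p : ℤ) (m : ℤ) (n : ℤ) (z - n * y₀ - j * p) (y - n * x₀ - i * p)
      (-t) (-s) hp' hn' hm' h23' h3p' ?_ ?_ ?_
    · intro r hr0 hr1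
      have h := (h6 p m _ _).2.1.1 (hseg' r hr0 hr1)
      exact_mod_cast h
    · obtain ⟨c1, c2, c3⟩ := hij
      refine ⟨?_, ?_, ?_⟩
      · linarith
      · linarith
      · linarith
    · rcases hst with h | h | h
      · left
        rw [show -t + -s = -(s + t) by ring, abs_neg]
        exact h
      · right
        right
        rw [show -t - 2 * -s = -(-2 * s + t) by ring, abs_neg]
        exact h
      · right
        left
        rw [show -2 * -t + -s = -(s - 2 * t) by ring, abs_neg]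
        exact h

end Pool.Agent.Lib.MP_0bc52e_nt.LC
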