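import Pool.Agent.Lib.MP_0bc52e_nt.T.StmI1

/-!
Piece [WL2] (MP_0bc52e_nt, conjecture (T), part I).
-/

namespace Pool.Agent.Lib.MP_0bc52e_nt.LC

theorem pI_WL2 (h1 : SI_bd) (h2 : SI_pcmin) (h3 : SI_shape) (h4 : SI_avdmap) (h5 : SI_W3s)
    (h6 : SI_umim) (h7 : SI_CZ0) (h8 : SI_CZ2) (h9 : SI_CZ3) (h10 : SI_CW) (h11 : SI_CmW)
    (h12 : SI_CX) : SI_WL2 := by
  intro A B p m n y z hA hB hW hPC hM hodd h3p hav
  have hBd := h1 A B p m n y z hA hB hW hM hav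
  obtain ⟨x₀, y₀, a, b, c, d, hdet, hZW⟩ := h2 B hB hPC
  obtain ⟨a', b', c', d', e, f, hWS, hCan⟩ := h3 B x₀ y₀ a b c d hB hBd hdet hZW
  obtain ⟨hd', hW'⟩ := h5 A a' b' c' d' hWS
  have hA1 := ((h6 a' b' c' d' 0 0 hd').2 A).1 hA
  have hB1 := ((h6 a' b' c' d' e f hd').2 B).1 hB
  have hav1 := h4 A B p m n y z a' b' c' d' 0 0 e f hd' hav
  have hW1 := hW' hW
  have hp2 : 2 ≤ p := by
    have := hM.1
    have := hM.2.1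
    omega
  rcases hCan with hC | hC | hC | hC | hC | hC
  · exact h7 _ _ p m n _ _ hA1 hB1 hW1 hC hM hav1
  · exact h8 _ _ p m n _ _ hA1 hB1 hW1 hC hM hav1
  · exact h9 _ _ p m n _ _ hA1 hB1 hW1 hC hM hav1
  · exact h10 _ _ p m n _ _ hA1 hB1 hW1 hC hM.1 hp2 h3p hav1
  · exact h11 _ _ p m n _ _ hA1 hB1 hW1 hC hM hodd hav1
  · exact h12 _ _ p m n _ _ hA1 hB1 hW1 hC hM hav1

end Pool.Agent.Lib.MP_0bc52e_nt.LC
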