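import Pool.Agent.Lib.MP_0bc52e_nt.T.StmI1

/-!
# MP_0bc52e_nt, conjecture (T), part I: piece WLm
-/

namespace Pool.Agent.Lib.MP_0bc52e_nt.LC

theorem pI_WLm (h1 : SI_WL1) (h2 : SI_WL2) : SI_WLm := by
  intro A B p m n y z hA hB hW hPC hp hp13 hn hnm hmn hAvd
  have h3 : ¬ 3 ∣ p := by
    intro h
    have := (Nat.prime_dvd_prime_iff_eq Nat.prime_three hp).1 h
    omega
  have hodd : Odd p := hp.odd_of_ne_two (by omega)
  by_cases h : 2 * p ≤ 3 * m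
  · exact h1 A B p m n y z hA hB hW hPC hmn hn h h3 hAvd
  · refine h2 A B p m n y z hA hB hW hPC ?_ hodd h3 hAvd
    obtain ⟨k, hk⟩ := hodd
    refine ⟨hmn, ?_, ?_, ?_⟩ <;> omega

end Pool.Agent.Lib.MP_0bc52e_nt.LC
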