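import Pool.Agent.Lib.MP_0bc52e_nt.T.StmI1

/-!
# Parity for two triangles with equal multiplicities
-/

namespace Pool.Agent.Lib.MP_0bc52e_nt.LC

private def ww4_e1 (i : Fin 4) : ℕ := match i with | 0 => 0 | 1 => 1 | 2 => 0 | 3 => 3
private def ww4_e2 (i : Fin 4) : ℕ := match i with | 0 => 0 | 1 => 0 | 2 => 1 | 3 => 3
private def ww4_u (a c : ℕ) (j : Fin 4) : ℕ :=
  match j with | 0 => 0 | 1 => a | 2 => c | 3 => 3 * a + 3 * c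

private lemma ww4_chk : ∀ a b c d : Fin 4, ((a : ℕ) * d + 3 * ((b : ℕ) * c)) % 4 = 1 →
    ∃ v1 v2 : Fin 2, ∀ r s : Fin 2, ∃ i j : Fin 4,
      (ww4_e1 i + ww4_u a c j) % 4 = ((v1 : ℕ) + 2 * r) % 4 ∧
      (ww4_e2 i + ww4_u b d j) % 4 = ((v2 : ℕ) + 2 * s) % 4 := by
  decide +kernel

private def ww4_E1 (i : Fin 4) : ℤ := match i with | 0 => 0 | 1 => 1 | 2 => 0 | 3 => -1
private def ww4_E2 (i : Fin 4) : ℤ := match i with | 0 => 0 | 1 => 0 | 2 => 1 | 3 => -1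
private def ww4_U (a c : ℤ) (j : Fin 4) : ℤ :=
  match j with | 0 => 0 | 1 => a | 2 => c | 3 => -a - c

private lemma ww4_e1_eq (i : Fin 4) : ∃ k : ℤ, ww4_E1 i = ww4_e1 i + 4 * k := by
  fin_cases i
  · exact ⟨0, by simp [ww4_E1, ww4_e1]⟩
  · exact ⟨0, by simp [ww4_E1, ww4_e1]⟩
  · exact ⟨0, by simp [ww4_E1, ww4_e1]⟩
  · exact ⟨-1, by simp [ww4_E1, ww4_e1]⟩

private lemma ww4_e2_eq (i : Fin 4) : ∃ k : ℤ, ww4_E2 i = ww4_e2 i + 4 * k := by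
  fin_cases i
  · exact ⟨0, by simp [ww4_E2, ww4_e2]⟩
  · exact ⟨0, by simp [ww4_E2, ww4_e2]⟩
  · exact ⟨0, by simp [ww4_E2, ww4_e2]⟩
  · exact ⟨-1, by simp [ww4_E2, ww4_e2]⟩

private lemma ww4_u_eq (a c ka kc : ℤ) (a' c' : ℕ) (ha : a = a' + 4 * ka) (hc : c = c' + 4 * kc)
    (j : Fin 4) : ∃ k : ℤ, ww4_U a c j = ww4_u a' c' j + 4 * k := by
  fin_cases j
  · exact ⟨0, by simp [ww4_U, ww4_u]⟩
  · exact ⟨ka, by simp [ww4_U, ww4_u, ha]⟩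
  · exact ⟨kc, by simp [ww4_U, ww4_u, hc]⟩
  · refine ⟨-a' - c' - ka - kc, ?_⟩
    simp only [ww4_U, ww4_u]
    push_cast
    rw [ha, hc]
    ring

private lemma ww4_fin4 (a : ℤ) : ∃ (a' : Fin 4) (k : ℤ), a = ((a' : ℕ) : ℤ) + 4 * k := by
  refine ⟨⟨(a % 4).toNat, by omega⟩, a / 4, ?_⟩
  simp only
  omega

private lemma ww4_fin2 (a : ℤ) : ∃ (a' : Fin 2) (k : ℤ), a = ((a' : ℕ) : ℤ) + 2 * k := by
  refine ⟨⟨(a % 2).toNat, by omega⟩, a / 2, ?_⟩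
  simp only
  omega

private lemma ww4_key (a b c d : ℤ) (h : a * d - b * c = 1) :
    ∃ v1 v2 : ℤ, ∀ r s : ℤ, ∃ i j : Fin 4, ∃ X Y : ℤ,
      ww4_E1 i + ww4_U a c j = v1 + 2 * X ∧ ww4_E2 i + ww4_U b d j = v2 + 2 * Y ∧
      (2 : ℤ) ∣ X - r ∧ (2 : ℤ) ∣ Y - s := by
  obtain ⟨a', ka, ha⟩ := ww4_fin4 a
  obtain ⟨b', kb, hb⟩ := ww4_fin4 b
  obtain ⟨c', kc, hc⟩ := ww4_fin4 c
  obtain ⟨d', kd, hd⟩ := ww4_fin4 d
  have hdet : ((a' : ℕ) * d' + 3 * ((b' : ℕ) * c')) % 4 = 1 := by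
    have h1 : (((a' : ℕ) * d' + 3 * ((b' : ℕ) * c') : ℕ) : ℤ) =
        1 + 4 * ((b' : ℕ) * c' - (a' : ℕ) * kd - (d' : ℕ) * ka - 4 * ka * kd + (b' : ℕ) * kc +
          (c' : ℕ) * kb + 4 * kb * kc) := by
      push_cast
      rw [ha, hb, hc, hd] at h
      linear_combination h
    omega
  obtain ⟨v1, v2, hv⟩ := ww4_chk a' b' c' d' hdet
  refine ⟨v1, v2, fun r s => ?_⟩
  obtain ⟨r', kr, hr⟩ := ww4_fin2 r
  obtain ⟨s', ks, hs⟩ := ww4_fin2 s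
  obtain ⟨i, j, h1, h2⟩ := hv r' s'
  obtain ⟨k1, hk1⟩ := ww4_e1_eq i
  obtain ⟨k2, hk2⟩ := ww4_e2_eq i
  obtain ⟨k3, hk3⟩ := ww4_u_eq a c ka kc a' c' ha hc j
  obtain ⟨k4, hk4⟩ := ww4_u_eq b d kb kd b' d' hb hd j
  have h3 : ∃ X : ℤ, ww4_E1 i + ww4_U a c j = v1 + 2 * X ∧ (2 : ℤ) ∣ X - r := by
    generalize ww4_e1 i = m1 at h1 hk1
    generalize ww4_u a' c' j = m2 at h1 hk3
    refine ⟨(ww4_E1 i + ww4_U a c j - v1) / 2, ?_, ?_⟩ <;> omega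
  have h4 : ∃ Y : ℤ, ww4_E2 i + ww4_U b d j = v2 + 2 * Y ∧ (2 : ℤ) ∣ Y - s := by
    generalize ww4_e2 i = m1 at h2 hk2
    generalize ww4_u b' d' j = m2 at h2 hk4
    refine ⟨(ww4_E2 i + ww4_U b d j - v2) / 2, ?_, ?_⟩ <;> omega
  obtain ⟨X, hX, hX'⟩ := h3
  obtain ⟨Y, hY, hY'⟩ := h4
  exact ⟨i, j, X, Y, hX, hY, hX', hY'⟩

private lemma ww4_cent {S : Set (ℝ × ℝ)} (hS : Convex ℝ S) {u v w : ℝ × ℝ} (hu : u ∈ S)
    (hv : v ∈ S) (hw : w ∈ S) : ((u.1 + v.1 + w.1) / 3, (u.2 + v.2 + w.2) / 3) ∈ S := by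
  have h1 : (1 / 2 : ℝ) • u + (1 / 2 : ℝ) • v ∈ S :=
    hS hu hv (by norm_num) (by norm_num) (by norm_num)
  have h2 : (2 / 3 : ℝ) • ((1 / 2 : ℝ) • u + (1 / 2 : ℝ) • v) + (1 / 3 : ℝ) • w ∈ S :=
    hS h1 hw (by norm_num) (by norm_num) (by norm_num)
  convert h2 using 1
  ext
  · simp only [Prod.fst_add, Prod.smul_fst, smul_eq_mul]
    ring
  · simp only [Prod.snd_add, Prod.smul_snd, smul_eq_mul]
    ring

theorem pI_WW4 : SI_WW4 := by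
  intro A B x₀ y₀ a b c d hA hB hW hBt hdet
  obtain ⟨v1, v2, hv⟩ := ww4_key a b c d hdet
  have hAi : ∀ i : Fin 4, (((ww4_E1 i : ℤ) : ℝ), ((ww4_E2 i : ℤ) : ℝ)) ∈ A := by
    intro i
    fin_cases i
    · have := ww4_cent hA hW.1 hW.2.1 hW.2.2
      simpa [ww4_E1, ww4_E2] using this
    · simpa [ww4_E1, ww4_E2] using hW.1
    · simpa [ww4_E1, ww4_E2] using hW.2.1
    · simpa [ww4_E1, ww4_E2] using hW.2.2
  have hBj : ∀ j : Fin 4, (((x₀ + ww4_U a c j : ℤ) : ℝ), ((y₀ + ww4_U b d j : ℤ) : ℝ)) ∈ B := by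
    intro j
    fin_cases j
    · have := ww4_cent hB hBt.1 hBt.2.1 hBt.2.2
      convert this using 1
      simp only [ww4_U, ip2]
      ext
      · push_cast
        ring
      · push_cast
        ring
    · simpa [ww4_U, ip2] using hBt.1
    · simpa [ww4_U, ip2] using hBt.2.1
    · have := hBt.2.2
      convert this using 1
      simp only [ww4_U, ip2]
      ext
      · push_cast
        ring
      · push_cast
        ring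
  refine ⟨v1 + x₀, v2 + y₀, fun r s => ?_⟩
  obtain ⟨i, j, X, Y, h1, h2, h3, h4⟩ := hv r s
  refine ⟨X, Y, h3, h4, _, hAi i, _, hBj j, ?_, ?_⟩
  · simp only
    have : ((ww4_E1 i + ww4_U a c j : ℤ) : ℝ) = ((v1 + 2 * X : ℤ) : ℝ) := by rw [h1]
    push_cast at this ⊢
    linarith
  · simp only
    have : ((ww4_E2 i + ww4_U b d j : ℤ) : ℝ) = ((v2 + 2 * Y : ℤ) : ℝ) := by rw [h2]
    push_cast at this ⊢
    linarith

end Pool.Agent.Lib.MP_0bc52e_nt.LC
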