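import Pool.Agent.Lib.MP_0bc52e_nt.T.StmI1

/-!
Piece Wfull of part I (MP_0bc52e_nt, conjecture (T)): `(p-1) W` meets all classes modulo `p`.
-/

namespace Pool.Agent.Lib.MP_0bc52e_nt.LC

theorem pI_Wfull : SI_Wfull := by
  intro p hp h3 x y
  have hp' : (0 : ℤ) < p := by exact_mod_cast hp
  have hX0 := Int.emod_nonneg x hp'.ne'
  have hX1 := Int.emod_lt_of_pos x hp'
  have hY0 := Int.emod_nonneg y hp'.ne'
  have hY1 := Int.emod_lt_of_pos y hp'
  have hdX : (p : ℤ) ∣ x % p - x := by
    refine ⟨-(x / p), ?_⟩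
    have := Int.emod_add_mul_ediv x p
    linarith
  have hdY : (p : ℤ) ∣ y % p - y := by
    refine ⟨-(y / p), ?_⟩
    have := Int.emod_add_mul_ediv y p
    linarith
  have hdX' : (p : ℤ) ∣ (x % p - p) - x := by
    have h := dvd_sub hdX (dvd_refl (p : ℤ))
    have e : x % p - x - p = (x % p - p) - x := by ring
    rwa [e] at h
  have hdY' : (p : ℤ) ∣ (y % p - p) - y := by
    have h := dvd_sub hdY (dvd_refl (p : ℤ))
    have e : y % p - y - p = (y % p - p) - y := by ring
    rwa [e] at h
  generalize hX : x % (p : ℤ) = X at *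
  generalize hY : y % (p : ℤ) = Y at *
  have hn3 : ¬ (3 : ℤ) ∣ (p : ℤ) := by
    intro h
    exact h3 (by exact_mod_cast h)
  by_contra hcon
  push Not at hcon
  have a1 := hcon X Y hdX hdY
  have a2 := hcon (X - p) (Y - p) hdX' hdY'
  have a3 := hcon (X - p) Y hdX' hdY
  have a4 := hcon X (Y - p) hdX hdY'
  clear hcon
  generalize hq : (p : ℤ) = q at *
  have b1 : q ≤ X + Y := by
    by_contra hc
    have := a1 (by omega) (by omega)
    omega
  have b3 : -q ≤ -2 * X + Y := by
    by_contra hc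
    have := a3 (by omega) (by omega)
    omega
  have b4 : -q ≤ X - 2 * Y := by
    by_contra hc
    have := a4 (by omega) (by omega)
    omega
  by_cases h5 : X - 2 * Y ≤ -1
  · by_cases h6 : -2 * X + Y ≤ -1
    · have := a2 (by omega) (by omega)
      omega
    · apply hn3
      exact ⟨X, by omega⟩
  · apply hn3
    exact ⟨Y, by omega⟩

end Pool.Agent.Lib.MP_0bc52e_nt.LC
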