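import Pool.Agent.Lib.MP_0bc52e_nt.T.StmI1

set_option autoImplicit false

namespace Pool.Agent.Lib.MP_0bc52e_nt.LC

theorem pI_X (h1 : SI_gap0) (h2 : SI_E1) (h3 : SI_E4) (h4 : SI_frsym) : SI_X := by
  intro p m y₀ σ hp hpm hmp hfr
  have hm : 0 < m := by linarith
  have hmp' : m < p := by linarith
  -- translation
  have h0 : FR p m ((0 : ℤ) * p) y₀ := by
    have h := hfr 0 le_rfl hp.le
    rw [mul_zero, add_zero] at h
    rwa [Int.cast_zero, zero_mul]
  obtain ⟨j, hj1, hj2⟩ := h1 p m y₀ 0 hp h0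
  set y1 : ℝ := y₀ - j * p with hy1
  have hfr1 : ∀ x : ℝ, 0 ≤ x → x ≤ p → FR p m x (y1 + σ * x) := by
    intro x hx0 hxp
    have h := ((h4 p m x (y₀ + σ * x)).1 0 j).1 (hfr x hx0 hxp)
    rw [Int.cast_zero, zero_mul, sub_zero] at h
    have h5 : y₀ + σ * x - j * p = y1 + σ * x := by rw [hy1]; ring
    rwa [h5] at h
  have hP : FR p m ((1 : ℤ) * p) (y1 + σ * p) := by
    rw [Int.cast_one, one_mul]
    exact hfr1 p hp.le le_rfl
  obtain ⟨k, hk1, hk2⟩ := h1 p m (y1 + σ * p) 1 hp hP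
  have hE1 := h2 p m y1 σ m hm hm.le le_rfl (fun x hx0 hxm => hfr1 x hx0 (by linarith)) hj2
  have hE4 := h3 p m y1 σ k hm (fun x hx0 hxp => hfr1 x (by linarith) hxp) (by linarith)
  -- (i)
  have hi : m * (k + 1) < p := by
    have h5 : p * (y1 + σ * m) = (p - m) * y1 + m * (y1 + σ * p) := by ring
    have h6 : (p - m) * m < (p - m) * y1 := mul_lt_mul_of_pos_left hj1 (by linarith)
    have h7 : m * (k * p + m) < m * (y1 + σ * p) := mul_lt_mul_of_pos_left (by linarith) hm
    have h8 : p * (y1 + σ * m) < p * p := mul_lt_mul_of_pos_left (by linarith) hp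
    have h9 : p * (m * (k + 1)) < p * p := by
      calc p * (m * (k + 1)) = (p - m) * m + m * (k * p + m) := by ring
        _ < (p - m) * y1 + m * (y1 + σ * p) := by linarith
        _ = p * (y1 + σ * m) := h5.symm
        _ < p * p := h8
    exact lt_of_mul_lt_mul_left h9 hp.le
  have hk : k ≤ 0 := by
    by_contra hk
    have h5 : (1 : ℤ) ≤ k := by omega
    have h6 : (1 : ℝ) ≤ k := by exact_mod_cast h5
    have h7 : m * (1 + 1) ≤ m * (k + 1) := mul_le_mul_of_nonneg_left (by linarith) hm.le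
    linarith
  -- (ii)
  have hii : 2 * m - p < k * m := by
    have h5 : p * (y1 + σ * (p - m)) = m * y1 + (p - m) * (y1 + σ * p) := by ring
    have h6 : m * m < m * y1 := mul_lt_mul_of_pos_left hj1 hm
    have h7 : (p - m) * (k * p + m) < (p - m) * (y1 + σ * p) :=
      mul_lt_mul_of_pos_left (by linarith) (by linarith)
    have h8 : p * (y1 + σ * (p - m)) < p * ((k + 1) * p - m) := mul_lt_mul_of_pos_left hE4 hp
    have h9 : p * (m + (p - m) * k) < p * ((k + 1) * p - m) := by
      calc p * (m + (p - m) * k) = m * m + (p - m) * (k * p + m) := by ring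
        _ < m * y1 + (p - m) * (y1 + σ * p) := by linarith
        _ = p * (y1 + σ * (p - m)) := h5.symm
        _ < _ := h8
    have h10 := lt_of_mul_lt_mul_left h9 hp.le
    linarith
  have h5 : (k : ℝ) ≤ 0 := by exact_mod_cast hk
  have h6 : (k : ℝ) * m ≤ 0 := mul_nonpos_of_nonpos_of_nonneg h5 hm.le
  linarith

end Pool.Agent.Lib.MP_0bc52e_nt.LC

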