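import Pool.Agent.Lib.MP_0bc52e_nt.T.StmI2

/-!
# [TI ZA] (MP_0bc52e_nt, width one): arithmetic of the parallelogram case
-/

namespace Pool.Agent.Lib.MP_0bc52e_nt.LC

theorem pI_ZA : SI_ZA := by
  intro m n p q σ ρ σ' κ hp hn hnm hq hσ1 hσn hρ1 hρn hσ'1 hσ'n h1 h2 h3
  rcases eq_or_lt_of_le hn with h | hn2
  · exact Or.inl h.symm
  right
  have hsum : (q + 1) * (n - 1) ≤ n - 1 + σ' - σ := by
    have e : (q + 1) * (n - 1) = (q + 1) * (n - ρ) + (q + 1) * (ρ - 1) := by ring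
    rw [e]
    omega
  have hq1 : q = 1 := by
    by_contra hne
    have h4 : 3 * (n - 1) ≤ (q + 1) * (n - 1) :=
      mul_le_mul_of_nonneg_right (by omega) (by omega)
    omega
  subst hq1
  have hσ' : σ' = n := by omega
  have hσ : σ = 1 := by omega
  subst hσ
  subst hσ'
  have hk : κ * p = 2 * σ' + 1 := by linarith
  have hp0 : 0 < p := by omega
  have hκ1 : 1 ≤ κ := by
    by_contra hne
    have : κ * p ≤ 0 := mul_nonpos_of_nonpos_of_nonneg (by omega) hp0.le
    omega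
  have hκ2 : κ = 1 := by
    by_contra hne
    have : 2 * p ≤ κ * p := mul_le_mul_of_nonneg_right (by omega) hp0.le
    omega
  subst hκ2
  refine ⟨by omega, rfl, rfl, rfl, by omega⟩

end Pool.Agent.Lib.MP_0bc52e_nt.LC
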