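import Pool.Agent.Lib.MP_0bc52e_nt.T.StmI2

/-!
# MP_0bc52e_nt, conjecture (T), part I: piece ZAW
-/

namespace Pool.Agent.Lib.MP_0bc52e_nt.LC

theorem pI_ZAW : SI_ZAW := by
  intro m n p q σ ρ σ' κ hp hn hmn hq hσ hσn hρ hρn hσ' hσn' h1 h2 h3
  rcases eq_or_lt_of_le hn with hn1 | hn1
  · exact Or.inl hn1.symm
  right
  have hq1 : q = 1 := by
    by_contra hne
    have hq2 : 2 ≤ q := by omega
    have a1 : 4 * (n - ρ) ≤ (q + 2) * (n - ρ) :=
      mul_le_mul_of_nonneg_right (by omega) (by omega)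
    have a2 : 5 * (ρ - 1) ≤ (2 * q + 1) * (ρ - 1) :=
      mul_le_mul_of_nonneg_right (by omega) (by omega)
    omega
  subst hq1
  have hmn' : n ≤ m := by omega
  have hp0 : 2 * n + 1 ≤ p := by omega
  have h3' : κ * p = 3 * n - σ' + σ := by linarith
  have hκ : κ = 1 := by
    have b1 : 0 < κ := by
      by_contra hc
      have : κ * p ≤ 0 := mul_nonpos_of_nonpos_of_nonneg (by omega) (by omega)
      omega
    have b2 : κ < 2 := by
      by_contra hc
      have : 2 * p ≤ κ * p := mul_le_mul_of_nonneg_right (by omega) (by omega)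
      omega
    omega
  subst hκ
  rw [one_mul] at h3'
  norm_num at h1 h2
  omega

end Pool.Agent.Lib.MP_0bc52e_nt.LC
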