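import Pool.Agent.Lib.MP_0bc52e_nt.T.StmI2

/-!
Piece `[ZFW]` of MP_0bc52e_nt: triangles in free corridors.
-/

namespace Pool.Agent.Lib.MP_0bc52e_nt.LC

/-- A point of a segment of a convex set. -/
theorem zfw_seg (B : Set (ℝ × ℝ)) (hB : Convex ℝ B) (X₀ Y₀ X₁ Y₁ s : ℝ) (h0 : (X₀, Y₀) ∈ B)
    (h1 : (X₁, Y₁) ∈ B) (hs : 0 ≤ s) (hs' : s ≤ 1) :
    ((1 - s) * X₀ + s * X₁, (1 - s) * Y₀ + s * Y₁) ∈ B := by
  have h := hB h0 h1 (a := 1 - s) (b := s) (by linarith) hs (by ring)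
  have e : (1 - s) • ((X₀, Y₀) : ℝ × ℝ) + s • ((X₁, Y₁) : ℝ × ℝ) =
      ((1 - s) * X₀ + s * X₁, (1 - s) * Y₀ + s * Y₁) := by
    simp
  rwa [e] at h

/-- Consequences of `Nf`. -/
theorem zfw_nf (a b c d : ℤ) (h : Nf a b c d) : d ≤ c ∧ b < a ∧ 1 ≤ b + d := by
  obtain ⟨ha, hb, hc, hd, h1, h2⟩ := h
  refine ⟨?_, ?_, ?_⟩
  · by_contra hcon
    push Not at hcon
    have h3 : b + 2 ≤ a := by omega
    have h4 : c + 1 ≤ d := by omega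
    have h5 : (b + 2) * (c + 1) ≤ a * d := mul_le_mul h3 h4 (by omega) ha
    nlinarith
  · by_contra hcon
    push Not at hcon
    have h3 : d ≤ c := by omega
    have h4 : a * d ≤ b * c := mul_le_mul hcon h3 hd hb
    omega
  · by_contra hcon
    have hb0 : b = 0 := by omega
    have hd0 : d = 0 := by omega
    subst hb0
    subst hd0
    simp at h1

/-- The direction of the sides. -/
theorem zfw_dir (a b c d : ℤ) (h : Nf a b c d) (h1 : b ≤ d → b + 2 * d = 2)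
    (h2 : d < b → 2 * b + d = 2) : a = 1 ∧ b = 0 ∧ d = 1 ∧ 1 ≤ c := by
  obtain ⟨k1, k2, k3⟩ := zfw_nf a b c d h
  obtain ⟨ha, hb, hc, hd, h3, h4⟩ := h
  rcases le_or_gt b d with hbd | hbd
  · have h5 := h1 hbd
    have hd1 : d = 1 := by omega
    have hb0 : b = 0 := by omega
    subst hd1
    subst hb0
    refine ⟨by linarith, rfl, rfl, by omega⟩
  · have h5 := h2 hbd
    have hb1 : b = 1 := by omega
    have hd0 : d = 0 := by omega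
    subst hb1
    subst hd0
    omega

/-- [ZFW] -/
theorem pI_ZFW (h1 : SI_SG) (h2 : SI_IN1) (h3 : SI_IN2) (h4 : SI_ZAW) : SI_ZFW := by
  intro B p m n c d x₁ y₁ a₁ b₁ c₁ d₁ hB hQ hmn hn hm h6 hNf hW
  have hnm : n ≤ m := by omega
  obtain ⟨k1, k2, k3⟩ := zfw_nf _ _ _ _ hNf
  have hNf' := hNf
  obtain ⟨ha, hb, hc, hd, hdet, hlt⟩ := hNf'
  obtain ⟨w1, w2, w3⟩ := hW
  -- free segments from the lowest vertex
  have hseg : ∀ (g₁ g₂ : ℤ), ip2 (x₁ + g₁, y₁ + g₂) ∈ B → ∀ s : ℝ, 0 ≤ s → s ≤ 1 →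
      Vf p n c ((x₁ - a₁ - c₁ : ℤ) + s * (g₁ + a₁ + c₁ : ℤ)) ∨
        Vf p n d ((y₁ - b₁ - d₁ : ℤ) + s * (g₂ + b₁ + d₁ : ℤ)) := by
    intro g₁ g₂ hg s hs hs'
    have hh := zfw_seg B hB _ _ _ _ s w3 hg hs hs'
    have := hQ _ hh
    have e1 : ((x₁ - a₁ - c₁ : ℤ) : ℝ) + s * (g₁ + a₁ + c₁ : ℤ) =
        (1 - s) * ((x₁ - a₁ - c₁ : ℤ) : ℝ) + s * ((x₁ + g₁ : ℤ) : ℝ) := by
      push_cast
      ring
    have e2 : ((y₁ - b₁ - d₁ : ℤ) : ℝ) + s * (g₂ + b₁ + d₁ : ℤ) =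
        (1 - s) * ((y₁ - b₁ - d₁ : ℤ) : ℝ) + s * ((y₁ + g₂ : ℤ) : ℝ) := by
      push_cast
      ring
    rw [e1, e2]
    exact this
  obtain ⟨ea, eb, ed, hq⟩ := zfw_dir _ _ _ _ hNf
    (fun hbd => by
      have := (h1 p m n c d (x₁ - a₁ - c₁) (y₁ - b₁ - d₁) (c₁ + a₁ + c₁) (d₁ + b₁ + d₁) hmn hn hnm
        h6 (by omega) (by omega) (hseg c₁ d₁ w2)).1
      omega)
    (fun hbd => by
      have := (h1 p m n c d (x₁ - a₁ - c₁) (y₁ - b₁ - d₁) (a₁ + a₁ + c₁) (b₁ + b₁ + d₁) hmn hn hnm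
        h6 (by omega) (by omega) (hseg a₁ b₁ w1)).1
      omega)
  subst ea
  subst eb
  subst ed
  obtain ⟨-, k, l, k', hk, hl, hk'⟩ := h1 p m n c d (x₁ - 1 - c₁) (y₁ - 0 - 1) (c₁ + 1 + c₁)
    (1 + 0 + 1) hmn hn hnm h6 (by omega) (by omega) (hseg c₁ 1 w2)
  have el : (n : ℤ) * (y₁ - 0 - 1 + 1) - d = n * y₁ - d := by ring
  rw [el] at hl
  have ek : (n : ℤ) * (x₁ - 1 - c₁ + (c₁ + 1 + c₁)) - c = n * (x₁ + c₁) - c := by ring
  rw [ek] at hk'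
  refine ⟨c₁, k, l, k', hq, ⟨w1, w2, w3⟩, hk, hl, hk', ?_⟩
  -- IN1
  have hI1 := h2 p m n c d (x₁ - 1 - c₁) (y₁ - 1) k l ((c₁ + 2 : ℤ) : ℝ) hmn hn hnm
    (by
      intro s hs hs'
      have hh := zfw_seg B hB _ _ _ _ s w3 w1 hs hs'
      have := hQ _ hh
      have e1 : ((x₁ - 1 - c₁ : ℤ) : ℝ) + s * (c₁ + 2 : ℤ) =
          (1 - s) * ((x₁ - 1 - c₁ : ℤ) : ℝ) + s * ((x₁ + 1 : ℤ) : ℝ) := by
        push_cast
        ring
      have e2 : ((y₁ - 1 : ℤ) : ℝ) + s =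
          (1 - s) * ((y₁ - 0 - 1 : ℤ) : ℝ) + s * ((y₁ + 0 : ℤ) : ℝ) := by
        push_cast
        ring
      rw [e1, e2]
      exact this)
    hk.1 hk.2 (by have := hl.1; rw [sub_add_cancel]; exact this)
    (by have := hl.2; rw [sub_add_cancel]; exact this)
  -- IN2
  have hI2 := h3 p m n c d (x₁ + c₁) (y₁ + 1) k' l ((c₁ : ℝ) + 1 / 2) hmn hn hnm
    (by
      intro s hs hs'
      have hh := zfw_seg B hB _ _ _ _ (s / 2) w2 w3 (by linarith) (by linarith)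
      have := hQ _ hh
      have e1 : ((x₁ + c₁ : ℤ) : ℝ) - s * ((c₁ : ℝ) + 1 / 2) =
          (1 - s / 2) * ((x₁ + c₁ : ℤ) : ℝ) + s / 2 * ((x₁ - 1 - c₁ : ℤ) : ℝ) := by
        push_cast
        ring
      have e2 : ((y₁ + 1 : ℤ) : ℝ) - s =
          (1 - s / 2) * ((y₁ + 1 : ℤ) : ℝ) + s / 2 * ((y₁ - 0 - 1 : ℤ) : ℝ) := by
        push_cast
        ring
      rw [e1, e2]
      exact this)
    hk'.1 hk'.2 (by have := hl.1; rw [add_sub_cancel_right]; exact this)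
    (by have := hl.2; rw [add_sub_cancel_right]; exact this)
  have hI1' : (c₁ + 2) * ((n : ℤ) - (n * (y₁ - 1 + 1) - d - l * p)) <
      n + 1 - (n * (x₁ - 1 - c₁) - c - k * p) := by
    exact_mod_cast hI1
  have hI2' : (2 * c₁ + 1) * ((n * (y₁ + 1 - 1) - d - l * p) - 1) <
      2 * (n * (x₁ + c₁) - c - k' * p) := by
    have : (2 * (c₁ : ℝ) + 1) * (((n * (y₁ + 1 - 1) - d - l * p : ℤ) : ℝ) - 1) <
      2 * ((n * (x₁ + c₁) - c - k' * p : ℤ) : ℝ) := by linarith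
    exact_mod_cast this
  rw [sub_add_cancel] at hI1'
  rw [add_sub_cancel_right] at hI2'
  obtain ⟨hk1, hk2⟩ := hk
  obtain ⟨hl1, hl2⟩ := hl
  obtain ⟨hk3, hk4⟩ := hk'
  have hZ := h4 m n p c₁ (n * (x₁ - 1 - c₁) - c - k * p) (n * y₁ - d - l * p)
    (n * (x₁ + c₁) - c - k' * p) (k' - k) (by exact_mod_cast hmn) (by exact_mod_cast hn)
    (by rcases hm with hm | hm
        · left; exact_mod_cast hm
        · right; exact_mod_cast hm) hq (by linarith) (by linarith) (by linarith) (by linarith)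
    (by linarith) (by linarith) hI1' hI2' (by ring)
  rcases hZ with hZ | ⟨e1, e2, e3, e4, e5⟩
  · left
    exact_mod_cast hZ
  · right
    exact ⟨by exact_mod_cast e1, e2, e3, e4, e5⟩

end Pool.Agent.Lib.MP_0bc52e_nt.LC
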