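import Pool.Agent.Lib.MP_0bc52e_nt.T.StmI2

namespace Pool.Agent.Lib.MP_0bc52e_nt.LC

/-- conclusion for a set with three or four known points -/
private theorem zl_up (h15 : SI_umim) (A B : Set (ℝ × ℝ)) (p m : ℕ) (y z x₁ y₁ q k l k' : ℤ)
    (hp : 0 < p) (hS : S4 A) (hq : 1 ≤ q) (h0 : ip2 (x₁, y₁ - 1) ∈ B)
    (h1 : ip2 (x₁ + q, y₁) ∈ B ∨ ip2 (x₁ + (q + 1), y₁) ∈ B)
    (h2 : ip2 (x₁ + (2 * q + 1), y₁ + 1) ∈ B)
    (e1 : x₁ - y = k * p + 1) (e2 : x₁ + (2 * q + 1) - y = k' * p + 1)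
    (e3 : y₁ - z = l * p + 1) : Up (Core p) A B m 1 y z := by
  have hdet : (1 : ℤ) * 1 - 0 * 0 = 1 ∨ (1 : ℤ) * 1 - 0 * 0 = -1 := by norm_num
  have hB := ((h15 1 0 0 1 (-x₁) (-y₁) hdet).2 B).2.2.2
  have hA := ((h15 1 0 0 1 0 0 hdet).2 A).2.2.2
  have hpz : (0 : ℤ) < p := by exact_mod_cast hp
  refine ⟨1, 0, 0, 1, 0, 0, -x₁, -y₁, hdet, ?_, ⟨k' - k, q, ?_, ?_, ?_, ?_, ?_⟩, ?_, ?_⟩
  · obtain ⟨s1, s2, s3, s4⟩ := hS
    refine ⟨?_, ?_, ?_, ?_⟩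
    · have := hA 0 0 (by simpa [ip2] using s1)
      simpa [ip2] using this
    · have := hA 1 0 (by simpa [ip2] using s2)
      simpa [ip2] using this
    · have := hA 0 1 (by simpa [ip2] using s3)
      simpa [ip2] using this
    · have := hA 1 1 (by simpa [ip2] using s4)
      simpa [ip2] using this
  · linarith
  · have h3 : 0 < (k' - k) * p := by linarith
    exact (mul_pos_iff_of_pos_right hpz).1 h3
  · have := hB x₁ (y₁ - 1) h0
    convert this using 2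
    ext
    · simp
    · simp
      ring
  · have := hB (x₁ + (2 * q + 1)) (y₁ + 1) h2
    convert this using 2
    have h4 : (k' - k) * p = 2 * q + 1 := by linarith
    ext
    · simp only
      rw [h4]
      ring
    · simp
  · rcases h1 with h | h
    · left
      have := hB _ _ h
      convert this using 2
      ext <;> simp
    · right
      have := hB _ _ h
      convert this using 2
      ext <;> simp
  · refine ⟨-k, ?_⟩
    push_cast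
    linarith
  · refine ⟨-l, ?_⟩
    push_cast
    linarith

private theorem zl_core (h5 : SI_ZN) (h6 : SI_Q) (h7 : SI_ZW) (h8 : SI_ZFZ) (h9 : SI_ZFW)
    (h10 : SI_EXZ) (h11 : SI_EXW) (h15 : SI_umim)
    (A B : Set (ℝ × ℝ)) (p m n : ℕ) (y z : ℤ) (hA : Convex ℝ A) (hB : Convex ℝ B) (hS : S4 A)
    (hp : Odd p) (h13 : 13 ≤ p) (hn : 1 ≤ n) (hnm : n ≤ m) (hs : m + n + 1 = p)
    (hav : Avd A B p m n y z) (hav2 : m = n → Avd A B p (n - 1) (n - 1) (3 * y) (3 * z))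
    (hc : Thin B ∨ (∃ x₁ y₁ a₁ b₁ c₁ d₁ : ℤ, Nf a₁ b₁ c₁ d₁ ∧ 2 ≤ b₁ + d₁ ∧ Zt B x₁ y₁ a₁ b₁ c₁ d₁) ∨
      (∃ x₁ y₁ : ℤ, Wt B x₁ y₁ 1 0 0 1) ∨
      ∃ x₁ y₁ a₁ b₁ c₁ d₁ : ℤ, Nf a₁ b₁ c₁ d₁ ∧ Wt B x₁ y₁ a₁ b₁ c₁ d₁) :
    n = 1 ∧ Up (Core p) A B m n y z := by
  have hp0 : 0 < p := by omega
  have hm1 : 1 ≤ m := hn.trans hnm
  have hQ := h6 A B p m n y z hA hS hs hm1 hav
  have hmn : m = n ∨ n + 2 ≤ m := by
    obtain ⟨r, hr⟩ := hp
    omega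
  have h6n : m = n → 6 ≤ n := by
    intro h
    omega
  rcases hc with hT | ⟨x₁, y₁, a₁, b₁, c₁, d₁, hN, hbd, hZ⟩ | ⟨x₁, y₁, hW⟩ |
    ⟨x₁, y₁, a₁, b₁, c₁, d₁, hN, hW⟩
  · exact (h5 A B p m n y z hA hB hS hT hs hn hm1 hav).elim
  · obtain ⟨q, k, l, k', hq, hZ', ⟨e1, e1'⟩, ⟨e2, e2'⟩, ⟨e3, e3'⟩, hfin⟩ :=
      h8 B p m n y z x₁ y₁ a₁ b₁ c₁ d₁ hB hQ hs hn hnm h6n hN hbd hZ
    rcases hfin with rfl | ⟨hmn', hq1, f1, f2, f3⟩
    · refine ⟨rfl, ?_⟩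
      obtain ⟨z1, z2, z3, z4⟩ := hZ'
      push_cast at e1 e1' e2 e2' e3 e3'
      refine zl_up h15 A B p m y z x₁ (y₁ + 1) q k l k' hp0 hS hq ?_ (Or.inl ?_) ?_ ?_ ?_ ?_
      · convert z1 using 2
        ext <;> simp
      · convert z3 using 2
      · convert z4 using 2
        ext
        · simp only
          ring
        · simp
      · linarith
      · linarith
      · linarith
    · exfalso
      subst hq1
      have hZ2 : Zt B x₁ y₁ 2 1 1 1 := by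
        have : (1 : ℤ) + 1 = 2 := by norm_num
        rwa [this] at hZ'
      refine h10 A B p n y z x₁ y₁ k l hA hS hZ2 (by omega) (h6n hmn') f1 f3 (hav2 hmn')
  · exact (h7 B p m n y z x₁ y₁ hB hQ hs hn hnm hW).elim
  · obtain ⟨q, k, l, k', hq, hW', ⟨e1, e1'⟩, ⟨e2, e2'⟩, ⟨e3, e3'⟩, hfin⟩ :=
      h9 B p m n y z x₁ y₁ a₁ b₁ c₁ d₁ hB hQ hs hn hmn h6n hN hW
    rcases hfin with rfl | ⟨hmn', hq1, f1, f2, f3⟩
    · refine ⟨rfl, ?_⟩
      obtain ⟨z1, z2, z3⟩ := hW'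
      push_cast at e1 e1' e2 e2' e3 e3'
      have hcen : ip2 (x₁, y₁) ∈ B := by
        have hh := hB.sum_mem (t := (Finset.univ : Finset (Fin 3))) (w := fun _ => (1 / 3 : ℝ))
          (z := ![ip2 (x₁ + 1, y₁ + 0), ip2 (x₁ + q, y₁ + 1), ip2 (x₁ - 1 - q, y₁ - 0 - 1)])
          (by intro i _; norm_num) (by simp) (by
            intro i _
            fin_cases i
            · exact z1
            · exact z2
            · exact z3)
        convert hh using 1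
        rw [Fin.sum_univ_three]
        simp only [ip2, Matrix.cons_val_zero, Matrix.cons_val_one, Matrix.cons_val]
        ext
        · simp
          ring
        · simp
          ring
      refine zl_up h15 A B p m y z (x₁ - 1 - q) y₁ q k l k' hp0 hS hq ?_ (Or.inr ?_) ?_ ?_ ?_ ?_
      · convert z3 using 2
        ext <;> simp
      · convert hcen using 2
        ext
        · simp only
          ring
        · simp
      · convert z2 using 2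
        ext
        · simp only
          ring
        · simp
      · linarith
      · linarith
      · linarith
    · exfalso
      subst hq1
      have f1' : (n : ℤ) * (x₁ - 2) - y - k * p = 1 := by
        have : x₁ - 1 - 1 = x₁ - 2 := by ring
        rwa [this] at f1
      exact h11 A B p n y z x₁ y₁ k l hA hB hS hW' (by omega) (h6n hmn') f1' f3 (hav2 hmn')

theorem pI_ZL (h1 : SI_pcmin) (h2 : SI_NFZ) (h3 : SI_NFW) (h4 : SI_S4sq) (h5 : SI_ZN) (h6 : SI_Q)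
    (h7 : SI_ZW) (h8 : SI_ZFZ) (h9 : SI_ZFW) (h10 : SI_EXZ) (h11 : SI_EXW) (h12 : SI_avdmap)
    (h13 : SI_avdres) (h14 : SI_upc) (h15 : SI_umim) : SI_ZL := by
  intro A B p m n y z hA hB hS hPC hp hp13 hn hnm hs hav hav2
  obtain ⟨x₀, y₀, a, b, c, d, hdet, hZW⟩ := h1 B hB hPC
  have key : ∃ a' b' c' d' : ℤ, SqM a' b' c' d' ∧
      (Thin (umap a' b' c' d' 0 0 '' B) ∨ (∃ x₁ y₁ a₁ b₁ c₁ d₁ : ℤ, Nf a₁ b₁ c₁ d₁ ∧ 2 ≤ b₁ + d₁ ∧
        Zt (umap a' b' c' d' 0 0 '' B) x₁ y₁ a₁ b₁ c₁ d₁) ∨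
      (∃ x₁ y₁ : ℤ, Wt (umap a' b' c' d' 0 0 '' B) x₁ y₁ 1 0 0 1) ∨
      ∃ x₁ y₁ a₁ b₁ c₁ d₁ : ℤ, Nf a₁ b₁ c₁ d₁ ∧
        Wt (umap a' b' c' d' 0 0 '' B) x₁ y₁ a₁ b₁ c₁ d₁) := by
    rcases hZW with hZ | hW
    · obtain ⟨a', b', c', d', hM, hh⟩ := h2 B x₀ y₀ a b c d hdet hZ
      refine ⟨a', b', c', d', hM, ?_⟩
      rcases hh with hT | hZ'
      · exact Or.inl hT
      · exact Or.inr (Or.inl hZ')
    · obtain ⟨a', b', c', d', hM, x₁, y₁, hh⟩ := h3 B x₀ y₀ a b c d hdet hW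
      refine ⟨a', b', c', d', hM, ?_⟩
      rcases hh with hT | ⟨a₁, b₁, c₁, d₁, hN, hW'⟩
      · exact Or.inr (Or.inr (Or.inl ⟨x₁, y₁, hT⟩))
      · exact Or.inr (Or.inr (Or.inr ⟨x₁, y₁, a₁, b₁, c₁, d₁, hN, hW'⟩))
  obtain ⟨a', b', c', d', hM, hcase⟩ := key
  obtain ⟨hdet', hS4⟩ := h4 A a' b' c' d' hM
  obtain ⟨e, f, hSA⟩ := hS4 hS
  have hA' := ((h15 a' b' c' d' e f hdet').2 A).1 hA
  have hB' := ((h15 a' b' c' d' 0 0 hdet').2 B).1 hB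
  have hav' := h12 A B p m n y z a' b' c' d' e f 0 0 hdet' hav
  have hav2' : m = n → Avd (umap a' b' c' d' e f '' A) (umap a' b' c' d' 0 0 '' B) p (n - 1) (n - 1)
      (3 * (a' * y + b' * z + m * e + n * 0)) (3 * (c' * y + d' * z + m * f + n * 0)) := by
    intro hmn
    have h16 := h12 A B p (n - 1) (n - 1) (3 * y) (3 * z) a' b' c' d' e f 0 0 hdet' (hav2 hmn)
    refine h13.1 _ _ _ _ _ _ _ _ _ ?_ ?_ h16
    · refine ⟨e, ?_⟩
      rw [Nat.cast_sub hn, ← hs, hmn]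
      push_cast
      ring
    · refine ⟨f, ?_⟩
      rw [Nat.cast_sub hn, ← hs, hmn]
      push_cast
      ring
  obtain ⟨r1, r2⟩ := zl_core h5 h6 h7 h8 h9 h10 h11 h15 _ _ p m n _ _ hA' hB' hSA hp hp13 hn hnm hs
    hav' hav2' hcase
  exact ⟨r1, h14 _ A B m n y z a' b' c' d' e f 0 0 hdet' r2⟩

end Pool.Agent.Lib.MP_0bc52e_nt.LC
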