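import Pool.Agent.Lib.MP_0bc52e_nt.T.StmI2

set_option autoImplicit false

namespace Pool.Agent.Lib.MP_0bc52e_nt.LC

/-- residues -/
private theorem zn_res (p : ℕ) (hp : 0 < p) (L y : ℤ) :
    ∃ i : ℤ, 0 ≤ i ∧ i < p ∧ (p : ℤ) ∣ L + i - y := by
  have hp' : (0 : ℤ) < p := by exact_mod_cast hp
  refine ⟨(y - L) % p, Int.emod_nonneg _ hp'.ne', Int.emod_lt_of_pos _ hp', ?_⟩
  have h1 := Int.emod_add_mul_ediv (y - L) p
  refine ⟨-((y - L) / p), ?_⟩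
  linarith

/-- points of a thin set -/
private theorem zn_pt (B : Set (ℝ × ℝ)) (hB : Convex ℝ B) (x₀ x₁ y₀ : ℤ)
    (h1 : ip2 (x₀, y₀) ∈ B) (h2 : ip2 (x₀ + 1, y₀) ∈ B) (h3 : ip2 (x₁, y₀ + 1) ∈ B)
    (h4 : ip2 (x₁ + 1, y₀ + 1) ∈ B) (n i j : ℝ) (hn : 0 < n) (hi : 0 ≤ i) (hi' : i ≤ n)
    (hj : 0 ≤ j) (hj' : j ≤ n) :
    ∃ b ∈ B, n * b.1 = (n - j) * x₀ + j * x₁ + i ∧ n * b.2 = n * y₀ + j := by
  have hn' : n ≠ 0 := hn.ne'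
  have s0 : 0 ≤ i / n := div_nonneg hi hn.le
  have s1 : 0 ≤ 1 - i / n := by rw [sub_nonneg, div_le_one hn]; exact hi'
  have t0 : 0 ≤ j / n := div_nonneg hj hn.le
  have t1 : 0 ≤ 1 - j / n := by rw [sub_nonneg, div_le_one hn]; exact hj'
  have b1 := hB h1 h2 s1 s0 (by ring)
  have b2 := hB h3 h4 s1 s0 (by ring)
  have b3 := hB b1 b2 t1 t0 (by ring)
  refine ⟨_, b3, ?_, ?_⟩
  · simp only [ip2, Prod.smul_mk, Prod.mk_add_mk, smul_eq_mul, Int.cast_add, Int.cast_one]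
    field_simp
    ring
  · simp only [ip2, Prod.smul_mk, Prod.mk_add_mk, smul_eq_mul, Int.cast_add, Int.cast_one]
    field_simp
    ring

theorem pI_ZN (_h1 : S_res) (h2 : SI_spt) : SI_ZN := by
  intro A B p m n y z hA hB hS hT hmn hn hm hAvd
  obtain ⟨x₀, x₁, y₀, e1, e2, e3, e4⟩ := hT
  have hp : 0 < p := by omega
  obtain ⟨j, hj0, hjp, hjz⟩ := zn_res p hp (n * y₀) z
  obtain ⟨j1, j2, hj1, hj1', hj2, hj2', hjj⟩ :
      ∃ j1 j2 : ℤ, 0 ≤ j1 ∧ j1 ≤ m ∧ 0 ≤ j2 ∧ j2 ≤ n ∧ j = j1 + j2 := by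
    by_cases h : j ≤ n
    · exact ⟨0, j, by omega, by omega, by omega, by omega, by omega⟩
    · exact ⟨j - n, n, by omega, by omega, by omega, by omega, by omega⟩
  obtain ⟨i, hi0, hip, hiz⟩ := zn_res p hp ((n - j2) * x₀ + j2 * x₁) y
  obtain ⟨i1, i2, hi1, hi1', hi2, hi2', hii⟩ :
      ∃ i1 i2 : ℤ, 0 ≤ i1 ∧ i1 ≤ m ∧ 0 ≤ i2 ∧ i2 ≤ n ∧ i = i1 + i2 := by
    by_cases h : i ≤ n
    · exact ⟨0, i, by omega, by omega, by omega, by omega, by omega⟩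
    · exact ⟨i - n, n, by omega, by omega, by omega, by omega, by omega⟩
  have hm' : (0 : ℝ) < m := by exact_mod_cast hm
  have hn' : (0 : ℝ) < n := by exact_mod_cast hn
  obtain ⟨a, haA, ha1, ha2⟩ := h2 A m i1 j1 hA hS hm' (by exact_mod_cast hi1)
    (by exact_mod_cast hi1') (by exact_mod_cast hj1) (by exact_mod_cast hj1')
  obtain ⟨b, hbB, hb1, hb2⟩ := zn_pt B hB x₀ x₁ y₀ e1 e2 e3 e4 n i2 j2 hn'
    (by exact_mod_cast hi2) (by exact_mod_cast hi2') (by exact_mod_cast hj2)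
    (by exact_mod_cast hj2')
  refine hAvd ((n - j2) * x₀ + j2 * x₁ + i) (n * y₀ + j) hiz hjz ⟨a, haA, b, hbB, ?_, ?_⟩
  · rw [ha1, hb1, hii]
    push_cast
    ring
  · rw [ha2, hb2, hjj]
    push_cast
    ring

end Pool.Agent.Lib.MP_0bc52e_nt.LC
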