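import Pool.Agent.Lib.MP_0bc52e_nt.T.StmI2

/-!
Piece ZW of part I (MP_0bc52e_nt, conjecture (T)): the small triangle does not fit into the corridors.
-/

namespace Pool.Agent.Lib.MP_0bc52e_nt.LC

/-- two adjacent integers are not both in free corridors -/
private theorem zw_adj (p n : ℕ) (c t : ℤ) (hn : 1 ≤ n) (hp : 2 * n + 1 ≤ p)
    (h1 : Vf p n c (t : ℝ)) (h2 : Vf p n c ((t + 1 : ℤ) : ℝ)) : False := by
  obtain ⟨k, a1, a2⟩ := h1
  obtain ⟨l, b1, b2⟩ := h2
  have a1' : k * p < n * t - c := by exact_mod_cast a1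
  have a2' : n * t - c < k * p + n + 1 := by exact_mod_cast a2
  have b1' : l * p < n * (t + 1) - c := by exact_mod_cast b1
  have b2' : n * (t + 1) - c < l * p + n + 1 := by exact_mod_cast b2
  have hp' : 2 * (n : ℤ) + 1 ≤ p := by exact_mod_cast hp
  have hn' : (1 : ℤ) ≤ n := by exact_mod_cast hn
  have h3 : 0 < (l - k) * p := by linarith
  have h4 : (l - k) * p < p := by linarith
  have h5 : 0 < l - k := by
    by_contra hc
    push Not at hc
    nlinarith
  nlinarith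

theorem pI_ZW : SI_ZW := by
  intro B p m n c d x₀ y₀ hB hQ hmn hn hnm hW
  obtain ⟨h1, h2, h3⟩ := hW
  have hp : 2 * n + 1 ≤ p := by omega
  have h0 : ip2 (x₀, y₀) ∈ B := by
    have hP := hB h1 h2 (show (0 : ℝ) ≤ 1 / 2 by norm_num) (show (0 : ℝ) ≤ 1 / 2 by norm_num)
      (by norm_num)
    have hR := hB hP h3 (show (0 : ℝ) ≤ 2 / 3 by norm_num) (show (0 : ℝ) ≤ 1 / 3 by norm_num)
      (by norm_num)
    convert hR using 1
    simp only [ip2, Prod.smul_mk, Prod.mk_add_mk, smul_eq_mul]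
    push_cast
    ext <;> ring
  have q0 := hQ _ h0
  have q1 := hQ _ h1
  have q2 := hQ _ h2
  have q3 := hQ _ h3
  simp only [ip2] at q0 q1 q2 q3
  have e1 : x₀ + 0 = x₀ := by ring
  have e2 : y₀ + 0 = y₀ := by ring
  have e3 : x₀ - 1 - 0 = x₀ - 1 := by ring
  have e4 : y₀ - 0 - 1 = y₀ - 1 := by ring
  rw [e2] at q1
  rw [e1] at q2
  rw [e3, e4] at q3
  have hx : ∀ (c t : ℤ), Vf p n c ((t - 1 : ℤ) : ℝ) → Vf p n c (t : ℝ) → False := by
    intro c t u v
    refine zw_adj p n c (t - 1) hn hp u ?_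
    rw [sub_add_cancel]
    exact v
  rcases q3 with q3 | q3
  · have n0 : ¬ Vf p n c (x₀ : ℝ) := fun h => hx c x₀ q3 h
    have f2 := q0.resolve_left n0
    rcases q2 with q2 | q2
    · exact n0 q2
    · exact zw_adj p n d y₀ hn hp f2 q2
  · have n0 : ¬ Vf p n d (y₀ : ℝ) := fun h => hx d y₀ q3 h
    have f1 := q0.resolve_right n0
    rcases q1 with q1 | q1
    · exact zw_adj p n c x₀ hn hp f1 q1
    · exact n0 q1

end Pool.Agent.Lib.MP_0bc52e_nt.LC
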