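import Pool.Agent.Lib.MP_0bc52e_nt.T.StmI1

set_option autoImplicit false

namespace Pool.Agent.Lib.MP_0bc52e_nt.LC

theorem pI_avdmap : SI_avdmap := by
  intro A B p m n y z a b c d e f e' f' hdet h Y Z hY hZ hPt
  obtain ⟨_, ⟨α, hα, rfl⟩, _, ⟨β, hβ, rfl⟩, hYe, hZe⟩ := hPt
  simp only [umap] at hYe hZe
  obtain ⟨D, hD, hDD⟩ : ∃ D : ℤ, a * d - b * c = D ∧ D * D = 1 := by
    rcases hdet with h | h
    · exact ⟨1, h, by ring⟩
    · exact ⟨-1, h, by ring⟩
  have hDr : (a : ℝ) * d - b * c = D := by exact_mod_cast hD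
  have hDDr : (D : ℝ) * D = 1 := by exact_mod_cast hDD
  obtain ⟨k, hk⟩ := hY
  obtain ⟨l, hl⟩ := hZ
  refine h (D * (d * (Y - m * e - n * e') - b * (Z - m * f - n * f')))
    (D * (-c * (Y - m * e - n * e') + a * (Z - m * f - n * f'))) ?_ ?_ ⟨α, hα, β, hβ, ?_, ?_⟩
  · refine ⟨D * (d * k - b * l), ?_⟩
    have e1 : Y = a * y + b * z + m * e + n * e' + p * k := by linarith
    have e2 : Z = c * y + d * z + m * f + n * f' + p * l := by linarith
    rw [e1, e2]
    linear_combination (D * y) * hD + y * hDD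
  · refine ⟨D * (-c * k + a * l), ?_⟩
    have e1 : Y = a * y + b * z + m * e + n * e' + p * k := by linarith
    have e2 : Z = c * y + d * z + m * f + n * f' + p * l := by linarith
    rw [e1, e2]
    linear_combination (D * z) * hD + z * hDD
  · push_cast
    rw [hYe, hZe]
    linear_combination (D * (m * α.1 + n * β.1)) * hDr + (m * α.1 + n * β.1) * hDDr
  · push_cast
    rw [hYe, hZe]
    linear_combination (D * (m * α.2 + n * β.2)) * hDr + (m * α.2 + n * β.2) * hDDr

end Pool.Agent.Lib.MP_0bc52e_nt.LC
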