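import Pool.Agent.Lib.MP_0bc52e_nt.T.StmI1

set_option autoImplicit false

namespace Pool.Agent.Lib.MP_0bc52e_nt.LC

theorem pI_avdres : SI_avdres := by
  refine ⟨?_, ?_⟩
  · intro A B p m n y z y' z' hy hz h Y Z hY hZ
    refine h Y Z ?_ ?_
    · have h1 := dvd_add hY hy
      have h2 : Y - y' + (y' - y) = Y - y := by ring
      rwa [h2] at h1
    · have h1 := dvd_add hZ hz
      have h2 : Z - z' + (z' - z) = Z - z := by ring
      rwa [h2] at h1
  · rintro A B p m n y z h Y Z hY hZ ⟨b, hb, a, ha, h1, h2⟩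
    refine h Y Z hY hZ ⟨a, ha, b, hb, ?_, ?_⟩
    · rw [h1, add_comm]
    · rw [h2, add_comm]

end Pool.Agent.Lib.MP_0bc52e_nt.LC

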