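import Pool.Agent.Lib.MP_0bc52e_nt.T.StmI1

namespace Pool.Agent.Lib.MP_0bc52e_nt.LC

private theorem bd_int (n : ℕ) (d : ℤ) (w : ℝ) (hw : w = n * d)
    (h : 3 * |w| < 15 * (n : ℝ)) : |d| ≤ 4 := by
  by_contra hcon
  have h5 : (5 : ℤ) ≤ |d| := by omega
  have h5' : (5 : ℝ) ≤ |(d : ℝ)| := by exact_mod_cast h5
  have hn0 : (0 : ℝ) ≤ (n : ℝ) := Nat.cast_nonneg n
  rw [hw, abs_mul, abs_of_nonneg hn0] at h
  have h6 := mul_le_mul_of_nonneg_left h5' hn0
  linarith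

theorem pI_bd (h1 : SI_fra) (h2 : SI_seg1) (h3 : SI_frsym) : SI_bd := by
  intro A B p m n Y Z hA hB hW hM hAvd x y x' y' hb hb'
  obtain ⟨hp, hnm, hm, hn⟩ := hM
  have hm0 : 0 < m := by omega
  have hpR : (p : ℝ) = m + n + 1 := by
    have : m + n + 1 = p := hp
    exact_mod_cast this.symm
  have hp0 : (0 : ℝ) < p := by
    rw [hpR]
    positivity
  have hm2 : (p : ℝ) ≤ 2 * m := by
    have : p ≤ 2 * m := by omega
    exact_mod_cast this
  have hm3 : 3 * (m : ℝ) ≤ 2 * p := by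
    have : 3 * m ≤ 2 * p := by omega
    exact_mod_cast this
  have hbound : 8 * (p : ℝ) - 6 * m < 15 * n := by
    have h8 : 8 * p < 15 * n + 6 * m := by omega
    have h8' : 8 * (p : ℝ) < 15 * n + 6 * m := by exact_mod_cast h8
    linarith
  have hfree : ∀ s : ℝ, 0 ≤ s → s ≤ 1 →
      FR p m ((1 - s) * ((Y : ℝ) - n * x) + s * ((Y : ℝ) - n * x'))
        ((1 - s) * ((Z : ℝ) - n * y) + s * ((Z : ℝ) - n * y')) := by
    intro s hs0 hs1
    have hmem : (1 - s) • ip2 (x, y) + s • ip2 (x', y') ∈ B :=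
      hB hb hb' (by linarith) hs0 (by ring)
    have h4 := h1 A B p m n Y Z hA hW hm0 hAvd _ hmem
    have e1 : (Y : ℝ) - n * ((1 - s) • ip2 (x, y) + s • ip2 (x', y')).1 =
        (1 - s) * ((Y : ℝ) - n * x) + s * ((Y : ℝ) - n * x') := by
      simp only [ip2, Prod.fst_add, Prod.smul_fst, smul_eq_mul]
      ring
    have e2 : (Z : ℝ) - n * ((1 - s) • ip2 (x, y) + s • ip2 (x', y')).2 =
        (1 - s) * ((Z : ℝ) - n * y) + s * ((Z : ℝ) - n * y') := by
      simp only [ip2, Prod.snd_add, Prod.smul_snd, smul_eq_mul]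
      ring
    rw [e1, e2] at h4
    exact h4
  refine ⟨?_, ?_, ?_⟩
  · have h5 := h2 p m _ _ _ _ hp0 hm2 hm3 hfree
    exact bd_int n (x - x') _ (by push_cast; ring) (lt_trans h5 hbound)
  · have h5 := h2 p m _ _ _ _ hp0 hm2 hm3 (fun s hs0 hs1 => (h3 _ _ _ _).2.1.1 (hfree s hs0 hs1))
    exact bd_int n (y - y') _ (by push_cast; ring) (lt_trans h5 hbound)
  · have h6 : ∀ s : ℝ, 0 ≤ s → s ≤ 1 →
        FR p m ((1 - s) * (((Z : ℝ) - n * y) - ((Y : ℝ) - n * x)) +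
            s * (((Z : ℝ) - n * y') - ((Y : ℝ) - n * x')))
          ((1 - s) * (-((Y : ℝ) - n * x)) + s * (-((Y : ℝ) - n * x'))) := by
      intro s hs0 hs1
      have h7 := (h3 _ _ _ _).2.1.1 ((h3 _ _ _ _).2.2.1 (hfree s hs0 hs1))
      have e1 : ((1 - s) * ((Z : ℝ) - n * y) + s * ((Z : ℝ) - n * y')) -
          ((1 - s) * ((Y : ℝ) - n * x) + s * ((Y : ℝ) - n * x')) =
          (1 - s) * (((Z : ℝ) - n * y) - ((Y : ℝ) - n * x)) +
            s * (((Z : ℝ) - n * y') - ((Y : ℝ) - n * x')) := by ring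
      have e2 : -((1 - s) * ((Y : ℝ) - n * x) + s * ((Y : ℝ) - n * x')) =
          (1 - s) * (-((Y : ℝ) - n * x)) + s * (-((Y : ℝ) - n * x')) := by ring
      rw [e1, e2] at h7
      exact h7
    have h5 := h2 p m _ _ _ _ hp0 hm2 hm3 h6
    have h8 := bd_int n ((y - y') - (x - x')) _ (by push_cast; ring) (lt_trans h5 hbound)
    rw [abs_sub_comm] at h8
    have e3 : x - x' - (y - y') = x - y - (x' - y') := by ring
    rw [e3] at h8
    exact h8

end Pool.Agent.Lib.MP_0bc52e_nt.LC
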