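import Pool.Agent.Lib.MP_0bc52e_nt.T.StmI3

/-!
Piece `[cas]` of MP_0bc52e_nt: the numbers used in `[hit]` exist.
-/

namespace Pool.Agent.Lib.MP_0bc52e_nt.LC

/-- The conclusion of `[cas]`. -/
def cas_G (p : ℕ) (C y z : ℤ) : Prop :=
  ∃ (α η s₁ s₂ : ℝ) (Y Z : ℤ), 0 ≤ α ∧ 0 ≤ η ∧ η ≤ 2 + 2 * α ∧ 0 ≤ s₁ ∧ 0 ≤ s₂ ∧
    s₁ ≤ p - 2 - 2 * α ∧ s₂ ≤ p - 2 - 2 * α ∧ α * y + η + s₁ = Y ∧ α * z + C / 2 * η + s₂ = Z ∧
    (p : ℤ) ∣ Y ∧ (p : ℤ) ∣ Z + 1

/-- The symmetry that changes the signs of `y` and `C`. -/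
theorem cas_symm (p : ℕ) (C y z : ℤ) (hC : (p : ℤ) ∣ C) (h : cas_G p (-C) (-y) (z + C)) :
    cas_G p C y z := by
  obtain ⟨α, η, s₁, s₂, Y, Z, h1, h2, h3, h4, h5, h6, h7, h8, h9, h10, h11⟩ := h
  refine ⟨α, 2 + 2 * α - η, p - 2 - 2 * α - s₁, s₂, p - Y, C + Z, h1, by linarith, by linarith,
    by linarith, h5, by linarith, h7, ?_, ?_, ?_, ?_⟩
  · push_cast at h8 ⊢
    linarith
  · push_cast at h9 ⊢
    linarith
  · exact dvd_sub (dvd_refl _) h10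
  · have e : C + Z + 1 = C + (Z + 1) := by ring
    rw [e]
    exact dvd_add hC h11

/-- The inequality `α = 1/E` gives. -/
theorem cas_inv (P E w : ℝ) (hE : 0 < E) (h1 : w ≤ 2 * E + 2) (h2 : 2 ≤ P * E) (h3 : 0 ≤ w) :
    0 ≤ 1 / E ∧ 0 ≤ 1 / E * w ∧ 1 / E * w ≤ 2 + 2 * (1 / E) ∧ 0 ≤ P - 2 * (1 / E) ∧
      1 / E * E = 1 := by
  have hi : 0 ≤ 1 / E := by positivity
  have he : 1 / E * E = 1 := by field_simp
  refine ⟨hi, mul_nonneg hi h3, ?_, ?_, he⟩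
  · have := mul_le_mul_of_nonneg_left h1 hi
    nlinarith
  · have := mul_le_mul_of_nonneg_left h2 hi
    nlinarith

/-- Case (A). -/
theorem cas_A (p : ℕ) (C y z : ℤ) (hE : (0 : ℝ) < z + C * (-y) / 2 - 2)
    (h1 : (-y : ℝ) ≤ 2 * (z + C * (-y) / 2 - 2) + 2)
    (h2 : (2 : ℝ) ≤ (p - 2) * (z + C * (-y) / 2 - 2)) (h3 : (0 : ℝ) ≤ -y) :
    cas_G p C y z := by
  obtain ⟨a, b, c, d, e⟩ := cas_inv (p - 2) _ (-y) hE h1 h2 h3
  set α : ℝ := 1 / ((z : ℝ) + C * (-y) / 2 - 2) with hα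
  refine ⟨α, α * (-y), 0, p - 2 - 2 * α, 0, p - 1, a, b, c, le_refl _, d, d, le_refl _, ?_, ?_,
    dvd_zero _, ?_⟩
  · push_cast
    ring
  · push_cast
    linear_combination e
  · have e : (p : ℤ) - 1 + 1 = p := by ring
    rw [e]

/-- Case (A'). -/
theorem cas_A' (p : ℕ) (C y z : ℤ) (hE : (0 : ℝ) < -(z + C * (-y) / 2))
    (h1 : (-y : ℝ) ≤ 2 * (-(z + C * (-y) / 2)) + 2)
    (h2 : (2 : ℝ) ≤ (p - 2) * (-(z + C * (-y) / 2))) (h3 : (0 : ℝ) ≤ -y) :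
    cas_G p C y z := by
  obtain ⟨a, b, c, d, e⟩ := cas_inv (p - 2) _ (-y) hE h1 h2 h3
  set α : ℝ := 1 / (-((z : ℝ) + C * (-y) / 2)) with hα
  refine ⟨α, α * (-y), 0, 0, 0, -1, a, b, c, le_refl _, le_refl _, d, d, ?_, ?_,
    dvd_zero _, ?_⟩
  · push_cast
    ring
  · push_cast
    linear_combination -e
  · norm_num

/-- Case (B). -/
theorem cas_B (p : ℕ) (C y z : ℤ) (hz : (0 : ℝ) < -z) (h2 : (-y + 2 : ℝ) ≤ (p - 2) * (-z))
    (h3 : (0 : ℝ) ≤ -y) : cas_G p C y z := by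
  have hi : (0 : ℝ) ≤ 1 / (-(z : ℝ)) := by positivity
  have he : 1 / (-(z : ℝ)) * (-z) = 1 := one_div_mul_cancel (ne_of_gt hz)
  set α : ℝ := 1 / (-(z : ℝ)) with hα
  have h4 : α * (-y) ≤ p - 2 - 2 * α := by
    have := mul_le_mul_of_nonneg_left h2 hi
    nlinarith
  refine ⟨α, 0, α * (-y), 0, 0, -1, hi, le_refl _, by linarith, mul_nonneg hi h3, le_refl _, h4,
    le_trans (mul_nonneg hi h3) h4, ?_, ?_, dvd_zero _, ?_⟩
  · push_cast
    ring
  · push_cast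
    linear_combination -he
  · norm_num

/-- Case (B'). -/
theorem cas_B' (p : ℕ) (C y z : ℤ) (hz : (0 : ℝ) < z - 2)
    (h2 : (-y + 2 : ℝ) ≤ (p - 2) * (z - 2))
    (h3 : (0 : ℝ) ≤ -y) : cas_G p C y z := by
  have hi : (0 : ℝ) ≤ 1 / ((z : ℝ) - 2) := by positivity
  have he : 1 / ((z : ℝ) - 2) * (z - 2) = 1 := by
    field_simp
  set α : ℝ := 1 / ((z : ℝ) - 2) with hα
  have h4 : α * (-y) ≤ p - 2 - 2 * α := by
    have := mul_le_mul_of_nonneg_left h2 hi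
    nlinarith
  refine ⟨α, 0, α * (-y), p - 2 - 2 * α, 0, p - 1, hi, le_refl _, by linarith, mul_nonneg hi h3,
    le_trans (mul_nonneg hi h3) h4, h4, le_refl _, ?_, ?_, dvd_zero _, ?_⟩
  · push_cast
    ring
  · push_cast
    linear_combination he
  · have e : (p : ℤ) - 1 + 1 = p := by ring
    rw [e]

/-- The case `y ≤ -1`. -/
theorem cas_neg (p : ℕ) (C y z : ℤ) (hp : 13 ≤ p) (hC : 13 ≤ |C|) (hy : y ≤ -1) :
    cas_G p C y z := by
  have hp' : (13 : ℝ) ≤ p := by exact_mod_cast hp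
  have hy' : (y : ℝ) ≤ -1 := by exact_mod_cast hy
  have hw : (0 : ℝ) ≤ -y := by linarith
  rcases le_total 0 C with h0 | h0
  · rw [abs_of_nonneg h0] at hC
    have hC' : (13 : ℝ) ≤ C := by exact_mod_cast hC
    have hCw : 13 * (-y : ℝ) ≤ C * (-y) := mul_le_mul_of_nonneg_right hC' hw
    by_cases hz : 0 ≤ z
    · have hz' : (0 : ℝ) ≤ z := by exact_mod_cast hz
      have hE : 9 / 2 * (-y : ℝ) ≤ z + C * (-y) / 2 - 2 := by linarith
      refine cas_A p C y z (by linarith) (by linarith) ?_ hw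
      nlinarith
    · have hz1 : z ≤ -1 := by omega
      have hz' : (z : ℝ) ≤ -1 := by exact_mod_cast hz1
      by_cases hb : (-y + 2 : ℝ) ≤ (p - 2) * (-z)
      · exact cas_B p C y z (by linarith) hb hw
      · push Not at hb
        have h11 : 11 * (-z : ℝ) ≤ (p - 2) * (-z) :=
          mul_le_mul_of_nonneg_right (by linarith) (by linarith)
        have hE : 9 / 2 * (-y : ℝ) ≤ z + C * (-y) / 2 - 2 := by linarith
        refine cas_A p C y z (by linarith) (by linarith) ?_ hw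
        nlinarith
  · rw [abs_of_nonpos h0] at hC
    have hC' : (13 : ℝ) ≤ -C := by exact_mod_cast hC
    have hCw : 13 * (-y : ℝ) ≤ -C * (-y) := mul_le_mul_of_nonneg_right hC' hw
    by_cases hz : z ≤ 2
    · have hz' : (z : ℝ) ≤ 2 := by exact_mod_cast hz
      have hE : 9 / 2 * (-y : ℝ) ≤ -(z + C * (-y) / 2) := by linarith
      refine cas_A' p C y z (by linarith) (by linarith) ?_ hw
      nlinarith
    · have hz1 : 3 ≤ z := by omega
      have hz' : (3 : ℝ) ≤ z := by exact_mod_cast hz1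
      by_cases hb : (-y + 2 : ℝ) ≤ (p - 2) * (z - 2)
      · exact cas_B' p C y z (by linarith) hb hw
      · push Not at hb
        have h11 : 11 * (z - 2 : ℝ) ≤ (p - 2) * (z - 2) :=
          mul_le_mul_of_nonneg_right (by linarith) (by linarith)
        have hE : 9 / 2 * (-y : ℝ) ≤ -(z + C * (-y) / 2) := by linarith
        refine cas_A' p C y z (by linarith) (by linarith) ?_ hw
        nlinarith

/-- The case `y = 0`, `z ≤ -1` or `3 ≤ z`. -/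
theorem cas_zero (p : ℕ) (C y z : ℤ) (hp : 13 ≤ p) (hy : y = 0) (hz : z ≤ -1 ∨ 3 ≤ z) :
    cas_G p C y z := by
  have hp' : (13 : ℝ) ≤ p := by exact_mod_cast hp
  subst hy
  rcases hz with hz | hz
  · have hz' : (z : ℝ) ≤ -1 := by exact_mod_cast hz
    refine cas_B p C 0 z (by linarith) ?_ (by simp)
    push_cast
    nlinarith
  · have hz' : (3 : ℝ) ≤ z := by exact_mod_cast hz
    refine cas_B' p C 0 z (by linarith) ?_ (by simp)
    push_cast
    nlinarith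

theorem cas_abs (p : ℕ) (C : ℤ) (hp : 13 ≤ p) (h0 : C ≠ 0) (hC : (p : ℤ) ∣ C) : 13 ≤ |C| := by
  have h1 : (p : ℤ) ∣ |C| := (dvd_abs _ _).mpr hC
  have h2 : 0 < |C| := abs_pos.mpr h0
  have h3 := Int.le_of_dvd h2 h1
  omega

/-- [cas] -/
theorem pI_cas : SI_cas := by
  intro p C y z hp h0 hC
  have hA := cas_abs p C hp h0 hC
  change cas_G p C y z
  rcases lt_trichotomy y 0 with hy | hy | hy
  · exact cas_neg p C y z hp hA (by omega)
  · by_cases hz : z ≤ -1 ∨ 3 ≤ z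
    · exact cas_zero p C y z hp hy hz
    · apply cas_symm p C y z hC
      apply cas_zero p (-C) (-y) (z + C) hp (by omega)
      rcases abs_cases C with h | h <;> omega
  · apply cas_symm p C y z hC
    exact cas_neg p (-C) (-y) (z + C) hp (by rw [abs_neg]; exact hA) (by omega)

end Pool.Agent.Lib.MP_0bc52e_nt.LC
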