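import Pool.Agent.Lib.MP_0bc52e_nt.T.StmI3

/-!
# MP_0bc52e_nt, conjecture (T), part I: piece [cavd]
-/

namespace Pool.Agent.Lib.MP_0bc52e_nt.LC

theorem pI_cavd : SI_cavd := by
  intro P p a b c hP hC m n h0 hp hn Y Z hY hZ hpt
  obtain ⟨α, hα, β, hβ, h1, h2⟩ := hpt
  have hh : (0 : ℝ) < (m : ℝ) + n := by exact_mod_cast h0
  have hα' : ((0 : ℝ), α.1, α.2) ∈ P := hα
  have hβ' : ((1 : ℝ), β.1, β.2) ∈ P := hβ
  have hmem := hP hα' hβ' (a := (m : ℝ) / (m + n)) (b := (n : ℝ) / (m + n)) (by positivity)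
    (by positivity) (by rw [← add_div, div_self hh.ne'])
  have heq : ((m : ℝ) / (m + n)) • ((0 : ℝ), α.1, α.2) + ((n : ℝ) / (m + n)) • ((1 : ℝ), β.1, β.2) =
      ((n : ℝ) / (m + n), (Y : ℝ) / (m + n), (Z : ℝ) / (m + n)) := by
    refine Prod.ext ?_ (Prod.ext ?_ ?_)
    · simp
    · simp only [Prod.smul_mk, Prod.mk_add_mk, smul_eq_mul]
      rw [h1]
      field_simp
    · simp only [Prod.smul_mk, Prod.mk_add_mk, smul_eq_mul]
      rw [h2]
      field_simp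
  rw [heq] at hmem
  have hne : ((m : ℝ) + n) ≠ 0 := hh.ne'
  refine hC (m + n) h0 hp n Y Z _ _ _ hmem ?_ ?_ ?_ ?_ ?_ ?_
  · push_cast
    field_simp
  · push_cast
    field_simp
  · push_cast
    field_simp
  · push_cast
    exact hn
  · push_cast
    exact hY
  · push_cast
    exact hZ

end Pool.Agent.Lib.MP_0bc52e_nt.LC
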