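import Pool.Agent.Lib.MP_0bc52e_nt.T.StmI1

namespace Pool.Agent.Lib.MP_0bc52e_nt.LC

/-- [colm] One column. -/
theorem pI_colm (h1 : S_res) (h2 : SI_ptconv) : SI_colm := by
  intro A B p m n y z X lo hi hA hB hp hav hX hlo hhi h
  have key : ∃ r : ℤ, (p : ℤ) ∣ r - z ∧ lo ≤ (r : ℝ) ∧ (r : ℝ) ≤ hi := by
    rcases h with h | ⟨H, rfl, h⟩ | ⟨L, rfl, h⟩
    · obtain ⟨r, hr, h3, h4⟩ := h1 p hp z lo
      exact ⟨r, hr, h3, by linarith⟩
    · obtain ⟨r, hr, h3, h4⟩ := h1 p hp z ((H : ℝ) - p + 1)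
      refine ⟨r, hr, by linarith, ?_⟩
      have h5 : r < H + 1 := by
        have : (r : ℝ) < (H : ℝ) + 1 := by linarith
        exact_mod_cast this
      exact_mod_cast (by omega : r ≤ H)
    · obtain ⟨r, hr, h3, h4⟩ := h1 p hp z (L : ℝ)
      refine ⟨r, hr, h3, ?_⟩
      have h5 : r < L + p := by exact_mod_cast h4
      have h6 : (r : ℝ) ≤ (L : ℝ) + p - 1 := by exact_mod_cast (by omega : r ≤ L + p - 1)
      linarith
  obtain ⟨r, hr, h3, h4⟩ := key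
  exact hav X r hX hr (h2 A B m n X lo hi r hA hB hlo hhi h3 h4)

end Pool.Agent.Lib.MP_0bc52e_nt.LC
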