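import Pool.Agent.Lib.MP_0bc52e_nt.T.StmI1

namespace Pool.Agent.Lib.MP_0bc52e_nt.LC

/-- [colm2] -/
theorem pI_colm2 (h1 : S_res) (h2 : SI_ptconv) : SI_colm2 := by
  intro A B p m n y z X X' H H' lo lo' hA hB hp hav hX hX' p1 p2 p3 p4 hlo hH
  obtain ⟨Z, hZ, hZ1, hZ2⟩ := h1 p hp z ((H' : ℝ) - p + 1)
  -- `Z ≤ H'` since `Z < H' + 1`
  have hZ3 : Z ≤ H' := by
    have h : (Z : ℝ) < ((H' + 1 : ℤ) : ℝ) := by push_cast; linarith
    have := Int.cast_lt.1 h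
    omega
  have hZ3' : (Z : ℝ) ≤ H' := by exact_mod_cast hZ3
  have hlo' : lo ≤ (Z : ℝ) := by linarith
  rcases le_or_gt Z H with hc | hc
  · have hc' : (Z : ℝ) ≤ H := by exact_mod_cast hc
    exact hav X Z hX hZ (h2 A B m n X lo H Z hA hB p1 p2 hlo' hc')
  · have hc' : (H : ℝ) + 1 ≤ Z := by exact_mod_cast hc
    exact hav X' Z hX' hZ (h2 A B m n X' lo' H' Z hA hB p3 p4 (by linarith) hZ3')

end Pool.Agent.Lib.MP_0bc52e_nt.LC
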