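import Pool.Agent.Lib.MP_0bc52e_nt.T.StmI3

/-!
# MP_0bc52e_nt, part I: piece cone
-/

set_option autoImplicit false

namespace Pool.Agent.Lib.MP_0bc52e_nt.LC

/-- the corner `(1, 1)` -/
private theorem cone_core (F : Set (ℝ × ℝ)) (μ ν : ℝ) (hF : Convex ℝ F) (h1 : ((1 : ℝ), (0 : ℝ)) ∈ F)
    (h2 : ((0 : ℝ), (1 : ℝ)) ∈ F) (h3 : (μ, ν) ∈ F) (hμ : 1 < μ) (hν : 1 < ν) :
    ∃ ε : ℝ, 0 < ε ∧ ∀ y z : ℝ, |y - 1| ≤ ε → |z - 1| ≤ ε → (y, z) ∈ F := by
  have hD : 0 < μ + ν - 1 := by linarith
  refine ⟨min (1 / 2) (min ((ν - 1) / (μ + ν - 1)) ((μ - 1) / (μ + ν - 1))), ?_, ?_⟩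
  · refine lt_min (by norm_num) (lt_min (div_pos (by linarith) hD) (div_pos (by linarith) hD))
  · intro y z hy hz
    have hy1 := hy.trans (min_le_left _ _)
    have hz1 := hz.trans (min_le_left _ _)
    have hy2 := hy.trans ((min_le_right _ _).trans (min_le_left _ _))
    have hz2 := hz.trans ((min_le_right _ _).trans (min_le_left _ _))
    have hy3 := hy.trans ((min_le_right _ _).trans (min_le_right _ _))
    have hz3 := hz.trans ((min_le_right _ _).trans (min_le_right _ _))
    rw [abs_le] at hy1 hz1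
    rw [le_div_iff₀ hD] at hy2 hz2 hy3 hz3
    have a1 : |y - 1| * (μ + ν - 1) ≥ -(y - 1) * (μ + ν - 1) :=
      mul_le_mul_of_nonneg_right (neg_le_abs _) hD.le
    have a2 : |z - 1| * (μ + ν - 1) ≥ (z - 1) * (μ + ν - 1) :=
      mul_le_mul_of_nonneg_right (le_abs_self _) hD.le
    have a3 : |y - 1| * (μ + ν - 1) ≥ (y - 1) * (μ + ν - 1) :=
      mul_le_mul_of_nonneg_right (le_abs_self _) hD.le
    have a4 : |z - 1| * (μ + ν - 1) ≥ -(z - 1) * (μ + ν - 1) :=
      mul_le_mul_of_nonneg_right (neg_le_abs _) hD.le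
    obtain ⟨w, hw⟩ : ∃ w : ℝ, w = (y + z - 1) / (μ + ν - 1) := ⟨_, rfl⟩
    have hw' : w * (μ + ν - 1) = y + z - 1 := by
      rw [hw]
      field_simp
    have hw0 : 0 ≤ w := by
      rw [hw]
      exact div_nonneg (by linarith [hy1.1, hz1.1]) hD.le
    have hw1 : 0 ≤ y - w * μ := by
      have : 0 ≤ (y - w * μ) * (μ + ν - 1) := by
        have e : (y - w * μ) * (μ + ν - 1) = y * (μ + ν - 1) - μ * (w * (μ + ν - 1)) := by ring
        rw [e, hw']
        have b1 : (y - 1) * (μ + ν - 1) ≥ -(ν - 1) := by linarith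
        have b2 : (z - 1) * (μ + ν - 1) ≤ (ν - 1) := by linarith
        -- y (ν - 1) ≥ μ (z - 1)
        have c1 : (y * (ν - 1) - μ * (z - 1)) * (μ + ν - 1) ≥ 0 := by
          have d1 : (ν - 1) * ((y - 1) * (μ + ν - 1)) ≥ (ν - 1) * (-(ν - 1)) :=
            mul_le_mul_of_nonneg_left b1 (by linarith)
          have d2 : μ * ((z - 1) * (μ + ν - 1)) ≤ μ * (ν - 1) :=
            mul_le_mul_of_nonneg_left b2 (by linarith)
          nlinarith [d1, d2]
        have c2 : 0 ≤ y * (ν - 1) - μ * (z - 1) := by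
          by_contra hneg
          push Not at hneg
          have := mul_neg_of_neg_of_pos hneg hD
          linarith
        nlinarith [c2]
      by_contra hneg
      push Not at hneg
      have := mul_neg_of_neg_of_pos hneg hD
      linarith
    have hw2 : 0 ≤ z - w * ν := by
      have : 0 ≤ (z - w * ν) * (μ + ν - 1) := by
        have e : (z - w * ν) * (μ + ν - 1) = z * (μ + ν - 1) - ν * (w * (μ + ν - 1)) := by ring
        rw [e, hw']
        have b1 : (z - 1) * (μ + ν - 1) ≥ -(μ - 1) := by linarith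
        have b2 : (y - 1) * (μ + ν - 1) ≤ (μ - 1) := by linarith
        have c1 : (z * (μ - 1) - ν * (y - 1)) * (μ + ν - 1) ≥ 0 := by
          have d1 : (μ - 1) * ((z - 1) * (μ + ν - 1)) ≥ (μ - 1) * (-(μ - 1)) :=
            mul_le_mul_of_nonneg_left b1 (by linarith)
          have d2 : ν * ((y - 1) * (μ + ν - 1)) ≤ ν * (μ - 1) :=
            mul_le_mul_of_nonneg_left b2 (by linarith)
          nlinarith [d1, d2]
        have c2 : 0 ≤ z * (μ - 1) - ν * (y - 1) := by
          by_contra hneg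
          push Not at hneg
          have := mul_neg_of_neg_of_pos hneg hD
          linarith
        nlinarith [c2]
      by_contra hneg
      push Not at hneg
      have := mul_neg_of_neg_of_pos hneg hD
      linarith
    have hsum : (y - w * μ) + (z - w * ν) + w = 1 := by linarith
    have hmem := hF.sum_mem (t := Finset.univ) (w := ![y - w * μ, z - w * ν, w])
      (z := ![((1 : ℝ), (0 : ℝ)), ((0 : ℝ), (1 : ℝ)), (μ, ν)])
      (by intro i _; fin_cases i <;> simp [hw1, hw2, hw0])
      (by simp [Fin.sum_univ_three, hsum])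
      (by intro i _; fin_cases i <;> simp [h1, h2, h3])
    rw [Fin.sum_univ_three] at hmem
    convert hmem using 1
    ext <;> simp

/-- [cone] -/
theorem pI_cone : SI_cone := by
  intro F μ ν hF hS hm hc
  obtain ⟨s1, s2, s3, s4⟩ := hS
  have c1 : Convex ℝ {v : ℝ × ℝ | (v.1, 1 - v.2) ∈ F} := by
    intro x hx y hy a b ha hb hab
    have := hF hx hy ha hb hab
    simp only [Set.mem_ofPred_eq]
    convert this using 1
    ext
    · simp
    · simp only [Prod.snd_add, Prod.smul_snd, smul_eq_mul]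
      linear_combination -hab
  have c2 : Convex ℝ {v : ℝ × ℝ | (1 - v.1, v.2) ∈ F} := by
    intro x hx y hy a b ha hb hab
    have := hF hx hy ha hb hab
    simp only [Set.mem_ofPred_eq]
    convert this using 1
    ext
    · simp only [Prod.fst_add, Prod.smul_fst, smul_eq_mul]
      linear_combination -hab
    · simp
  have c3 : Convex ℝ {v : ℝ × ℝ | (1 - v.1, 1 - v.2) ∈ F} := by
    intro x hx y hy a b ha hb hab
    have := hF hx hy ha hb hab
    simp only [Set.mem_ofPred_eq]
    convert this using 1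
    ext
    · simp only [Prod.fst_add, Prod.smul_fst, smul_eq_mul]
      linear_combination -hab
    · simp only [Prod.snd_add, Prod.smul_snd, smul_eq_mul]
      linear_combination -hab
  rcases hc with ⟨h1, h2⟩ | ⟨h1, h2⟩ | ⟨h1, h2⟩ | ⟨h1, h2⟩
  · obtain ⟨ε, hε, h⟩ := cone_core F μ ν hF s2 s3 hm h1 h2
    exact ⟨1, 1, ε, hε, fun y z hy hz => h y z (by simpa using hy) (by simpa using hz)⟩
  · obtain ⟨ε, hε, h⟩ := cone_core _ μ (1 - ν) c1 (by simpa using s4) (by simpa using s1) (by simpa using hm) h1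
      (by linarith)
    refine ⟨1, 0, ε, hε, fun y z hy hz => ?_⟩
    have := h y (1 - z) (by simpa using hy) (by
      rw [show 1 - z - 1 = -(z - ((0 : ℤ) : ℝ)) by push_cast; ring, abs_neg]; exact hz)
    simpa using this
  · obtain ⟨ε, hε, h⟩ := cone_core _ (1 - μ) ν c2 (by simpa using s1) (by simpa using s4) (by simpa using hm)
      (by linarith) h2
    refine ⟨0, 1, ε, hε, fun y z hy hz => ?_⟩
    have := h (1 - y) z (by
      rw [show 1 - y - 1 = -(y - ((0 : ℤ) : ℝ)) by push_cast; ring, abs_neg]; exact hy) (by simpa using hz)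
    simpa using this
  · obtain ⟨ε, hε, h⟩ := cone_core _ (1 - μ) (1 - ν) c3 (by simpa using s3) (by simpa using s2) (by simpa using hm)
      (by linarith) (by linarith)
    refine ⟨0, 0, ε, hε, fun y z hy hz => ?_⟩
    have := h (1 - y) (1 - z) (by
      rw [show 1 - y - 1 = -(y - ((0 : ℤ) : ℝ)) by push_cast; ring, abs_neg]; exact hy) (by
      rw [show 1 - z - 1 = -(z - ((0 : ℤ) : ℝ)) by push_cast; ring, abs_neg]; exact hz)
    simpa using this

end Pool.Agent.Lib.MP_0bc52e_nt.LC
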