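import Pool.Agent.Lib.MP_0bc52e_nt.T.StmI3

/-!
# Piece `cres` (conjecture (T), part I): residues and subsets
-/

set_option autoImplicit false

namespace Pool.Agent.Lib.MP_0bc52e_nt.LC

theorem pI_cres : SI_cres := by
  intro P P' p a b c a' b' c' hPP ha hb hc hC h h0 hp x y z u v w hq hx hy hz hdx hdy hdz
  refine hC h h0 hp x y z u v w (hPP hq) hx hy hz ?_ ?_ ?_
  · have : x - h * a = (x - h * a') + h * (a' - a) := by ring
    rw [this]
    exact dvd_add hdx (ha.mul_left _)
  · have : y - h * b = (y - h * b') + h * (b' - b) := by ring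
    rw [this]
    exact dvd_add hdy (hb.mul_left _)
  · have : z - h * c = (z - h * c') + h * (c' - c) := by ring
    rw [this]
    exact dvd_add hdz (hc.mul_left _)

end Pool.Agent.Lib.MP_0bc52e_nt.LC
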