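import Pool.Agent.Lib.MP_0bc52e_nt.T.StmI3

set_option autoImplicit false

namespace Pool.Agent.Lib.MP_0bc52e_nt.LC

private theorem cross_core (μ ν D D' : ℝ) (hD : 7 / 2 ≤ D) (hD' : 3 ≤ D') (hDD : D' ≤ D) :
    ∃ t : ℝ, 0 ≤ t ∧ t ≤ 1 ∧
      ((1 < μ + t * D ∧ 1 < ν - t * D') ∨ (1 < μ + t * D ∧ ν - t * D' < 0) ∨
        (μ + t * D < 0 ∧ 1 < ν - t * D') ∨ (μ + t * D < 0 ∧ ν - t * D' < 0)) := by
  have hD0 : 0 < D := by linarith
  by_cases h0 : μ < 0
  · by_cases h1 : 1 < ν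
    · exact ⟨0, le_rfl, zero_le_one, Or.inr (Or.inr (Or.inl ⟨by linarith, by linarith⟩))⟩
    · by_cases h2 : ν < 0
      · exact ⟨0, le_rfl, zero_le_one, Or.inr (Or.inr (Or.inr ⟨by linarith, by linarith⟩))⟩
      · by_cases h3 : 1 < μ + D
        · exact ⟨1, zero_le_one, le_rfl, Or.inr (Or.inl ⟨by linarith, by linarith⟩)⟩
        · exact ⟨1 / 2, by norm_num, by norm_num,
            Or.inr (Or.inr (Or.inr ⟨by linarith, by linarith⟩))⟩
  · by_cases h1 : 1 < μ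
    · by_cases h2 : 1 < ν
      · exact ⟨0, le_rfl, zero_le_one, Or.inl ⟨by linarith, by linarith⟩⟩
      · exact ⟨1, zero_le_one, le_rfl, Or.inr (Or.inl ⟨by linarith, by linarith⟩)⟩
    · by_cases h2 : 1 < ν - D'
      · exact ⟨1, zero_le_one, le_rfl, Or.inl ⟨by linarith, by linarith⟩⟩
      · by_cases h3 : ν - D' < 0
        · exact ⟨1, zero_le_one, le_rfl, Or.inr (Or.inl ⟨by linarith, by linarith⟩)⟩
        · have ht0 : 0 ≤ (3 / 2 - μ) / D := div_nonneg (by linarith) hD0.le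
          refine ⟨(3 / 2 - μ) / D, ht0, ?_, Or.inl ⟨?_, ?_⟩⟩
          · rw [div_le_one hD0]
            linarith
          · rw [div_mul_cancel₀ _ hD0.ne']
            linarith
          · have h4 : (3 / 2 - μ) / D * D' ≤ (3 / 2 - μ) / D * D :=
              mul_le_mul_of_nonneg_left hDD ht0
            rw [div_mul_cancel₀ _ hD0.ne'] at h4
            linarith

theorem pI_cross : SI_cross := by
  intro μ ν lam s hl hl1 hs
  rcases hs with hs | hs
  · refine cross_core μ ν (lam * (s + 1)) (lam * s) ?_ ?_ ?_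
    · nlinarith
    · nlinarith
    · nlinarith
  · obtain ⟨t, ht0, ht1, h⟩ := cross_core ν μ (lam * (-s)) (lam * (-s - 1)) (by nlinarith)
      (by nlinarith) (by nlinarith)
    have e1 : ν + t * (lam * (-s)) = ν - t * (lam * s) := by ring
    have e2 : μ - t * (lam * (-s - 1)) = μ + t * (lam * (s + 1)) := by ring
    rw [e1, e2] at h
    refine ⟨t, ht0, ht1, ?_⟩
    rcases h with h | h | h | h
    · exact Or.inl ⟨h.2, h.1⟩
    · exact Or.inr (Or.inr (Or.inl ⟨h.2, h.1⟩))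
    · exact Or.inr (Or.inl ⟨h.2, h.1⟩)
    · exact Or.inr (Or.inr (Or.inr ⟨h.2, h.1⟩))

end Pool.Agent.Lib.MP_0bc52e_nt.LC
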