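import Pool.Agent.Lib.MP_0bc52e_nt.T.StmI1

set_option autoImplicit false

namespace Pool.Agent.Lib.MP_0bc52e_nt.LC

private theorem diff3_abs {t : ℤ} (h : ¬ 3 ≤ |t|) : -2 ≤ t ∧ t ≤ 2 := by
  have h1 : |t| < 3 := not_le.mp h
  have h2 := abs_lt.mp h1
  omega

private theorem diff3_pair {B : Set (ℝ × ℝ)}
    (hc : ¬ ∃ x y s t : ℤ, ip2 (x, y) ∈ B ∧ ip2 (x + s, y + t) ∈ B ∧
      (3 ≤ |s + t| ∨ 3 ≤ |-2 * s + t| ∨ 3 ≤ |s - 2 * t|))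
    {x y x' y' : ℤ} (h : ip2 (x, y) ∈ B) (h' : ip2 (x', y') ∈ B) :
    -1 ≤ x' - x ∧ x' - x ≤ 1 ∧ -1 ≤ y' - y ∧ y' - y ≤ 1 ∧
      -1 ≤ (x' - x) - (y' - y) ∧ (x' - x) - (y' - y) ≤ 1 := by
  have h1 : ¬ (3 ≤ |(x' - x) + (y' - y)| ∨ 3 ≤ |-2 * (x' - x) + (y' - y)| ∨
      3 ≤ |(x' - x) - 2 * (y' - y)|) := by
    intro hh
    refine hc ⟨x, y, x' - x, y' - y, h, ?_, hh⟩
    have e1 : x + (x' - x) = x' := by ring
    have e2 : y + (y' - y) = y' := by ring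
    rw [e1, e2]
    exact h'
  rw [not_or, not_or] at h1
  have a1 := diff3_abs h1.1
  have a2 := diff3_abs h1.2.1
  have a3 := diff3_abs h1.2.2
  omega

theorem pI_diff3 : SI_diff3 := by
  intro B hB
  by_contra hc
  obtain ⟨x0, y0, h0, p0, q0⟩ := hB 0 0
  obtain ⟨x1, y1, h1, p1, q1⟩ := hB 1 0
  obtain ⟨x2, y2, h2, p2, q2⟩ := hB 0 1
  obtain ⟨x3, y3, h3, p3, q3⟩ := hB 1 1
  have d01 := diff3_pair hc h0 h1
  have d02 := diff3_pair hc h0 h2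
  have d03 := diff3_pair hc h0 h3
  have d12 := diff3_pair hc h1 h2
  have d13 := diff3_pair hc h1 h3
  have d23 := diff3_pair hc h2 h3
  obtain ⟨a0, ha0⟩ := p0
  obtain ⟨c0, hc0⟩ := q0
  obtain ⟨a1, ha1⟩ := p1
  obtain ⟨c1, hc1⟩ := q1
  obtain ⟨a2, ha2⟩ := p2
  obtain ⟨c2, hc2⟩ := q2
  obtain ⟨a3, ha3⟩ := p3
  obtain ⟨c3, hc3⟩ := q3
  have e1 : y1 - y0 = 0 := by omega
  have e2 : x2 - x0 = 0 := by omega
  have e3 : x1 - x3 = 0 := by omega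
  have e4 : y2 - y3 = 0 := by omega
  have e5 : x1 - x0 = 1 ∨ x1 - x0 = -1 := by omega
  have e6 : y2 - y0 = 1 ∨ y2 - y0 = -1 := by omega
  rcases e5 with e5 | e5 <;> rcases e6 with e6 | e6 <;> omega

end Pool.Agent.Lib.MP_0bc52e_nt.LC
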