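import Pool.Agent.Lib.MP_0bc52e_nt.T.StmI1

/-!
# MP_0bc52e_nt, part I: piece exit
-/

set_option autoImplicit false

namespace Pool.Agent.Lib.MP_0bc52e_nt.LC

theorem pI_exit : SI_exit := by
  intro p m x₀ y₀ x₁ y₁ hp hmp h23 hFR h1 h3 h2
  by_contra hcon
  set X : ℝ → ℝ := fun s => (1 - s) * x₀ + s * x₁ with hX
  set Y : ℝ → ℝ := fun s => (1 - s) * y₀ + s * y₁ with hY
  set f : ℝ → ℝ := fun s => min (X s + Y s - m) (min (X s - 2 * Y s - (m - p))
    (-2 * X s + Y s - (m - 2 * p))) with hf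
  have hcont : ContinuousOn f (Set.Icc 0 1) := by
    apply Continuous.continuousOn
    simp only [hf, hX, hY]
    fun_prop
  have hf0 : 0 ≤ f 0 := by
    simp only [hf, hX, hY]
    refine le_min ?_ (le_min ?_ ?_) <;> linarith
  have hf1 : f 1 ≤ 0 := by
    by_contra hc
    push Not at hc
    apply hcon
    simp only [hf, hX, hY] at hc
    have ha := lt_of_lt_of_le hc (min_le_left _ _)
    have hb := lt_of_lt_of_le hc (le_trans (min_le_right _ _) (min_le_left _ _))
    have hd := lt_of_lt_of_le hc (le_trans (min_le_right _ _) (min_le_right _ _))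
    refine ⟨?_, ?_, ?_⟩ <;> linarith
  obtain ⟨s, ⟨hs0, hs1⟩, hs⟩ := intermediate_value_Icc' (by norm_num : (0 : ℝ) ≤ 1) hcont
    ⟨hf1, hf0⟩
  have hfr := hFR s hs0 hs1
  change FR p m (X s) (Y s) at hfr
  have ha : 0 ≤ X s + Y s - m := by
    have := min_le_left (X s + Y s - m) (min (X s - 2 * Y s - (m - p))
      (-2 * X s + Y s - (m - 2 * p)))
    simp only [hf] at hs
    linarith
  have hbd : 0 ≤ min (X s - 2 * Y s - (m - p)) (-2 * X s + Y s - (m - 2 * p)) := by
    have := min_le_right (X s + Y s - m) (min (X s - 2 * Y s - (m - p))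
      (-2 * X s + Y s - (m - 2 * p)))
    simp only [hf] at hs
    linarith
  have hb : 0 ≤ X s - 2 * Y s - (m - p) := le_trans hbd (min_le_left _ _)
  have hd : 0 ≤ -2 * X s + Y s - (m - 2 * p) := le_trans hbd (min_le_right _ _)
  have hcase : X s + Y s - m = 0 ∨ X s - 2 * Y s - (m - p) = 0 ∨
      -2 * X s + Y s - (m - 2 * p) = 0 := by
    simp only [hf] at hs
    rcases min_choice (X s + Y s - m) (min (X s - 2 * Y s - (m - p))
      (-2 * X s + Y s - (m - 2 * p))) with h | h
    · left; linarith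
    · right
      rcases min_choice (X s - 2 * Y s - (m - p)) (-2 * X s + Y s - (m - 2 * p)) with h' | h'
      · left; linarith
      · right; linarith
  rcases hcase with h | h | h
  · refine hfr 0 0 ⟨?_, ?_, ?_⟩ <;> push_cast <;> linarith
  · refine hfr 1 1 ⟨?_, ?_, ?_⟩ <;> push_cast <;> linarith
  · refine hfr 1 0 ⟨?_, ?_, ?_⟩ <;> push_cast <;> linarith

end Pool.Agent.Lib.MP_0bc52e_nt.LC
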