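import Pool.Agent.Lib.MP_0bc52e_nt.T.StmI3

set_option autoImplicit false

namespace Pool.Agent.Lib.MP_0bc52e_nt.LC

theorem flm_aff : IsAff3 fl := by
  refine ⟨-1, 0, 0, 1, 0, 1, 0, 0, 0, 0, 1, 0, fun v => ?_⟩
  simp only [fl, Prod.mk.injEq]
  push_cast
  refine ⟨by ring, by ring, by ring⟩

theorem flm_inv (v : ℝ × ℝ × ℝ) : fl (fl v) = v := by
  obtain ⟨x, y, z⟩ := v
  simp only [fl, Prod.mk.injEq, and_true]
  ring

theorem flm_mem (P : Set (ℝ × ℝ × ℝ)) (v : ℝ × ℝ × ℝ) : v ∈ fl '' P ↔ fl v ∈ P := by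
  constructor
  · rintro ⟨w, hw, rfl⟩
    rwa [flm_inv]
  · intro h
    exact ⟨fl v, h, flm_inv v⟩

theorem pI_flm : SI_flm := by
  refine ⟨⟨flm_aff, fl, flm_aff, flm_inv, flm_inv⟩, fun P => ⟨?_, ?_⟩⟩
  · ext v
    simp only [slice, Set.mem_setOf_eq, flm_mem]
    simp [fl]
  · ext v
    simp only [slice, Set.mem_setOf_eq, flm_mem]
    simp [fl]

end Pool.Agent.Lib.MP_0bc52e_nt.LC
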