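import Pool.Agent.Lib.MP_0bc52e_nt.T.StmI1

/-!
# [TI fra] (MP_0bc52e_nt, width one): the targets minus `n B` are free
-/

namespace Pool.Agent.Lib.MP_0bc52e_nt.LC

theorem pI_fra (h1 : SI_wpt) : SI_fra := by
  intro A B p m n y z hA hW hm hav b hb i j h
  obtain ⟨g1, g2, g3⟩ := h
  obtain ⟨a, haA, ha1, ha2⟩ := h1 A (m : ℝ) ((y : ℝ) - n * b.1 - i * p) ((z : ℝ) - n * b.2 - j * p)
    hA hW (by exact_mod_cast hm) g1 g2 g3
  refine hav (y - i * p) (z - j * p) ⟨-i, by ring⟩ ⟨-j, by ring⟩ ⟨a, haA, b, hb, ?_, ?_⟩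
  · push_cast
    linarith
  · push_cast
    linarith

end Pool.Agent.Lib.MP_0bc52e_nt.LC
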