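import Pool.Agent.Lib.MP_0bc52e_nt.T.StmI1

/-!
# Polytopes of width one, piece frsym (MP_0bc52e_nt)
-/

namespace Pool.Agent.Lib.MP_0bc52e_nt.LC

private theorem frsym_t {p m x y : ℝ} (k l : ℤ) (h : FR p m x y) :
    FR p m (x - k * p) (y - l * p) := by
  intro i j hij
  apply h (i + k) (j + l)
  push_cast
  refine ⟨?_, ?_, ?_⟩
  · linarith [hij.1]
  · linarith [hij.2.1]
  · linarith [hij.2.2]

private theorem frsym_s {p m x y : ℝ} (h : FR p m x y) : FR p m y x := by
  intro i j hij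
  apply h j i
  refine ⟨?_, ?_, ?_⟩
  · linarith [hij.1]
  · linarith [hij.2.2]
  · linarith [hij.2.1]

private theorem frsym_r {p m x y : ℝ} (h : FR p m x y) : FR p m (-x) (y - x) := by
  intro i j hij
  apply h (-i) (j - i)
  push_cast
  refine ⟨?_, ?_, ?_⟩
  · linarith [hij.2.1]
  · linarith [hij.1]
  · linarith [hij.2.2]

theorem pI_frsym : SI_frsym := by
  intro p m x y
  refine ⟨fun k l => ⟨frsym_t k l, fun h => ?_⟩, ⟨frsym_s, frsym_s⟩, ⟨frsym_r, fun h => ?_⟩⟩
  · have h2 := frsym_t (-k) (-l) h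
    have e1 : x - k * p - ((-k : ℤ) : ℝ) * p = x := by push_cast; ring
    have e2 : y - l * p - ((-l : ℤ) : ℝ) * p = y := by push_cast; ring
    rwa [e1, e2] at h2
  · have h2 := frsym_r h
    have e1 : - -x = x := neg_neg x
    have e2 : y - x - -x = y := by ring
    rwa [e1, e2] at h2

end Pool.Agent.Lib.MP_0bc52e_nt.LC
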