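import Pool.Agent.Lib.MP_0bc52e_nt.T.StmI3

/-!
# MP_0bc52e_nt, part I: piece [TI hit]
-/

set_option autoImplicit false

open scoped Pointwise

namespace Pool.Agent.Lib.MP_0bc52e_nt.LC

private theorem hit_weights (B s₁ s₂ : ℝ) (h1 : 0 ≤ s₁) (h2 : 0 ≤ s₂) (h3 : s₁ ≤ B)
    (h4 : s₂ ≤ B) : ∃ w00 w10 w01 w11 : ℝ, 0 ≤ w00 ∧ 0 ≤ w10 ∧ 0 ≤ w01 ∧ 0 ≤ w11 ∧
      w00 + w10 + w01 + w11 = B ∧ w10 + w11 = s₁ ∧ w01 + w11 = s₂ := by
  rcases le_total (s₁ + s₂) B with h | h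
  · exact ⟨B - s₁ - s₂, s₁, s₂, 0, by linarith, h1, h2, le_refl _, by ring, by ring, by ring⟩
  · exact ⟨0, B - s₂, B - s₁, s₁ + s₂ - B, le_refl _, by linarith, by linarith, by linarith,
      by ring, by ring, by ring⟩

theorem pI_hit : SI_hit := by
  intro P p a b c C y z Y Z α η s₁ s₂ hP hC hp ha hb hc hS hyz hα hη hη2 hs₁ hs₂ hs₁' hs₂' hY hZ
    hpY hpZ
  obtain ⟨q1, q2, q3, q4, q5, q6⟩ := hS
  obtain ⟨w00, w10, w01, w11, g1, g2, g3, g4, e1, e2, e3⟩ :=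
    hit_weights (p - 2 - 2 * α) s₁ s₂ hs₁ hs₂ hs₁' hs₂'
  have key : ∀ (t t' : ℝ) (v v' : ℝ × ℝ × ℝ), 0 ≤ t → 0 ≤ t' → v ∈ t • P → v' ∈ t' • P →
      v + v' ∈ (t + t') • P := by
    intro t t' v v' ht ht' hv hv'
    rw [hP.add_smul ht ht']
    exact Set.add_mem_add hv hv'
  have k1 := key α (1 + α - η / 2) _ _ hα (by linarith) (Set.smul_mem_smul_set hyz)
    (Set.smul_mem_smul_set q1)
  have k2 := key _ (η / 2) _ _ (by linarith) (by linarith) k1 (Set.smul_mem_smul_set q2)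
  have k3 := key _ w00 _ _ (by linarith) g1 k2 (Set.smul_mem_smul_set q3)
  have k4 := key _ w01 _ _ (by linarith) g3 k3 (Set.smul_mem_smul_set q4)
  have k5 := key _ w10 _ _ (by linarith) g2 k4 (Set.smul_mem_smul_set q5)
  have k6 := key _ w11 _ _ (by linarith) g4 k5 (Set.smul_mem_smul_set q6)
  obtain ⟨⟨u, v, w⟩, hq, hqe⟩ := k6
  have hp1 : ((p - 1 : ℕ) : ℝ) = (p : ℝ) - 1 := by
    rw [Nat.cast_sub (by omega)]
    simp
  have hp1' : ((p - 1 : ℕ) : ℤ) = (p : ℤ) - 1 := by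
    rw [Nat.cast_sub (by omega)]
    simp
  simp only [ip, Prod.smul_mk, Prod.mk_add_mk, smul_eq_mul, Prod.mk.injEq] at hqe
  obtain ⟨hq1, hq2, hq3⟩ := hqe
  push_cast at hq1 hq2 hq3
  have hs : α + (1 + α - η / 2) + η / 2 + w00 + w01 + w10 + w11 = (p : ℝ) - 1 := by linarith
  rw [hs] at hq1 hq2 hq3
  refine hC (p - 1) (by omega) (by omega) ((p : ℤ) - 2) Y Z u v w hq ?_ ?_ ?_ ?_ ?_ ?_
  · rw [hp1, hq1]
    push_cast
    linarith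
  · rw [hp1, hq2, ← hY]
    linarith
  · rw [hp1, hq3, ← hZ]
    linarith
  · rw [hp1']
    obtain ⟨k, hk⟩ := ha
    exact ⟨1 - a + k, by linear_combination hk⟩
  · rw [hp1']
    obtain ⟨k, hk⟩ := hb
    obtain ⟨l, hl⟩ := hpY
    exact ⟨l - (p - 1) * k, by rw [hk, hl]; ring⟩
  · rw [hp1']
    obtain ⟨k, hk⟩ := hc
    obtain ⟨l, hl⟩ := hpZ
    exact ⟨l + k - c, by linear_combination hk + hl⟩

end Pool.Agent.Lib.MP_0bc52e_nt.LC
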