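import Pool.Agent.Lib.MP_0bc52e_nt.T.StmI1

/-!
# MP_0bc52e_nt, conjecture (T), part I: piece hole
-/

namespace Pool.Agent.Lib.MP_0bc52e_nt.LC

private lemma hole_aux (p m X Y : ℤ) (hm : 0 < m) (hmp : m < p) (h : 2 * p ≤ 3 * m)
    (hX : 0 ≤ X) (hX' : X < p) (hY : 0 ≤ Y) (hY' : Y < p)
    (h1 : ¬ (X + Y ≤ m ∧ -2 * X + Y ≤ m ∧ X - 2 * Y ≤ m))
    (h2 : ¬ ((X - p) + (Y - p) ≤ m ∧ -2 * (X - p) + (Y - p) ≤ m ∧ (X - p) - 2 * (Y - p) ≤ m))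
    (h3 : ¬ ((X - p) + Y ≤ m ∧ -2 * (X - p) + Y ≤ m ∧ (X - p) - 2 * Y ≤ m))
    (h4 : ¬ (X + (Y - p) ≤ m ∧ -2 * X + (Y - p) ≤ m ∧ X - 2 * (Y - p) ≤ m)) :
    (m < X + Y ∧ m - p < X - 2 * Y ∧ m - 2 * p < -2 * X + Y) ∨
    (m < X + Y ∧ m - p < -2 * X + Y ∧ m - 2 * p < X - 2 * Y) := by
  omega

theorem pI_hole : SI_hole := by
  intro p m hm hmp h x y
  have hp : 0 < p := hm.trans hmp
  have ex : x - x / p * p = x % p := by
    have := Int.emod_add_mul_ediv x p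
    linarith [mul_comm p (x / p)]
  have ey : y - y / p * p = y % p := by
    have := Int.emod_add_mul_ediv y p
    linarith [mul_comm p (y / p)]
  have ex' : x - (x / p + 1) * p = x % p - p := by rw [add_mul, one_mul, ← ex]; ring
  have ey' : y - (y / p + 1) * p = y % p - p := by rw [add_mul, one_mul, ← ey]; ring
  have hX := Int.emod_nonneg x hp.ne'
  have hX' := Int.emod_lt_of_pos x hp
  have hY := Int.emod_nonneg y hp.ne'
  have hY' := Int.emod_lt_of_pos y hp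
  by_cases h1 : x % p + y % p ≤ m ∧ -2 * (x % p) + y % p ≤ m ∧ x % p - 2 * (y % p) ≤ m
  · refine ⟨x / p, y / p, Or.inl ?_⟩
    rw [ex, ey]
    exact h1
  by_cases h2 : (x % p - p) + (y % p - p) ≤ m ∧ -2 * (x % p - p) + (y % p - p) ≤ m ∧
      (x % p - p) - 2 * (y % p - p) ≤ m
  · refine ⟨x / p + 1, y / p + 1, Or.inl ?_⟩
    rw [ex', ey']
    exact h2
  by_cases h3 : (x % p - p) + y % p ≤ m ∧ -2 * (x % p - p) + y % p ≤ m ∧
      (x % p - p) - 2 * (y % p) ≤ m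
  · refine ⟨x / p + 1, y / p, Or.inl ?_⟩
    rw [ex', ey]
    exact h3
  by_cases h4 : x % p + (y % p - p) ≤ m ∧ -2 * (x % p) + (y % p - p) ≤ m ∧
      x % p - 2 * (y % p - p) ≤ m
  · refine ⟨x / p, y / p + 1, Or.inl ?_⟩
    rw [ex, ey']
    exact h4
  refine ⟨x / p, y / p, Or.inr ?_⟩
  rw [ex, ey]
  exact hole_aux p m _ _ hm hmp h hX hX' hY hY' h1 h2 h3 h4

end Pool.Agent.Lib.MP_0bc52e_nt.LC
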