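import Pool.Agent.Lib.MP_0bc52e_nt.T.StmI3

set_option autoImplicit false

namespace Pool.Agent.Lib.MP_0bc52e_nt.LC

open Filter Topology

private theorem int_key (P : Set (ℝ × ℝ × ℝ)) (y₀ z₀ ε : ℝ) (hP : Convex ℝ P) (hε : 0 < ε)
    (h : ∀ y z : ℝ, |y - y₀| ≤ ε → |z - z₀| ≤ ε → (0, y, z) ∈ P) (v : ℝ × ℝ × ℝ) (hv : v ∈ P)
    (hv1 : v.1 ≠ 0) : ∀ᶠ q in 𝓝 ((0, y₀, z₀) : ℝ × ℝ × ℝ), 0 ≤ q.1 / v.1 → q ∈ P := by
  have c1 : ContinuousAt (fun q : ℝ × ℝ × ℝ => q.1 / v.1) (0, y₀, z₀) := by fun_prop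
  have c2 : ContinuousAt (fun q : ℝ × ℝ × ℝ => (q.2.1 - q.1 / v.1 * v.2.1) / (1 - q.1 / v.1))
      (0, y₀, z₀) := ContinuousAt.div (by fun_prop) (by fun_prop) (by simp)
  have c3 : ContinuousAt (fun q : ℝ × ℝ × ℝ => (q.2.2 - q.1 / v.1 * v.2.2) / (1 - q.1 / v.1))
      (0, y₀, z₀) := ContinuousAt.div (by fun_prop) (by fun_prop) (by simp)
  have t1 := c1.tendsto
  have t2 := c2.tendsto
  have t3 := c3.tendsto
  simp only [zero_div, zero_mul, sub_zero, div_one] at t1 t2 t3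
  filter_upwards [t1.eventually (Iio_mem_nhds zero_lt_one),
    t2.eventually (Metric.closedBall_mem_nhds _ hε),
    t3.eventually (Metric.closedBall_mem_nhds _ hε)] with q h1 h2 h3 h0
  rw [Real.dist_eq] at h2 h3
  have h1' : q.1 / v.1 < 1 := h1
  have hne : 1 - q.1 / v.1 ≠ 0 := by linarith
  have hm := hP (h _ _ h2 h3) hv (show 0 ≤ 1 - q.1 / v.1 by linarith) h0 (by ring)
  have e : (1 - q.1 / v.1) • ((0 : ℝ), (q.2.1 - q.1 / v.1 * v.2.1) / (1 - q.1 / v.1),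
      (q.2.2 - q.1 / v.1 * v.2.2) / (1 - q.1 / v.1)) + (q.1 / v.1) • v = q := by
    ext
    · simp only [Prod.fst_add, Prod.smul_fst, smul_eq_mul, mul_zero, zero_add]
      rw [div_mul_cancel₀ _ hv1]
    · simp only [Prod.fst_add, Prod.snd_add, Prod.smul_fst, Prod.smul_snd, smul_eq_mul]
      rw [mul_div_cancel₀ _ hne]
      ring
    · simp only [Prod.snd_add, Prod.smul_snd, smul_eq_mul]
      rw [mul_div_cancel₀ _ hne]
      ring
  rwa [e] at hm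

theorem pI_int : SI_int := by
  intro P u w y₀ z₀ ε hP hu hu1 hw hw1 hε h
  rw [mem_interior_iff_mem_nhds]
  have k1 := int_key P y₀ z₀ ε hP hε h u hu hu1.ne'
  have k2 := int_key P y₀ z₀ ε hP hε h w hw hw1.ne
  filter_upwards [k1, k2] with q h1 h2
  rcases le_total 0 q.1 with h0 | h0
  · exact h1 (div_nonneg h0 hu1.le)
  · exact h2 (div_nonneg_of_nonpos h0 hw1.le)

end Pool.Agent.Lib.MP_0bc52e_nt.LC
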