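import Pool.Agent.Lib.MP_0bc52e_nt.T.StmI3

/-!
# MP_0bc52e_nt, part I: piece lvm
-/

set_option autoImplicit false

namespace Pool.Agent.Lib.MP_0bc52e_nt.LC

/-- [lvm] -/
theorem pI_lvm : SI_lvm := by
  intro a b c d e f e' f' hD
  refine ⟨⟨⟨1, 0, 0, 0, e' - e, a, b, e, f' - f, c, d, f, fun v => ?_⟩, ?_⟩, fun P => ⟨?_, ?_⟩⟩
  · simp only [lv, Prod.mk.injEq]
    push_cast
    exact ⟨by ring, by ring, by ring⟩
  · obtain ⟨D, hDe, hDD⟩ : ∃ D : ℤ, D = a * d - b * c ∧ D * D = 1 := by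
      refine ⟨_, rfl, ?_⟩
      rcases hD with h | h <;> rw [h] <;> norm_num
    have hR : (D : ℝ) * (a * d - b * c) = 1 := by
      have h1 : D * (a * d - b * c) = 1 := by rw [← hDe]; exact hDD
      exact_mod_cast h1
    refine ⟨fun v => (v.1, D * (d * (v.2.1 - (e' - e) * v.1 - e) - b * (v.2.2 - (f' - f) * v.1 - f)),
      D * (-c * (v.2.1 - (e' - e) * v.1 - e) + a * (v.2.2 - (f' - f) * v.1 - f))),
      ⟨1, 0, 0, 0, D * (-d * (e' - e) + b * (f' - f)), D * d, -(D * b), D * (-d * e + b * f),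
        D * (c * (e' - e) - a * (f' - f)), -(D * c), D * a, D * (c * e - a * f), fun v => ?_⟩,
      fun v => ?_, fun v => ?_⟩
    · simp only [Prod.mk.injEq]
      push_cast
      exact ⟨by ring, by ring, by ring⟩
    · have h : v = (v.1, v.2.1, v.2.2) := rfl
      conv_rhs => rw [h]
      simp only [lv, Prod.mk.injEq, true_and]
      exact ⟨by linear_combination v.2.1 * hR, by linear_combination v.2.2 * hR⟩
    · have h : v = (v.1, v.2.1, v.2.2) := rfl
      conv_rhs => rw [h]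
      simp only [lv, Prod.mk.injEq, true_and]
      exact ⟨by linear_combination (v.2.1 - (e' - e) * v.1 - e) * hR,
        by linear_combination (v.2.2 - (f' - f) * v.1 - f) * hR⟩
  · ext v
    constructor
    · rintro ⟨w, hw, hwv⟩
      simp only [lv, Prod.mk.injEq] at hwv
      obtain ⟨h1, h2, h3⟩ := hwv
      refine ⟨w.2, ?_, ?_⟩
      · show ((0 : ℝ), w.2.1, w.2.2) ∈ P
        rw [← h1]
        exact hw
      · rw [h1] at h2 h3
        exact Prod.ext (by rw [umap, ← h2]; ring) (by rw [umap, ← h3]; ring)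
    · rintro ⟨w, hw, rfl⟩
      refine ⟨(0, w.1, w.2), hw, ?_⟩
      simp only [lv, umap, Prod.mk.injEq, true_and]
      exact ⟨by ring, by ring⟩
  · ext v
    constructor
    · rintro ⟨w, hw, hwv⟩
      simp only [lv, Prod.mk.injEq] at hwv
      obtain ⟨h1, h2, h3⟩ := hwv
      refine ⟨w.2, ?_, ?_⟩
      · show ((1 : ℝ), w.2.1, w.2.2) ∈ P
        rw [← h1]
        exact hw
      · rw [h1] at h2 h3
        exact Prod.ext (by rw [umap, ← h2]; ring) (by rw [umap, ← h3]; ring)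
    · rintro ⟨w, hw, rfl⟩
      refine ⟨(1, w.1, w.2), hw, ?_⟩
      simp only [lv, umap, Prod.mk.injEq, true_and]
      exact ⟨by ring, by ring⟩

end Pool.Agent.Lib.MP_0bc52e_nt.LC
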