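import Pool.Agent.Lib.MP_0bc52e_nt.T.StmI3

namespace Pool.Agent.Lib.MP_0bc52e_nt.LC

private theorem negw_mem (P : Set (ℝ × ℝ × ℝ)) (C e Y Z w0 w1 w2 : ℝ) (hP : Convex ℝ P)
    (h0 : ((0 : ℝ), (0 : ℝ), (0 : ℝ)) ∈ P) (h1 : ((0 : ℝ), (1 : ℝ), e) ∈ P) (h2 : ((0 : ℝ), (2 : ℝ), C) ∈ P)
    (p0 : 0 ≤ w0) (p1 : 0 ≤ w1) (p2 : 0 ≤ w2) (hs : w0 + w1 + w2 = 1) (hY : w1 + 2 * w2 = Y)
    (hZ : w1 * e + w2 * C = Z) : ((0 : ℝ), Y, Z) ∈ P := by
  have h := hP.sum_mem (t := Finset.univ) (w := ![w0, w1, w2])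
    (z := ![((0 : ℝ), (0 : ℝ), (0 : ℝ)), ((0 : ℝ), (1 : ℝ), e), ((0 : ℝ), (2 : ℝ), C)])
    (by intro i _; fin_cases i <;> simp [p0, p1, p2])
    (by simp [Fin.sum_univ_three, hs])
    (by intro i _; fin_cases i <;> simp [h0, h1, h2])
  simp only [Fin.sum_univ_three, Matrix.cons_val_zero, Matrix.cons_val_one, Matrix.cons_val, Prod.smul_mk, smul_eq_mul,
    mul_zero, mul_one, Prod.mk_add_mk, zero_add, add_zero] at h
  rw [mul_comm w2 2, hY, hZ] at h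
  exact h

private theorem negw_eps (C e : ℝ) : 0 < 1 / (8 * (|C| + |e| + 1)) ∧
    ∀ t : ℝ, |t| ≤ 1 / (8 * (|C| + |e| + 1)) → |t| ≤ 1 / 8 ∧ |C * t| ≤ 1 / 8 ∧ |e * t| ≤ 1 / 8 := by
  have hpos : 0 < |C| + |e| + 1 := by positivity
  refine ⟨by positivity, fun t ht => ?_⟩
  have h1 : (|C| + |e| + 1) * |t| ≤ 1 / 8 := by
    calc (|C| + |e| + 1) * |t| ≤ (|C| + |e| + 1) * (1 / (8 * (|C| + |e| + 1))) :=
          mul_le_mul_of_nonneg_left ht hpos.le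
      _ = 1 / 8 := by field_simp
  have hC := abs_nonneg C
  have he := abs_nonneg e
  have htt := abs_nonneg t
  refine ⟨?_, ?_, ?_⟩
  · nlinarith [mul_nonneg hC htt, mul_nonneg he htt]
  · rw [abs_mul]; nlinarith [mul_nonneg hC htt, mul_nonneg he htt]
  · rw [abs_mul]; nlinarith [mul_nonneg hC htt, mul_nonneg he htt]

theorem pI_negW (h1 : SI_int) : SI_negW := by
  intro P C e x y z hP hS he hCe hx hxyz hH
  obtain ⟨s0, s2, s1, -, -, -⟩ := hS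
  have s0' : ((0 : ℝ), (0 : ℝ), (0 : ℝ)) ∈ P := by simpa [ip] using s0
  have s2' : ((0 : ℝ), (2 : ℝ), (C : ℝ)) ∈ P := by simpa [ip] using s2
  have s1' : ((0 : ℝ), (1 : ℝ), (e : ℝ)) ∈ P := by simpa [ip] using he
  obtain ⟨hε, hb⟩ := negw_eps (C : ℝ) (e : ℝ)
  set ε : ℝ := 1 / (8 * (|(C : ℝ)| + |(e : ℝ)| + 1)) with hεdef
  have hu : (ip (1, 0, 0)).1 = 1 := by simp [ip]
  have hw : (ip (x, y, z)).1 < 0 := by
    simp only [ip]
    have : (x : ℝ) ≤ -1 := by exact_mod_cast hx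
    linarith
  rcases le_abs.mp hCe with hD | hD
  · have hD' : (3 : ℝ) ≤ 2 * e - C := by exact_mod_cast hD
    refine hH 0 1 (e - 1) ?_
    have hfin := h1 P (ip (1, 0, 0)) (ip (x, y, z)) 1 ((e : ℝ) - 1) ε hP s1 (by rw [hu]; norm_num) hxyz hw hε ?_
    · simpa [ip] using hfin
    · intro Y Z hY hZ
      obtain ⟨a1, a2, a3⟩ := hb _ hY
      obtain ⟨b1, -, -⟩ := hb _ hZ
      rw [abs_le] at a1 a2 a3 b1
      have hDpos : 0 < 2 * (e : ℝ) - C := by linarith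
      refine negw_mem P C e Y Z ((((C : ℝ) - e) * (Y - 1) + e - Z) / (2 * e - C)) ((2 * Z - C * Y) / (2 * e - C))
        ((e * Y - Z) / (2 * e - C)) hP s0' s1' s2' ?_ ?_ ?_ ?_ ?_ ?_
      · apply div_nonneg _ hDpos.le; nlinarith
      · apply div_nonneg _ hDpos.le; nlinarith
      · apply div_nonneg _ hDpos.le; nlinarith
      · rw [← add_div, ← add_div, div_eq_one_iff_eq hDpos.ne']; ring
      · rw [mul_div_assoc', ← add_div, div_eq_iff hDpos.ne']; ring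
      · rw [div_mul_eq_mul_div, div_mul_eq_mul_div, ← add_div, div_eq_iff hDpos.ne']; ring
  · have hD' : (3 : ℝ) ≤ -(2 * e - C) := by exact_mod_cast hD
    refine hH 0 1 (e + 1) ?_
    have hfin := h1 P (ip (1, 0, 0)) (ip (x, y, z)) 1 ((e : ℝ) + 1) ε hP s1 (by rw [hu]; norm_num) hxyz hw hε ?_
    · simpa [ip] using hfin
    · intro Y Z hY hZ
      obtain ⟨a1, a2, a3⟩ := hb _ hY
      obtain ⟨b1, -, -⟩ := hb _ hZ
      rw [abs_le] at a1 a2 a3 b1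
      have hDpos : 0 < (C : ℝ) - 2 * e := by linarith
      refine negw_mem P C e Y Z ((Z - ((C : ℝ) - e) * (Y - 1) - e) / (C - 2 * e)) ((C * Y - 2 * Z) / (C - 2 * e))
        ((Z - e * Y) / (C - 2 * e)) hP s0' s1' s2' ?_ ?_ ?_ ?_ ?_ ?_
      · apply div_nonneg _ hDpos.le; nlinarith
      · apply div_nonneg _ hDpos.le; nlinarith
      · apply div_nonneg _ hDpos.le; nlinarith
      · rw [← add_div, ← add_div, div_eq_one_iff_eq hDpos.ne']; ring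
      · rw [mul_div_assoc', ← add_div, div_eq_iff hDpos.ne']; ring
      · rw [div_mul_eq_mul_div, div_mul_eq_mul_div, ← add_div, div_eq_iff hDpos.ne']; ring

end Pool.Agent.Lib.MP_0bc52e_nt.LC
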