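import Pool.Agent.Lib.MP_0bc52e_nt.T.StmI3

namespace Pool.Agent.Lib.MP_0bc52e_nt.LC

theorem pI_negZ (h1 : SI_int) (h2 : SI_cone) (h3 : SI_cross) : SI_negZ := by
  intro P s₀ x y z hP hsix hs ha hb hx hxyz hol
  obtain ⟨q1, q2, q3, q4, q5, q6⟩ := hsix
  simp only [ip, Int.cast_zero, Int.cast_one, Int.cast_ofNat, Int.cast_add, Int.cast_mul] at q1 q2 q3 q5 ha hb hxyz
  have hxr : (x : ℝ) ≤ -1 := by exact_mod_cast hx
  -- the plane section in the coordinates of the parallelogram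
  let G : Set (ℝ × ℝ) := {v | ((0 : ℝ), v.1 + v.2, (s₀ : ℝ) * v.1 + ((s₀ : ℝ) + 1) * v.2) ∈ P}
  have hGm : ∀ a b : ℝ, (a, b) ∈ G ↔ ((0 : ℝ), a + b, (s₀ : ℝ) * a + ((s₀ : ℝ) + 1) * b) ∈ P :=
    fun a b => Iff.rfl
  have hGc : Convex ℝ G := by
    intro a ha b hb s t hs ht hst
    have h := hP ha hb hs ht hst
    have e : s • ((0 : ℝ), a.1 + a.2, (s₀ : ℝ) * a.1 + ((s₀ : ℝ) + 1) * a.2) +
        t • ((0 : ℝ), b.1 + b.2, (s₀ : ℝ) * b.1 + ((s₀ : ℝ) + 1) * b.2) =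
        ((0 : ℝ), (s • a + t • b).1 + (s • a + t • b).2,
          (s₀ : ℝ) * (s • a + t • b).1 + ((s₀ : ℝ) + 1) * (s • a + t • b).2) := by
      simp only [Prod.smul_mk, Prod.mk_add_mk, smul_eq_mul, Prod.fst_add, Prod.snd_add,
        Prod.smul_fst, Prod.smul_snd, Prod.mk.injEq]
      refine ⟨by ring, by ring, by ring⟩
    rw [e] at h
    exact h
  have hG4 : S4 G := by
    refine ⟨?_, ?_, ?_, ?_⟩
    · rw [hGm]; convert q1 using 3 <;> ring
    · rw [hGm]; convert ha using 3 <;> ring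
    · rw [hGm]; convert hb using 3 <;> ring
    · rw [hGm]; convert q2 using 3 <;> ring
  obtain ⟨J, hJ⟩ : ∃ J : ℝ, J = -(x : ℝ) := ⟨_, rfl⟩
  have hJ1 : 1 ≤ J := by rw [hJ]; linarith
  have hJp : 0 < J + 1 := by linarith
  obtain ⟨lam, hlam⟩ : ∃ lam : ℝ, lam = J / (J + 1) := ⟨_, rfl⟩
  have hl1 : 1 / 2 ≤ lam := by rw [hlam, le_div_iff₀ hJp]; linarith
  have hl2 : lam ≤ 1 := by rw [hlam, div_le_one hJp]; linarith
  obtain ⟨t, ht0, ht1, hcone⟩ := h3 (((s₀ : ℝ) + 1) * (y / (J + 1)) - z / (J + 1))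
    (z / (J + 1) - s₀ * (y / (J + 1))) lam s₀ hl1 hl2 (by
      rcases hs with h | h
      · left; exact_mod_cast h
      · right; exact_mod_cast h)
  have hpt : ((0 : ℝ), y / (J + 1) + t * lam, z / (J + 1)) ∈ P := by
    have e1 : ((1 : ℝ), t, (0 : ℝ)) ∈ P := by
      have h := hP q3 q5 (by linarith : (0 : ℝ) ≤ 1 - t) ht0 (by ring)
      convert h using 1
      simp only [Prod.smul_mk, Prod.mk_add_mk, smul_eq_mul, Prod.mk.injEq]
      refine ⟨by ring, by ring, by ring⟩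
    have h := hP hxyz e1 (by positivity : (0 : ℝ) ≤ 1 / (J + 1)) (by positivity : (0 : ℝ) ≤ J / (J + 1))
      (by field_simp; ring)
    convert h using 1
    simp only [Prod.smul_mk, Prod.mk_add_mk, smul_eq_mul, Prod.mk.injEq]
    refine ⟨?_, ?_, ?_⟩
    · have : (x : ℝ) = -J := by rw [hJ]; ring
      rw [this]; ring
    · rw [hlam]; ring
    · ring
  obtain ⟨i, j, ε, hε, hij⟩ := h2 G _ _ hGc hG4 (by
    rw [hGm]
    convert hpt using 3 <;> ring) hcone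
  have hs0 : 0 ≤ |(s₀ : ℝ)| := abs_nonneg _
  have hden : 0 < 2 * |(s₀ : ℝ)| + 2 := by linarith
  obtain ⟨δ, hδ⟩ : ∃ δ : ℝ, δ = ε / (2 * |(s₀ : ℝ)| + 2) := ⟨_, rfl⟩
  have hδ0 : 0 < δ := by rw [hδ]; positivity
  have hδe : δ * (2 * |(s₀ : ℝ)| + 2) = ε := by rw [hδ]; field_simp
  have hint := h1 P (1, 0, 0) (x, y, z) ((i : ℝ) + j) (s₀ * i + (s₀ + 1) * j) δ hP q3
    (by norm_num) hxyz (by show (x : ℝ) < 0; linarith) hδ0 (by
      intro Y Z hY hZ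
      have hg : ((((s₀ : ℝ) + 1) * Y - Z), (Z - s₀ * Y)) ∈ G := by
        apply hij
        · have e : ((s₀ : ℝ) + 1) * Y - Z - i =
            ((s₀ : ℝ) + 1) * (Y - (i + j)) - (Z - (s₀ * i + (s₀ + 1) * j)) := by ring
          rw [e]
          calc |((s₀ : ℝ) + 1) * (Y - (i + j)) - (Z - (s₀ * i + (s₀ + 1) * j))|
              ≤ |((s₀ : ℝ) + 1) * (Y - (i + j))| + |Z - (s₀ * i + (s₀ + 1) * j)| := abs_sub _ _
            _ = |(s₀ : ℝ) + 1| * |Y - (i + j)| + |Z - (s₀ * i + (s₀ + 1) * j)| := by rw [abs_mul]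
            _ ≤ (|(s₀ : ℝ)| + 1) * δ + δ := by
                have : |(s₀ : ℝ) + 1| ≤ |(s₀ : ℝ)| + 1 := by
                  calc |(s₀ : ℝ) + 1| ≤ |(s₀ : ℝ)| + |(1 : ℝ)| := abs_add_le _ _
                    _ = |(s₀ : ℝ)| + 1 := by rw [abs_one]
                exact add_le_add (mul_le_mul this hY (abs_nonneg _) (by linarith)) hZ
            _ ≤ ε := by rw [← hδe]; nlinarith
        · have e : (Z - (s₀ : ℝ) * Y) - j =
            (Z - (s₀ * i + (s₀ + 1) * j)) - (s₀ : ℝ) * (Y - (i + j)) := by ring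
          rw [e]
          calc |(Z - (s₀ * i + (s₀ + 1) * j)) - (s₀ : ℝ) * (Y - (i + j))|
              ≤ |Z - (s₀ * i + (s₀ + 1) * j)| + |(s₀ : ℝ) * (Y - (i + j))| := abs_sub _ _
            _ = |Z - (s₀ * i + (s₀ + 1) * j)| + |(s₀ : ℝ)| * |Y - (i + j)| := by rw [abs_mul]
            _ ≤ δ + |(s₀ : ℝ)| * δ := add_le_add hZ (mul_le_mul_of_nonneg_left hY hs0)
            _ ≤ ε := by rw [← hδe]; nlinarith
      rw [hGm] at hg
      convert hg using 3 <;> ring)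
  refine hol 0 (i + j) (s₀ * i + (s₀ + 1) * j) ?_
  simp only [ip, Int.cast_zero, Int.cast_add, Int.cast_mul, Int.cast_one]
  exact hint

end Pool.Agent.Lib.MP_0bc52e_nt.LC
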