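import Pool.Agent.Lib.MP_0bc52e_nt.T.StmI1

namespace Pool.Agent.Lib.MP_0bc52e_nt.LC

private lemma pcmin_pull {B : Set (ℝ × ℝ)} {g g' : ℝ × ℝ → ℝ × ℝ} (hg : ∀ v, g' (g v) = v)
    {w : ℝ × ℝ} (hw : w ∈ g '' B) : g' w ∈ B := by
  obtain ⟨v, hv, rfl⟩ := hw
  rw [hg]; exact hv

/-- [pcmin] -/
theorem pI_pcmin (h1 : S_SW) (h2 : S_um) : SI_pcmin := by
  intro B hB hP
  obtain ⟨g, hg, hc⟩ := h1 B hB hP
  obtain ⟨g', ⟨a, c, b, d, x₀, y₀, hdet, hg'⟩, hgg, -⟩ := h2.2.1 g hg
  rcases hc with hW | hS
  · obtain ⟨w1, w2, w3⟩ := hW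
    have q1 := pcmin_pull hgg w1
    have q2 := pcmin_pull hgg w2
    have q3 := pcmin_pull hgg w3
    rw [hg'] at q1 q2 q3
    rcases hdet with hd | hd
    · refine ⟨x₀, y₀, a, b, c, d, by linarith, Or.inr ⟨?_, ?_, ?_⟩⟩
      · convert q1 using 1; simp only [ip2]; push_cast; ext <;> simp only <;> ring
      · convert q2 using 1; simp only [ip2]; push_cast; ext <;> simp only <;> ring
      · convert q3 using 1; simp only [ip2]; push_cast; ext <;> simp only <;> ring
    · refine ⟨x₀, y₀, c, d, a, b, by linarith, Or.inr ⟨?_, ?_, ?_⟩⟩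
      · convert q2 using 1; simp only [ip2]; push_cast; ext <;> simp only <;> ring
      · convert q1 using 1; simp only [ip2]; push_cast; ext <;> simp only <;> ring
      · convert q3 using 1; simp only [ip2]; push_cast; ext <;> simp only <;> ring
  · obtain ⟨w0, w1, w2, w3⟩ := hS
    have q0 := pcmin_pull hgg w0
    have q1 := pcmin_pull hgg w1
    have q2 := pcmin_pull hgg w2
    have q3 := pcmin_pull hgg w3
    rw [hg'] at q0 q1 q2 q3
    rcases hdet with hd | hd
    · refine ⟨x₀, y₀, a, b, c, d, by linarith, Or.inl ⟨?_, ?_, ?_, ?_⟩⟩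
      · convert q0 using 1; simp only [ip2]; push_cast; ext <;> simp only <;> ring
      · convert q1 using 1; simp only [ip2]; push_cast; ext <;> simp only <;> ring
      · convert q2 using 1; simp only [ip2]; push_cast; ext <;> simp only <;> ring
      · convert q3 using 1; simp only [ip2]; push_cast; ext <;> simp only <;> ring
    · refine ⟨x₀, y₀, c, d, a, b, by linarith, Or.inl ⟨?_, ?_, ?_, ?_⟩⟩
      · convert q0 using 1; simp only [ip2]; push_cast; ext <;> simp only <;> ring
      · convert q2 using 1; simp only [ip2]; push_cast; ext <;> simp only <;> ring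
      · convert q1 using 1; simp only [ip2]; push_cast; ext <;> simp only <;> ring
      · convert q3 using 1; simp only [ip2]; push_cast; ext <;> simp only <;> ring

end Pool.Agent.Lib.MP_0bc52e_nt.LC
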