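import Pool.Agent.Lib.MP_0bc52e_nt.T.StmI1

namespace Pool.Agent.Lib.MP_0bc52e_nt.LC

theorem pI_ptconv : SI_ptconv := by
  intro A B m n X Y₁ Y₂ Y hA hB h1 h2 hY1 hY2
  obtain ⟨a, ha, b, hb, hX, hYa⟩ := h1
  obtain ⟨a', ha', b', hb', hX', hYa'⟩ := h2
  by_cases h : Y₁ = Y₂
  · have hY : Y = Y₁ := le_antisymm (h ▸ hY2) hY1
    exact ⟨a, ha, b, hb, hX, by rw [hY]; exact hYa⟩
  · have hlt : Y₁ < Y₂ := lt_of_le_of_ne (le_trans hY1 hY2) h
    have hd : 0 < Y₂ - Y₁ := sub_pos.mpr hlt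
    obtain ⟨t, ht⟩ : ∃ t : ℝ, t = (Y - Y₁) / (Y₂ - Y₁) := ⟨_, rfl⟩
    have ht0 : 0 ≤ t := by rw [ht]; exact div_nonneg (sub_nonneg.mpr hY1) hd.le
    have ht1 : t ≤ 1 := by rw [ht, div_le_one hd]; linarith
    have htY : Y = Y₁ + t * (Y₂ - Y₁) := by
      rw [ht, div_mul_cancel₀ _ hd.ne']; ring
    have hs : 0 ≤ 1 - t := by linarith
    refine ⟨(1 - t) • a + t • a', hA ha ha' hs ht0 (by ring), (1 - t) • b + t • b',
      hB hb hb' hs ht0 (by ring), ?_, ?_⟩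
    · simp only [Prod.fst_add, Prod.smul_fst, smul_eq_mul]
      have e : X = (1 - t) * X + t * X := by ring
      rw [e]
      nth_rewrite 1 [hX]
      rw [hX']
      ring
    · simp only [Prod.snd_add, Prod.smul_snd, smul_eq_mul]
      rw [htY, hYa, hYa']
      ring

end Pool.Agent.Lib.MP_0bc52e_nt.LC
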