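import Pool.Agent.Lib.MP_0bc52e_nt.T.StmI1

/-!
# MP_0bc52e_nt, part I: piece seg1
-/

set_option autoImplicit false

namespace Pool.Agent.Lib.MP_0bc52e_nt.LC

private theorem seg1_core (h1 : SI_gap0) (h2 : SI_frsym) (h3 : SI_X) (h4 : SI_segh)
    (p m x₀ y₀ x₁ y₁ : ℝ) (hp : 0 < p) (hpm : p ≤ 2 * m) (h3m : 3 * m ≤ 2 * p)
    (hFR : ∀ s : ℝ, 0 ≤ s → s ≤ 1 → FR p m ((1 - s) * x₀ + s * x₁) ((1 - s) * y₀ + s * y₁))
    (_hx : x₀ ≤ x₁) : 3 * (x₁ - x₀) < 8 * p - 6 * m := by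
  by_cases hlt : x₁ - x₀ < p
  · linarith
  push Not at hlt
  have hd : 0 < x₁ - x₀ := lt_of_lt_of_le hp hlt
  obtain ⟨σ, hσ⟩ : ∃ σ : ℝ, σ * (x₁ - x₀) = y₁ - y₀ :=
    ⟨(y₁ - y₀) / (x₁ - x₀), div_mul_cancel₀ _ hd.ne'⟩
  have hline : ∀ x : ℝ, x₀ ≤ x → x ≤ x₁ → FR p m x (y₀ + σ * (x - x₀)) := by
    intro x hx0 hx1
    have hs0 : 0 ≤ (x - x₀) / (x₁ - x₀) := div_nonneg (by linarith) hd.le
    have hs1 : (x - x₀) / (x₁ - x₀) ≤ 1 := by
      rw [div_le_one hd]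
      linarith
    have h := hFR _ hs0 hs1
    have hs : (x - x₀) / (x₁ - x₀) * (x₁ - x₀) = x - x₀ := div_mul_cancel₀ _ hd.ne'
    have e1 : (1 - (x - x₀) / (x₁ - x₀)) * x₀ + (x - x₀) / (x₁ - x₀) * x₁ = x := by
      have : (1 - (x - x₀) / (x₁ - x₀)) * x₀ + (x - x₀) / (x₁ - x₀) * x₁ =
        x₀ + (x - x₀) / (x₁ - x₀) * (x₁ - x₀) := by ring
      rw [this, hs]
      ring
    have e2 : (1 - (x - x₀) / (x₁ - x₀)) * y₀ + (x - x₀) / (x₁ - x₀) * y₁ =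
        y₀ + σ * (x - x₀) := by
      have : (1 - (x - x₀) / (x₁ - x₀)) * y₀ + (x - x₀) / (x₁ - x₀) * y₁ =
        y₀ + (x - x₀) / (x₁ - x₀) * (y₁ - y₀) := by ring
      rw [this, ← hσ, mul_left_comm, hs]
    rw [e1, e2] at h
    exact h
  -- the column
  obtain ⟨k, hk0, hk1⟩ : ∃ k : ℤ, x₀ ≤ k * p ∧ k * p < x₀ + p := by
    refine ⟨⌈x₀ / p⌉, ?_, ?_⟩
    · have h := Int.le_ceil (x₀ / p)
      have := mul_le_mul_of_nonneg_right h hp.le
      rwa [div_mul_cancel₀ _ hp.ne'] at this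
    · have h := Int.ceil_lt_add_one (x₀ / p)
      have := mul_lt_mul_of_pos_right h hp
      rw [add_mul, div_mul_cancel₀ _ hp.ne', one_mul] at this
      exact this
  obtain ⟨j, hj0, hj1⟩ := h1 p m (y₀ + σ * (k * p - x₀)) k hp
    (hline (k * p) hk0 (by linarith))
  obtain ⟨y', hy'⟩ : ∃ y' : ℝ, y' = y₀ + σ * (k * p - x₀) - j * p := ⟨_, rfl⟩
  rw [← hy'] at hj0 hj1
  have hfree : ∀ ξ : ℝ, x₀ - k * p ≤ ξ → ξ ≤ x₁ - k * p → FR p m ξ (y' + σ * ξ) := by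
    intro ξ h5 h6
    have h := ((h2 p m _ _).1 k j).1 (hline (ξ + k * p) (by linarith) (by linarith))
    have e1 : ξ + k * p - k * p = ξ := by ring
    have e2 : y₀ + σ * (ξ + k * p - x₀) - j * p = y' + σ * ξ := by
      rw [hy']
      ring
    rw [e1, e2] at h
    exact h
  have hξ1 : x₁ - k * p < p := by
    by_contra hcon
    push Not at hcon
    exact h3 p m y' σ hp hpm h3m fun x hx0 hx1 => hfree x (by linarith) (by linarith)
  by_cases hσ2 : 1 / 2 ≤ σ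
  · have h := h4 p m y' σ (x₀ - k * p) (x₁ - k * p) hp hpm h3m (by linarith) (by linarith)
      (by linarith) hξ1 hfree hj0 hj1 hσ2
    linarith
  · push Not at hσ2
    have hfree' : ∀ ξ : ℝ, -(x₁ - k * p) ≤ ξ → ξ ≤ -(x₀ - k * p) →
        FR p m ξ (y' + (1 - σ) * ξ) := by
      intro ξ h5 h6
      have h := (h2 p m _ _).2.2.1 (hfree (-ξ) (by linarith) (by linarith))
      have e1 : - -ξ = ξ := neg_neg ξ
      have e2 : y' + σ * -ξ - -ξ = y' + (1 - σ) * ξ := by ring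
      rw [e1, e2] at h
      exact h
    have h := h4 p m y' (1 - σ) (-(x₁ - k * p)) (-(x₀ - k * p)) hp hpm h3m (by linarith)
      (by linarith) (by linarith) (by linarith) hfree' hj0 hj1 (by linarith)
    linarith

theorem pI_seg1 (h1 : SI_gap0) (h2 : SI_frsym) (h3 : SI_X) (h4 : SI_segh) : SI_seg1 := by
  intro p m x₀ y₀ x₁ y₁ hp hpm h3m hFR
  rcases le_total x₀ x₁ with hx | hx
  · rw [abs_of_nonneg (by linarith)]
    exact seg1_core h1 h2 h3 h4 p m x₀ y₀ x₁ y₁ hp hpm h3m hFR hx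
  · rw [abs_of_nonpos (by linarith)]
    have h := seg1_core h1 h2 h3 h4 p m x₁ y₁ x₀ y₀ hp hpm h3m (fun s hs0 hs1 => by
      have h := hFR (1 - s) (by linarith) (by linarith)
      have e1 : (1 - (1 - s)) * x₀ + (1 - s) * x₁ = (1 - s) * x₁ + s * x₀ := by ring
      have e2 : (1 - (1 - s)) * y₀ + (1 - s) * y₁ = (1 - s) * y₁ + s * y₀ := by ring
      rw [e1, e2] at h
      exact h) hx
    linarith

end Pool.Agent.Lib.MP_0bc52e_nt.LC
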