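import Pool.Agent.Lib.MP_0bc52e_nt.T.StmI1

/-!
# MP_0bc52e_nt, part I: piece segh
-/

set_option autoImplicit false

namespace Pool.Agent.Lib.MP_0bc52e_nt.LC

theorem pI_segh (h1 : SI_E1) (h2 : SI_E2) (h3 : SI_E3) : SI_segh := by
  intro p m y₀ σ ξ₀ ξ₁ hp hpm h3m hξ₀ hξ₁ hξ₀p hξ₁p hFR hy hy' hσ
  have hm : 0 < m := by linarith
  have hmp : m ≤ p := by linarith
  -- fact A
  have factA : m ≤ ξ₁ → y₀ + σ * m < p := by
    intro hR
    have h := h1 p m y₀ σ m hm hm.le le_rfl
      (fun x hx0 hx1 => hFR x (by linarith) (by linarith)) hy'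
    linarith
  -- fact B
  have factB : σ < 2 → (2 - σ) * ξ₁ < y₀ + p - m := by
    intro hσ2
    by_cases hR : p - m ≤ ξ₁
    · have h4 : p - m < y₀ + σ * (p - m) := by
        have h5 : 1 / 2 * (p - m) ≤ σ * (p - m) :=
          mul_le_mul_of_nonneg_right hσ (by linarith)
        linarith
      have h := h2 p m y₀ σ ξ₁ hm hR hξ₁p.le
        (fun x hx0 hx1 => hFR x (by linarith) hx1) h4
      linarith
    · push Not at hR
      have h5 : (2 - σ) * ξ₁ ≤ (3 / 2) * ξ₁ :=
        mul_le_mul_of_nonneg_right (by linarith) hξ₁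
      linarith
  by_cases hL : -ξ₀ < p - m
  · linarith
  · push Not at hL
    have hne : y₀ + σ * (m - p) ≠ 0 := by
      intro h0
      have h := hFR (m - p) (by linarith) (by linarith) (-1) 0
      apply h
      rw [h0]
      push_cast
      refine ⟨?_, ?_, ?_⟩ <;> linarith
    rcases lt_or_gt_of_ne hne with hneg | hpos
    · -- case 2b
      have hσm : m < σ * (p - m) := by linarith
      have hpm0 : 0 < p - m := by linarith
      have hR : ξ₁ < m := by
        by_contra hR
        push Not at hR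
        have hA := factA hR
        have h5 : σ * (p - m) ≤ σ * m :=
          mul_le_mul_of_nonneg_left (by linarith) (by linarith)
        linarith
      have hE := h1 p m y₀ σ ξ₁ hm hξ₁ hR.le
        (fun x hx0 hx1 => hFR x (by linarith) hx1) hy'
      have h6 : (σ - 1 / 2) * ξ₁ ≤ p - 3 * m / 2 := by linarith
      have h7 : (3 * m - p) / 2 ≤ (σ - 1 / 2) * (p - m) := by linarith
      have h8 : ((3 * m - p) / 2) * ξ₁ ≤ ((σ - 1 / 2) * (p - m)) * ξ₁ :=
        mul_le_mul_of_nonneg_right h7 hξ₁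
      have h9 : ((σ - 1 / 2) * ξ₁) * (p - m) ≤ (p - 3 * m / 2) * (p - m) :=
        mul_le_mul_of_nonneg_right h6 hpm0.le
      have h10 : ξ₁ * (3 * m - p) ≤ (2 * p - 3 * m) * (p - m) := by nlinarith
      have h11 : 3 * ((2 * p - 3 * m) * (p - m)) ≤ (5 * p - 6 * m) * (3 * m - p) := by
        have e1 : 0 ≤ (2 * m - p) * (2 * p - 3 * m) :=
          mul_nonneg (by linarith) (by linarith)
        have e2 : 0 ≤ p * (9 * m / 2 - 2 * p) := mul_nonneg hp.le (by linarith)
        nlinarith
      have h12 : 3 * ξ₁ ≤ 5 * p - 6 * m := by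
        have h13 : 0 < 3 * m - p := by linarith
        have h14 : (3 * ξ₁) * (3 * m - p) ≤ (5 * p - 6 * m) * (3 * m - p) := by linarith
        exact le_of_mul_le_mul_right h14 h13
      linarith
    · -- case 2a
      have hE := h3 p m y₀ σ ξ₀ hm hξ₀p.le (by linarith)
        (fun x hx0 hx1 => hFR x hx0 (by linarith)) hpos
      have hL1 : (1 + σ) * (-ξ₀) < y₀ + p - m := by linarith
      by_cases hR : ξ₁ < m
      · have h5 : (3 / 2) * (-ξ₀) ≤ (1 + σ) * (-ξ₀) :=
          mul_le_mul_of_nonneg_right (by linarith) (by linarith)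
        linarith
      · push Not at hR
        have hA := factA hR
        have hσ1 : σ < 1 := by
          by_contra hσ1
          push Not at hσ1
          have h5 : 1 * m ≤ σ * m := mul_le_mul_of_nonneg_right hσ1 hm.le
          linarith
        have hB := factB (by linarith)
        have hS : y₀ + p - m < 2 * p - (1 + σ) * m := by linarith
        have e1 : (2 - σ) * ((1 + σ) * (-ξ₀)) < (2 - σ) * (2 * p - (1 + σ) * m) :=
          mul_lt_mul_of_pos_left (hL1.trans hS) (by linarith)
        have e2 : (1 + σ) * ((2 - σ) * ξ₁) < (1 + σ) * (2 * p - (1 + σ) * m) :=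
          mul_lt_mul_of_pos_left (hB.trans hS) (by linarith)
        have hη : 0 ≤ σ - 1 / 2 := by linarith
        have e3 : (σ - 1 / 2) * (8 * p - 6 * m) ≤ 9 * m := by
          have e4 : (σ - 1 / 2) * (8 * p - 6 * m) ≤ (1 / 2) * (8 * p - 6 * m) :=
            mul_le_mul_of_nonneg_right (by linarith) (by linarith)
          linarith
        have e5 : (σ - 1 / 2) * ((σ - 1 / 2) * (8 * p - 6 * m)) ≤ (σ - 1 / 2) * (9 * m) :=
          mul_le_mul_of_nonneg_left e3 hη
        have e6 : ((1 + σ) * (2 - σ)) * (3 * (ξ₁ - ξ₀)) <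
            ((1 + σ) * (2 - σ)) * (8 * p - 6 * m) := by nlinarith
        have e7 : 0 < (1 + σ) * (2 - σ) := mul_pos (by linarith) (by linarith)
        exact lt_of_mul_lt_mul_left e6 e7.le

end Pool.Agent.Lib.MP_0bc52e_nt.LC
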