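import Pool.Agent.Lib.MP_0bc52e_nt.T.StmI1

/-!
# MP_0bc52e_nt, part I: piece shape
-/

set_option autoImplicit false

namespace Pool.Agent.Lib.MP_0bc52e_nt.LC

/-- small integers -/
def shape_L : List ℤ := [-4, -3, -2, -1, 0, 1, 2, 3, 4]

/-- the symmetries of `W` -/
def shape_M : List (ℤ × ℤ × ℤ × ℤ) :=
  [(1, 0, 0, 1), (0, 1, 1, 0), (0, -1, 1, -1), (-1, 1, -1, 0), (1, -1, 0, -1), (-1, 0, -1, 1)]

/-- the linear map with matrix `M` -/
def shape_ap (M : ℤ × ℤ × ℤ × ℤ) (v : ℤ × ℤ) : ℤ × ℤ :=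
  (M.1 * v.1 + M.2.1 * v.2, M.2.2.1 * v.1 + M.2.2.2 * v.2)

/-- the vertices of the parallelogram -/
def shape_Z (a b c d : ℤ) : List (ℤ × ℤ) := [(0, 0), (a, b), (c, d), (a + c, b + d)]

/-- the vertices of the triangle -/
def shape_W (a b c d : ℤ) : List (ℤ × ℤ) := [(a, b), (c, d), (-a - c, -b - d)]

/-- the shapes of the parallelogram -/
def shape_SZ : List (List (ℤ × ℤ)) :=
  [[(0, 0), (1, 0), (0, 1), (1, 1)], [(0, 0), (0, 1), (1, -1), (1, 0)],
    [(0, 0), (0, 1), (1, -2), (1, -1)]]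

/-- the shapes of the triangle -/
def shape_SW : List (List (ℤ × ℤ)) :=
  [[(1, 0), (0, 1), (-1, -1)], [(-1, 0), (0, -1), (1, 1)], [(1, 0), (1, 1), (-2, -1)]]

/-- the bound for a difference -/
def shape_ok (s t : ℤ) : Prop := -4 ≤ s ∧ s ≤ 4 ∧ -4 ≤ t ∧ t ≤ 4 ∧ -4 ≤ s - t ∧ s - t ≤ 4

instance shape_dec (s t : ℤ) : Decidable (shape_ok s t) := by
  unfold shape_ok
  infer_instance

set_option maxRecDepth 100000 in
private theorem shape_checkZ : ∀ a ∈ shape_L, ∀ b ∈ shape_L, ∀ c ∈ shape_L, ∀ d ∈ shape_L,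
    (a * d - b * c = 1 ∧ shape_ok a b ∧ shape_ok c d ∧ shape_ok (a + c) (b + d) ∧
      shape_ok (a - c) (b - d)) →
    ∃ M ∈ shape_M, ∃ q ∈ shape_Z a b c d, ∃ sh ∈ shape_SZ, ∀ T ∈ sh, ∃ P ∈ shape_Z a b c d,
      T = shape_ap M P - shape_ap M q := by
  decide +kernel

set_option maxRecDepth 100000 in
private theorem shape_checkW : ∀ a ∈ shape_L, ∀ b ∈ shape_L, ∀ c ∈ shape_L, ∀ d ∈ shape_L,
    (a * d - b * c = 1 ∧ shape_ok a b ∧ shape_ok c d ∧ shape_ok (a + c) (b + d) ∧
      shape_ok (a - c) (b - d) ∧ shape_ok (2 * a + c) (2 * b + d) ∧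
      shape_ok (a + 2 * c) (b + 2 * d)) →
    ∃ M ∈ shape_M, ∃ sh ∈ shape_SW, ∀ T ∈ sh, ∃ P ∈ shape_W a b c d,
      T = shape_ap M P := by
  decide +kernel

private theorem shape_mem {a : ℤ} (h1 : -4 ≤ a) (h2 : a ≤ 4) : a ∈ shape_L := by
  unfold shape_L
  interval_cases a <;> decide

private theorem shape_WS {M : ℤ × ℤ × ℤ × ℤ} (h : M ∈ shape_M) :
    WS M.1 M.2.1 M.2.2.1 M.2.2.2 := by
  unfold shape_M at h
  unfold WS
  simp only [List.mem_cons, List.not_mem_nil, or_false] at h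
  rcases h with rfl | rfl | rfl | rfl | rfl | rfl <;> simp

private theorem shape_img {B : Set (ℝ × ℝ)} {x₀ y₀ : ℤ} (M : ℤ × ℤ × ℤ × ℤ) (q P T : ℤ × ℤ)
    (hP : ip2 (x₀ + P.1, y₀ + P.2) ∈ B) (hT : T = shape_ap M P - shape_ap M q) :
    ip2 T ∈ umap M.1 M.2.1 M.2.2.1 M.2.2.2 (-(M.1 * (x₀ + q.1) + M.2.1 * (y₀ + q.2)))
      (-(M.2.2.1 * (x₀ + q.1) + M.2.2.2 * (y₀ + q.2))) '' B := by
  refine ⟨_, hP, ?_⟩
  rw [hT]
  simp only [umap, ip2, shape_ap, Prod.fst_sub, Prod.snd_sub]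
  refine Prod.ext ?_ ?_
  · push_cast
    ring
  · push_cast
    ring

private theorem shape_bd {B : Set (ℝ × ℝ)} (hB : Bd B) {x y x' y' s t : ℤ}
    (h1 : ip2 (x, y) ∈ B) (h2 : ip2 (x', y') ∈ B) (hs : s = x' - x) (ht : t = y' - y) :
    shape_ok s t := by
  obtain ⟨c1, c2, c3⟩ := hB x' y' x y h2 h1
  rw [abs_le] at c1 c2 c3
  unfold shape_ok
  subst hs ht
  refine ⟨?_, ?_, ?_, ?_, ?_, ?_⟩ <;> linarith [c1.1, c1.2, c2.1, c2.2, c3.1, c3.2]

theorem pI_shape : SI_shape := by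
  intro B x₀ y₀ a b c d hconv hB hdet hZW
  rcases hZW with ⟨h0, h1, h2, h3⟩ | ⟨h1, h2, h3⟩
  · have e1 : shape_ok a b := shape_bd hB h0 h1 (by ring) (by ring)
    have e2 : shape_ok c d := shape_bd hB h0 h2 (by ring) (by ring)
    have e3 : shape_ok (a + c) (b + d) := shape_bd hB h0 h3 (by ring) (by ring)
    have e4 : shape_ok (a - c) (b - d) := shape_bd hB h2 h1 (by ring) (by ring)
    obtain ⟨M, hM, q, hq, sh, hsh, hT⟩ := shape_checkZ a (shape_mem e1.1 e1.2.1) b
      (shape_mem e1.2.2.1 e1.2.2.2.1) c (shape_mem e2.1 e2.2.1) d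
      (shape_mem e2.2.2.1 e2.2.2.2.1) ⟨hdet, e1, e2, e3, e4⟩
    have hpts : ∀ P ∈ shape_Z a b c d, ip2 (x₀ + P.1, y₀ + P.2) ∈ B := by
      intro P hP
      unfold shape_Z at hP
      simp only [List.mem_cons, List.not_mem_nil, or_false] at hP
      rcases hP with rfl | rfl | rfl | rfl
      · simpa using h0
      · exact h1
      · exact h2
      · rw [show x₀ + (a + c) = x₀ + a + c by ring, show y₀ + (b + d) = y₀ + b + d by ring]
        exact h3
    obtain ⟨e, f, himg⟩ : ∃ e f : ℤ, ∀ T ∈ sh,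
        ip2 T ∈ umap M.1 M.2.1 M.2.2.1 M.2.2.2 e f '' B := by
      refine ⟨-(M.1 * (x₀ + q.1) + M.2.1 * (y₀ + q.2)),
        -(M.2.2.1 * (x₀ + q.1) + M.2.2.2 * (y₀ + q.2)), ?_⟩
      intro T hT'
      obtain ⟨P, hP, hTP⟩ := hT T hT'
      exact shape_img M q P T (hpts P hP) hTP
    refine ⟨_, _, _, _, e, f, shape_WS hM, ?_⟩
    unfold shape_SZ at hsh
    simp only [List.mem_cons, List.not_mem_nil, or_false] at hsh
    rcases hsh with rfl | rfl | rfl
    · left
      refine ⟨?_, ?_, ?_, ?_⟩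
      · exact himg (0, 0) (by simp)
      · simpa using himg (1, 0) (by simp)
      · simpa using himg (0, 1) (by simp)
      · simpa using himg (1, 1) (by simp)
    · right
      left
      refine ⟨?_, ?_, ?_, ?_⟩
      · exact himg (0, 0) (by simp)
      · simpa using himg (0, 1) (by simp)
      · simpa using himg (1, -1) (by simp)
      · simpa using himg (1, 0) (by simp)
    · right
      right
      left
      refine ⟨?_, ?_, ?_, ?_⟩
      · exact himg (0, 0) (by simp)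
      · simpa using himg (0, 1) (by simp)
      · simpa using himg (1, -2) (by simp)
      · simpa using himg (1, -1) (by simp)
  · have h0 : ip2 (x₀, y₀) ∈ B := by
      have h4 : (1 / 2 : ℝ) • ip2 (x₀ + a, y₀ + b) + (1 / 2 : ℝ) • ip2 (x₀ + c, y₀ + d) ∈ B :=
        hconv h1 h2 (by norm_num) (by norm_num) (by norm_num)
      have h5 := hconv h4 h3 (show (0 : ℝ) ≤ 2 / 3 by norm_num)
        (show (0 : ℝ) ≤ 1 / 3 by norm_num) (by norm_num)
      have e : (2 / 3 : ℝ) • ((1 / 2 : ℝ) • ip2 (x₀ + a, y₀ + b) +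
          (1 / 2 : ℝ) • ip2 (x₀ + c, y₀ + d)) + (1 / 3 : ℝ) • ip2 (x₀ - a - c, y₀ - b - d) =
          ip2 (x₀, y₀) := by
        refine Prod.ext ?_ ?_
        · simp only [ip2, Prod.fst_add, Prod.smul_fst, smul_eq_mul]
          push_cast
          ring
        · simp only [ip2, Prod.snd_add, Prod.smul_snd, smul_eq_mul]
          push_cast
          ring
      rw [e] at h5
      exact h5
    have e1 : shape_ok a b := shape_bd hB h0 h1 (by ring) (by ring)
    have e2 : shape_ok c d := shape_bd hB h0 h2 (by ring) (by ring)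
    have e3 : shape_ok (a + c) (b + d) := shape_bd hB h3 h0 (by ring) (by ring)
    have e4 : shape_ok (a - c) (b - d) := shape_bd hB h2 h1 (by ring) (by ring)
    have e5 : shape_ok (2 * a + c) (2 * b + d) := shape_bd hB h3 h1 (by ring) (by ring)
    have e6 : shape_ok (a + 2 * c) (b + 2 * d) := shape_bd hB h3 h2 (by ring) (by ring)
    obtain ⟨M, hM, sh, hsh, hT⟩ := shape_checkW a (shape_mem e1.1 e1.2.1) b
      (shape_mem e1.2.2.1 e1.2.2.2.1) c (shape_mem e2.1 e2.2.1) d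
      (shape_mem e2.2.2.1 e2.2.2.2.1) ⟨hdet, e1, e2, e3, e4, e5, e6⟩
    have hpts : ∀ P ∈ shape_W a b c d, ip2 (x₀ + P.1, y₀ + P.2) ∈ B := by
      intro P hP
      unfold shape_W at hP
      simp only [List.mem_cons, List.not_mem_nil, or_false] at hP
      rcases hP with rfl | rfl | rfl
      · exact h1
      · exact h2
      · rw [show x₀ + (-a - c) = x₀ - a - c by ring, show y₀ + (-b - d) = y₀ - b - d by ring]
        exact h3
    obtain ⟨e, f, himg⟩ : ∃ e f : ℤ, ∀ T ∈ sh,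
        ip2 T ∈ umap M.1 M.2.1 M.2.2.1 M.2.2.2 e f '' B := by
      refine ⟨-(M.1 * (x₀ + (0 : ℤ × ℤ).1) + M.2.1 * (y₀ + (0 : ℤ × ℤ).2)),
        -(M.2.2.1 * (x₀ + (0 : ℤ × ℤ).1) + M.2.2.2 * (y₀ + (0 : ℤ × ℤ).2)), ?_⟩
      intro T hT'
      obtain ⟨P, hP, hTP⟩ := hT T hT'
      refine shape_img M 0 P T (hpts P hP) ?_
      rw [hTP]
      simp [shape_ap]
    refine ⟨_, _, _, _, e, f, shape_WS hM, ?_⟩
    unfold shape_SW at hsh
    simp only [List.mem_cons, List.not_mem_nil, or_false] at hsh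
    rcases hsh with rfl | rfl | rfl
    · right
      right
      right
      left
      refine ⟨?_, ?_, ?_⟩
      · have := himg (1, 0) (by simp)
        simpa using this
      · have := himg (0, 1) (by simp)
        simpa using this
      · have := himg (-1, -1) (by simp)
        simpa using this
    · right
      right
      right
      right
      left
      refine ⟨?_, ?_, ?_⟩
      · have := himg (-1, 0) (by simp)
        simpa using this
      · have := himg (0, -1) (by simp)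
        simpa using this
      · have := himg (1, 1) (by simp)
        simpa using this
    · right
      right
      right
      right
      right
      refine ⟨?_, ?_, ?_⟩
      · have := himg (1, 0) (by simp)
        simpa using this
      · have := himg (1, 1) (by simp)
        simpa using this
      · have := himg (-2, -1) (by simp)
        simpa using this

end Pool.Agent.Lib.MP_0bc52e_nt.LC
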