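import Pool.Agent.Lib.MP_0bc52e_nt.T.StmI1

namespace Pool.Agent.Lib.MP_0bc52e_nt.LC

private theorem slack_abs (n g : ℤ) (hn : 1 ≤ n) (h : 3 ≤ |g|) : 3 * n ≤ n * g ∨ n * g ≤ -(3 * n) := by
  rcases le_abs.mp h with h | h
  · left; nlinarith
  · right; nlinarith

/-- three integers, positive, with sum `3(n+1)`, none of the differences zero: each is at most `3n`. -/
private theorem slack_le (n a b c : ℤ) (ha : 1 ≤ a) (hb : 1 ≤ b) (hc : 1 ≤ c)
    (hs : a + b + c = 3 * n + 3) (h1 : a ≠ b) (h2 : a ≠ c) (h3 : b ≠ c) : a ≤ 3 * n ∧ b ≤ 3 * n ∧ c ≤ 3 * n := by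
  omega

theorem pI_slack : SI_slack := by
  intro p m n X Y s t hp hn h3 h0 h1 h
  obtain ⟨a1, a2, a3⟩ := h0
  obtain ⟨b1, b2, b3⟩ := h1
  have hA := slack_le n (X + Y - m) (X - 2 * Y - m + p) (-2 * X + Y - m + 2 * p) (by omega) (by omega) (by omega)
    (by omega) (fun h' => h3 ⟨Y, by omega⟩) (fun h' => h3 ⟨X - m + m - X + 2 * p - p + X - p, by omega⟩)
    (fun h' => h3 ⟨X - Y, by omega⟩)
  have hB := slack_le n (X + n * s + (Y + n * t) - m) (X + n * s - 2 * (Y + n * t) - m + p)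
    (-2 * (X + n * s) + (Y + n * t) - m + 2 * p) (by omega) (by omega) (by omega)
    (by omega) (fun h' => h3 ⟨Y + n * t, by omega⟩) (fun h' => h3 ⟨2 * (X + n * s) - p - (X + n * s), by omega⟩)
    (fun h' => h3 ⟨X + n * s - (Y + n * t), by omega⟩)
  rcases h with h | h | h
  · have := slack_abs n _ hn h
    rw [show n * (s + t) = n * s + n * t by ring] at this
    omega
  · have := slack_abs n _ hn h
    rw [show n * (-2 * s + t) = -2 * (n * s) + n * t by ring] at this
    omega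
  · have := slack_abs n _ hn h
    rw [show n * (s - 2 * t) = n * s - 2 * (n * t) by ring] at this
    omega

end Pool.Agent.Lib.MP_0bc52e_nt.LC
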