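import Pool.Agent.Lib.MP_0bc52e_nt.T.StmI3

/-!
# MP_0bc52e_nt : [TI slc]
-/

set_option autoImplicit false

namespace Pool.Agent.Lib.MP_0bc52e_nt.LC

private lemma slc_conv {P : Set (ℝ × ℝ × ℝ)} (hP : Convex ℝ P) (i : ℝ) :
    Convex ℝ (slice P i) := by
  intro u hu w hw a b ha hb hab
  have h := hP hu hw ha hb hab
  have he : a • ((i, u.1, u.2) : ℝ × ℝ × ℝ) + b • ((i, w.1, w.2) : ℝ × ℝ × ℝ) =
      (i, (a • u + b • w).1, (a • u + b • w).2) := by
    refine Prod.ext ?_ ?_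
    · simp only [Prod.fst_add, Prod.smul_fst, smul_eq_mul]
      rw [← add_mul, hab, one_mul]
    · rfl
  rw [he] at h
  exact h

/-- the set of the points which are on the correct side, and in `C` if they are on the face -/
private lemma slc_face {C : Set (ℝ × ℝ)} (hC : Convex ℝ C) (e i : ℝ) (he : e ≠ 0) :
    Convex ℝ {v : ℝ × ℝ × ℝ | 0 ≤ e * (v.1 - i) ∧ (v.1 = i → v.2 ∈ C)} := by
  intro u hu w hw a b ha hb hab
  have hexp : e * ((a • u + b • w).1 - i) = a * (e * (u.1 - i)) + b * (e * (w.1 - i)) := by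
    simp only [Prod.fst_add, Prod.smul_fst, smul_eq_mul]
    linear_combination (-(e * i)) * (by linarith : (1 : ℝ) = a + b)
  have h1 : 0 ≤ a * (e * (u.1 - i)) := mul_nonneg ha hu.1
  have h2 : 0 ≤ b * (e * (w.1 - i)) := mul_nonneg hb hw.1
  refine ⟨by rw [hexp]; exact add_nonneg h1 h2, fun h => ?_⟩
  have h3 : a * (e * (u.1 - i)) + b * (e * (w.1 - i)) = 0 := by
    rw [← hexp, h, sub_self, mul_zero]
  have h4 : a * (e * (u.1 - i)) = 0 := by linarith
  have h5 : b * (e * (w.1 - i)) = 0 := by linarith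
  rcases eq_or_lt_of_le ha with ha0 | ha0
  · have hb1 : b = 1 := by rw [← ha0, zero_add] at hab; exact hab
    rw [← ha0, hb1, zero_smul, zero_add, one_smul] at h ⊢
    exact hw.2 h
  · rcases eq_or_lt_of_le hb with hb0 | hb0
    · have ha1 : a = 1 := by rw [← hb0, add_zero] at hab; exact hab
      rw [← hb0, ha1, zero_smul, add_zero, one_smul] at h ⊢
      exact hu.2 h
    · have hu1 : u.1 = i := by
        have h6 := (mul_eq_zero.1 ((mul_eq_zero.1 h4).resolve_left ha0.ne')).resolve_left he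
        linarith
      have hw1 : w.1 = i := by
        have h6 := (mul_eq_zero.1 ((mul_eq_zero.1 h5).resolve_left hb0.ne')).resolve_left he
        linarith
      exact hC (hu.2 hu1) (hw.2 hw1) ha hb hab

private lemma slc_slice {P : Set (ℝ × ℝ × ℝ)} (hP : IsLP3 P) (e : ℝ) (i : ℤ) (he : e ≠ 0)
    (hside : ∀ v ∈ P, 0 ≤ e * (v.1 - i)) : IsLP2 (slice P i) := by
  classical
  obtain ⟨V, hV⟩ := hP
  refine ⟨(V.filter (fun w => w.1 = i)).image (fun w => w.2), ?_⟩
  set C := convexHull ℝ (ip2 '' (((V.filter (fun w => w.1 = i)).image (fun w => w.2) :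
    Finset (ℤ × ℤ)) : Set (ℤ × ℤ))) with hC
  have hconvP : Convex ℝ P := by
    rw [hV]
    exact convex_convexHull ℝ _
  have hmem : ∀ w ∈ V, ip w ∈ P := by
    intro w hw
    rw [hV]
    exact subset_convexHull ℝ _ ⟨w, hw, rfl⟩
  apply Set.Subset.antisymm
  · have hsub : P ⊆ {v : ℝ × ℝ × ℝ | 0 ≤ e * (v.1 - i) ∧ (v.1 = i → v.2 ∈ C)} := by
      conv_lhs => rw [hV]
      refine convexHull_min ?_ (slc_face (convex_convexHull ℝ _) e i he)
      rintro _ ⟨w, hw, rfl⟩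
      refine ⟨hside _ (hmem w hw), fun h => ?_⟩
      have h1 : w.1 = i := by
        have h2 : (w.1 : ℝ) = (i : ℝ) := h
        exact_mod_cast h2
      refine subset_convexHull ℝ _ ⟨w.2, ?_, rfl⟩
      rw [Finset.mem_coe, Finset.mem_image]
      exact ⟨w, Finset.mem_filter.2 ⟨hw, h1⟩, rfl⟩
    intro v hv
    exact (hsub hv).2 rfl
  · refine convexHull_min ?_ (slc_conv hconvP i)
    rintro _ ⟨w', hw', rfl⟩
    rw [Finset.mem_coe, Finset.mem_image] at hw'
    obtain ⟨w, hw, rfl⟩ := hw'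
    obtain ⟨hwV, hwi⟩ := Finset.mem_filter.1 hw
    have h := hmem w hwV
    show ((i : ℝ), ((w.2.1 : ℤ) : ℝ), ((w.2.2 : ℤ) : ℝ)) ∈ P
    rw [← hwi]
    exact h

private lemma slc_pc {P : Set (ℝ × ℝ × ℝ)} (hP : PC3 P) (hl : ∀ v ∈ P, 0 ≤ v.1 ∧ v.1 ≤ 1)
    (i : ℤ) (hi : i = 0 ∨ i = 1) : PC2 (slice P i) := by
  intro a b
  obtain ⟨x, y, z, hx, h1, h2, h3⟩ := hP i a b
  obtain ⟨h4, h5⟩ := hl _ hx
  have h6 : (0 : ℤ) ≤ x := by
    have : (0 : ℝ) ≤ (x : ℝ) := h4
    exact_mod_cast this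
  have h7 : x ≤ (1 : ℤ) := by
    have : (x : ℝ) ≤ 1 := h5
    exact_mod_cast this
  have hxi : x = i := by omega
  subst hxi
  exact ⟨y, z, hx, h2, h3⟩

theorem pI_slc : SI_slc := by
  intro P hP hPC hl
  have hconvP : Convex ℝ P := by
    obtain ⟨V, hV⟩ := hP
    rw [hV]
    exact convex_convexHull ℝ _
  have h0 : ((0 : ℤ) : ℝ) = 0 := Int.cast_zero
  have h1 : ((1 : ℤ) : ℝ) = 1 := Int.cast_one
  refine ⟨?_, ?_, ?_, ?_, slc_conv hconvP 0, slc_conv hconvP 1, hconvP⟩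
  · have h := slc_slice hP 1 0 one_ne_zero (fun v hv => by
      rw [h0, sub_zero, one_mul]
      exact (hl v hv).1)
    rwa [h0] at h
  · have h := slc_slice hP (-1) 1 (by norm_num) (fun v hv => by
      rw [h1]
      linarith [(hl v hv).2])
    rwa [h1] at h
  · have h := slc_pc hPC hl 0 (Or.inl rfl)
    rwa [h0] at h
  · have h := slc_pc hPC hl 1 (Or.inr rfl)
    rwa [h1] at h

end Pool.Agent.Lib.MP_0bc52e_nt.LC
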