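import Pool.Agent.Lib.MP_0bc52e_nt.T.StmI1

namespace Pool.Agent.Lib.MP_0bc52e_nt.LC

/-- [spt] -/
theorem pI_spt : SI_spt := by
  intro A m x y hA hS hm hx0 hx1 hy0 hy1
  obtain ⟨h00, h10, h01, h11⟩ := hS
  have hm' : m ≠ 0 := hm.ne'
  set s : ℝ := x / m with hs
  set t : ℝ := y / m with ht
  have s0 : 0 ≤ s := div_nonneg hx0 hm.le
  have s1 : s ≤ 1 := by rw [hs, div_le_one hm]; exact hx1
  have t0 : 0 ≤ t := div_nonneg hy0 hm.le
  have t1 : t ≤ 1 := by rw [ht, div_le_one hm]; exact hy1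
  have b0 : (s, (0 : ℝ)) ∈ A := by
    have := hA h00 h10 (sub_nonneg.2 s1) s0 (by ring)
    simpa using this
  have b1 : (s, (1 : ℝ)) ∈ A := by
    have := hA h01 h11 (sub_nonneg.2 s1) s0 (by ring)
    simpa using this
  have b2 : (s, t) ∈ A := by
    have := hA b0 b1 (sub_nonneg.2 t1) t0 (by ring)
    have e : (1 - t) • (s, (0 : ℝ)) + t • (s, (1 : ℝ)) = (s, t) := by
      simp only [Prod.smul_mk, smul_eq_mul, Prod.mk_add_mk]
      ext
      · simp only; ring
      · simp only; ring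
    rwa [e] at this
  refine ⟨_, b2, ?_, ?_⟩
  · simp only [hs]; field_simp
  · simp only [ht]; field_simp

end Pool.Agent.Lib.MP_0bc52e_nt.LC
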