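import Pool.Agent.Lib.MP_0bc52e_nt.T.StmI3

/-!
[toT] Passage to the trapezoid (MP_0bc52e_nt, `T/StmI3`).
-/

namespace Pool.Agent.Lib.MP_0bc52e_nt.LC

/-- The map of the passage. -/
def tot_k (v : ℝ × ℝ × ℝ) : ℝ × ℝ × ℝ := (1 - v.1, v.2.2 + v.1, v.2.1)

/-- Its inverse. -/
def tot_k' (v : ℝ × ℝ × ℝ) : ℝ × ℝ × ℝ := (1 - v.1, v.2.2, v.2.1 - 1 + v.1)

theorem tot_u3 : IsU3 tot_k := by
  refine ⟨⟨-1, 0, 0, 1, 1, 0, 1, 0, 0, 1, 0, 0, fun v => ?_⟩, tot_k',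
    ⟨-1, 0, 0, 1, 0, 0, 1, 0, 1, 1, 0, -1, fun v => ?_⟩, fun v => ?_, fun v => ?_⟩
  · simp only [tot_k, Prod.mk.injEq]
    refine ⟨?_, ?_, ?_⟩ <;> push_cast <;> ring
  · simp only [tot_k', Prod.mk.injEq]
    refine ⟨?_, ?_, ?_⟩ <;> push_cast <;> ring
  · simp only [tot_k, tot_k']
    ext <;> simp
  · simp only [tot_k, tot_k']
    ext <;> simp

theorem tot_conv : Convex ℝ {v : ℝ × ℝ × ℝ | 0 ≤ v.2.2 + v.1 ∧ v.2.2 ≤ 1} := by
  intro x hx y hy a b ha hb hab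
  simp only [Set.mem_ofPred_eq] at hx hy ⊢
  simp only [Prod.fst_add, Prod.snd_add, Prod.smul_fst, Prod.smul_snd, smul_eq_mul]
  constructor
  · have h1 := mul_nonneg ha hx.1
    have h2 := mul_nonneg hb hy.1
    nlinarith
  · have h1 := mul_le_mul_of_nonneg_left hx.2 ha
    have h2 := mul_le_mul_of_nonneg_left hy.2 hb
    nlinarith

theorem pI_toT : SI_toT := by
  intro P p y z hLP hst hG
  obtain ⟨hA, hB, h00, h01, ⟨t, ht⟩, ⟨t', ht'⟩, -⟩ := hG
  have hmem : ∀ v ∈ P, 0 ≤ v.2.2 + v.1 ∧ v.2.2 ≤ 1 := by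
    obtain ⟨V, hV⟩ := hLP
    have hsub : P ⊆ {v : ℝ × ℝ × ℝ | 0 ≤ v.2.2 + v.1 ∧ v.2.2 ≤ 1} := by
      rw [hV]
      refine convexHull_min ?_ tot_conv
      rintro _ ⟨w, hw, rfl⟩
      have hwP : ip w ∈ P := by
        rw [hV]; exact subset_convexHull ℝ _ ⟨w, hw, rfl⟩
      have h1 := hst _ hwP
      have h2 : (0 : ℤ) ≤ w.1 := by
        have := h1.1
        simp only [ip] at this
        exact_mod_cast this
      have h3 : w.1 ≤ 1 := by
        have := h1.2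
        simp only [ip] at this
        exact_mod_cast this
      have h4 : w.1 = 0 ∨ w.1 = 1 := by omega
      simp only [Set.mem_ofPred_eq, ip]
      rcases h4 with h4 | h4
      · have h5 : (((w.2.1 : ℤ) : ℝ), ((w.2.2 : ℤ) : ℝ)) ∈ slice P 0 := by
          simp only [slice, Set.mem_ofPred_eq]
          have : ip w = ((0 : ℝ), ((w.2.1 : ℤ) : ℝ), ((w.2.2 : ℤ) : ℝ)) := by
            simp [ip, h4]
          rw [← this]; exact hwP
        have h6 := hA _ h5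
        simp only at h6
        rw [h4]
        push_cast
        constructor <;> linarith [h6.1, h6.2]
      · have h5 : (((w.2.1 : ℤ) : ℝ), ((w.2.2 : ℤ) : ℝ)) ∈ slice P 1 := by
          simp only [slice, Set.mem_ofPred_eq]
          have : ip w = ((1 : ℝ), ((w.2.1 : ℤ) : ℝ), ((w.2.2 : ℤ) : ℝ)) := by
            simp [ip, h4]
          rw [← this]; exact hwP
        have h6 := hB _ h5
        simp only at h6
        rw [h4]
        push_cast
        constructor <;> linarith [h6.1, h6.2]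
    exact fun v hv => hsub hv
  refine ⟨tot_k, tot_u3, ⟨?_, ?_, ?_, ?_, ?_⟩, ?_⟩
  · rintro _ ⟨v, hv, rfl⟩
    have h1 := hst v hv
    have h2 := hmem v hv
    simp only [tot_k]
    push_cast
    refine ⟨by linarith [h1.2], by linarith [h1.1], h2.1, by linarith [h2.2]⟩
  · refine ⟨t, _, ht, ?_⟩
    simp [tot_k, ip, ip2]
  · refine ⟨t', _, ht', ?_⟩
    simp only [tot_k, ip, ip2, Prod.mk.injEq]
    refine ⟨?_, ?_, ?_⟩ <;> push_cast <;> norm_num
  · refine ⟨0, _, h00, ?_⟩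
    simp [tot_k, ip, ip2]
  · refine ⟨0, _, h01, ?_⟩
    simp [tot_k, ip, ip2]
  · intro a b c
    simp only [tot_k, ip, Prod.mk.injEq]
    refine ⟨?_, ?_, ?_⟩ <;> push_cast <;> ring

end Pool.Agent.Lib.MP_0bc52e_nt.LC
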