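import Pool.Agent.Lib.MP_0bc52e_nt.T.StmI3

/-!
# Piece `u3a` (conjecture (T), part I): affine automorphisms of the integer lattice
-/

set_option autoImplicit false

namespace Pool.Agent.Lib.MP_0bc52e_nt.LC

/-- composition of integral affine maps -/
theorem u3_aff_comp {g₁ g₂ : ℝ × ℝ × ℝ → ℝ × ℝ × ℝ} (h₁ : IsAff3 g₁) (h₂ : IsAff3 g₂) :
    IsAff3 (g₂ ∘ g₁) := by
  obtain ⟨a₁, a₂, a₃, a₄, b₁, b₂, b₃, b₄, c₁, c₂, c₃, c₄, h⟩ := h₁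
  obtain ⟨a₁', a₂', a₃', a₄', b₁', b₂', b₃', b₄', c₁', c₂', c₃', c₄', h'⟩ := h₂
  refine ⟨a₁' * a₁ + a₂' * b₁ + a₃' * c₁, a₁' * a₂ + a₂' * b₂ + a₃' * c₂,
    a₁' * a₃ + a₂' * b₃ + a₃' * c₃, a₁' * a₄ + a₂' * b₄ + a₃' * c₄ + a₄',
    b₁' * a₁ + b₂' * b₁ + b₃' * c₁, b₁' * a₂ + b₂' * b₂ + b₃' * c₂,
    b₁' * a₃ + b₂' * b₃ + b₃' * c₃, b₁' * a₄ + b₂' * b₄ + b₃' * c₄ + b₄',
    c₁' * a₁ + c₂' * b₁ + c₃' * c₁, c₁' * a₂ + c₂' * b₂ + c₃' * c₂,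
    c₁' * a₃ + c₂' * b₃ + c₃' * c₃, c₁' * a₄ + c₂' * b₄ + c₃' * c₄ + c₄', ?_⟩
  intro v
  simp only [Function.comp_apply, h', h]
  push_cast
  ext <;> simp <;> ring

/-- integral affine maps send integer points to integer points -/
theorem u3_aff_ip {g : ℝ × ℝ × ℝ → ℝ × ℝ × ℝ} (h : IsAff3 g) (w : ℤ × ℤ × ℤ) :
    ∃ w' : ℤ × ℤ × ℤ, g (ip w) = ip w' := by
  obtain ⟨a₁, a₂, a₃, a₄, b₁, b₂, b₃, b₄, c₁, c₂, c₃, c₄, h⟩ := h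
  refine ⟨(a₁ * w.1 + a₂ * w.2.1 + a₃ * w.2.2 + a₄, b₁ * w.1 + b₂ * w.2.1 + b₃ * w.2.2 + b₄,
    c₁ * w.1 + c₂ * w.2.1 + c₃ * w.2.2 + c₄), ?_⟩
  rw [h]
  simp [ip]

theorem pI_u3a : SI_u3a := by
  refine ⟨?_, ?_, ?_⟩
  · have hid : IsAff3 id := ⟨1, 0, 0, 0, 0, 1, 0, 0, 0, 0, 1, 0, fun v => by simp⟩
    exact ⟨hid, id, hid, fun v => rfl, fun v => rfl⟩
  · rintro g₁ g₂ ⟨h₁, g₁', h₁', l₁, r₁⟩ ⟨h₂, g₂', h₂', l₂, r₂⟩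
    refine ⟨u3_aff_comp h₁ h₂, g₁' ∘ g₂', u3_aff_comp h₂' h₁', fun v => ?_, fun v => ?_⟩
    · simp only [Function.comp_apply, l₂, l₁]
    · simp only [Function.comp_apply, r₁, r₂]
  · intro g hg a b c
    obtain ⟨w', hw'⟩ := u3_aff_ip hg.1 (a, b, c)
    exact ⟨w'.1, w'.2.1, w'.2.2, hw'⟩

end Pool.Agent.Lib.MP_0bc52e_nt.LC
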