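import Pool.Agent.Lib.MP_0bc52e_nt.T.StmI3

/-!
# Piece `u3b` (conjecture (T), part I): images under lattice automorphisms
-/

set_option autoImplicit false

namespace Pool.Agent.Lib.MP_0bc52e_nt.LC

private noncomputable def u3b_aff (a₁ a₂ a₃ a₄ b₁ b₂ b₃ b₄ c₁ c₂ c₃ c₄ : ℝ) :
    (ℝ × ℝ × ℝ) →ᵃ[ℝ] (ℝ × ℝ × ℝ) :=
  ((a₁ • LinearMap.fst ℝ ℝ (ℝ × ℝ) + a₂ • (LinearMap.fst ℝ ℝ ℝ).comp (LinearMap.snd ℝ ℝ (ℝ × ℝ)) +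
      a₃ • (LinearMap.snd ℝ ℝ ℝ).comp (LinearMap.snd ℝ ℝ (ℝ × ℝ))).prod
    ((b₁ • LinearMap.fst ℝ ℝ (ℝ × ℝ) + b₂ • (LinearMap.fst ℝ ℝ ℝ).comp (LinearMap.snd ℝ ℝ (ℝ × ℝ)) +
      b₃ • (LinearMap.snd ℝ ℝ ℝ).comp (LinearMap.snd ℝ ℝ (ℝ × ℝ))).prod
    (c₁ • LinearMap.fst ℝ ℝ (ℝ × ℝ) + c₂ • (LinearMap.fst ℝ ℝ ℝ).comp (LinearMap.snd ℝ ℝ (ℝ × ℝ)) +
      c₃ • (LinearMap.snd ℝ ℝ ℝ).comp (LinearMap.snd ℝ ℝ (ℝ × ℝ))))).toAffineMap +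
    AffineMap.const ℝ (ℝ × ℝ × ℝ) (a₄, b₄, c₄)

private theorem u3b_aff_apply (a₁ a₂ a₃ a₄ b₁ b₂ b₃ b₄ c₁ c₂ c₃ c₄ : ℝ) (v : ℝ × ℝ × ℝ) :
    u3b_aff a₁ a₂ a₃ a₄ b₁ b₂ b₃ b₄ c₁ c₂ c₃ c₄ v =
      (a₁ * v.1 + a₂ * v.2.1 + a₃ * v.2.2 + a₄, b₁ * v.1 + b₂ * v.2.1 + b₃ * v.2.2 + b₄,
        c₁ * v.1 + c₂ * v.2.1 + c₃ * v.2.2 + c₄) := by
  simp [u3b_aff]

theorem pI_u3b : SI_u3b := by
  rintro g ⟨⟨a₁, a₂, a₃, a₄, b₁, b₂, b₃, b₄, c₁, c₂, c₃, c₄, h⟩, g',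
    ⟨a₁', a₂', a₃', a₄', b₁', b₂', b₃', b₄', c₁', c₂', c₃', c₄', h'⟩, hl, hr⟩ P
  have hG : g = u3b_aff a₁ a₂ a₃ a₄ b₁ b₂ b₃ b₄ c₁ c₂ c₃ c₄ := by
    funext v
    rw [h, u3b_aff_apply]
  refine ⟨?_, ?_, ?_⟩
  · rintro ⟨V, rfl⟩
    refine ⟨V.image (fun w : ℤ × ℤ × ℤ => (a₁ * w.1 + a₂ * w.2.1 + a₃ * w.2.2 + a₄,
      b₁ * w.1 + b₂ * w.2.1 + b₃ * w.2.2 + b₄, c₁ * w.1 + c₂ * w.2.1 + c₃ * w.2.2 + c₄)), ?_⟩
    rw [hG, AffineMap.image_convexHull, Finset.coe_image, Set.image_image, Set.image_image]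
    congr 1
    refine Set.image_congr fun w _ => ?_
    rw [u3b_aff_apply]
    simp [ip]
  · intro hP a b c
    obtain ⟨x, y, z, hxyz, hx, hy, hz⟩ := hP (a₁' * a + a₂' * b + a₃' * c + a₄')
      (b₁' * a + b₂' * b + b₃' * c + b₄') (c₁' * a + c₂' * b + c₃' * c + c₄')
    have key := hr (ip (a, b, c))
    rw [h', h] at key
    simp only [ip, Prod.mk.injEq] at key
    obtain ⟨k1, k2, k3⟩ := key
    have k1' : a₁ * (a₁' * a + a₂' * b + a₃' * c + a₄') + a₂ * (b₁' * a + b₂' * b + b₃' * c + b₄') +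
      a₃ * (c₁' * a + c₂' * b + c₃' * c + c₄') + a₄ = a := by exact_mod_cast k1
    have k2' : b₁ * (a₁' * a + a₂' * b + a₃' * c + a₄') + b₂ * (b₁' * a + b₂' * b + b₃' * c + b₄') +
      b₃ * (c₁' * a + c₂' * b + c₃' * c + c₄') + b₄ = b := by exact_mod_cast k2
    have k3' : c₁ * (a₁' * a + a₂' * b + a₃' * c + a₄') + c₂ * (b₁' * a + b₂' * b + b₃' * c + b₄') +
      c₃ * (c₁' * a + c₂' * b + c₃' * c + c₄') + c₄ = c := by exact_mod_cast k3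
    refine ⟨a₁ * x + a₂ * y + a₃ * z + a₄, b₁ * x + b₂ * y + b₃ * z + b₄,
      c₁ * x + c₂ * y + c₃ * z + c₄, ⟨ip (x, y, z), hxyz, ?_⟩, ?_, ?_, ?_⟩
    · rw [h]
      simp [ip]
    · have : a₁ * x + a₂ * y + a₃ * z + a₄ - a =
        a₁ * (x - (a₁' * a + a₂' * b + a₃' * c + a₄')) + a₂ * (y - (b₁' * a + b₂' * b + b₃' * c + b₄')) +
        a₃ * (z - (c₁' * a + c₂' * b + c₃' * c + c₄')) := by linear_combination k1'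
      rw [this]
      exact dvd_add (dvd_add (hx.mul_left _) (hy.mul_left _)) (hz.mul_left _)
    · have : b₁ * x + b₂ * y + b₃ * z + b₄ - b =
        b₁ * (x - (a₁' * a + a₂' * b + a₃' * c + a₄')) + b₂ * (y - (b₁' * a + b₂' * b + b₃' * c + b₄')) +
        b₃ * (z - (c₁' * a + c₂' * b + c₃' * c + c₄')) := by linear_combination k2'
      rw [this]
      exact dvd_add (dvd_add (hx.mul_left _) (hy.mul_left _)) (hz.mul_left _)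
    · have : c₁ * x + c₂ * y + c₃ * z + c₄ - c =
        c₁ * (x - (a₁' * a + a₂' * b + a₃' * c + a₄')) + c₂ * (y - (b₁' * a + b₂' * b + b₃' * c + b₄')) +
        c₃ * (z - (c₁' * a + c₂' * b + c₃' * c + c₄')) := by linear_combination k3'
      rw [this]
      exact dvd_add (dvd_add (hx.mul_left _) (hy.mul_left _)) (hz.mul_left _)
  · intro hP
    rw [hG]
    exact hP.affine_image _

end Pool.Agent.Lib.MP_0bc52e_nt.LC
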