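import Pool.Agent.Lib.MP_0bc52e_nt.T.I.u3a

/-!
# Piece `u3d` (conjecture (T), part I): lattice automorphisms give integer equivalences
-/

set_option autoImplicit false

namespace Pool.Agent.Lib.MP_0bc52e_nt.LC

private noncomputable def u3d_aff (a₁ a₂ a₃ a₄ b₁ b₂ b₃ b₄ c₁ c₂ c₃ c₄ : ℝ) :
    (ℝ × ℝ × ℝ) →ᵃ[ℝ] (ℝ × ℝ × ℝ) :=
  ((a₁ • LinearMap.fst ℝ ℝ (ℝ × ℝ) + a₂ • (LinearMap.fst ℝ ℝ ℝ).comp (LinearMap.snd ℝ ℝ (ℝ × ℝ)) +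
      a₃ • (LinearMap.snd ℝ ℝ ℝ).comp (LinearMap.snd ℝ ℝ (ℝ × ℝ))).prod
    ((b₁ • LinearMap.fst ℝ ℝ (ℝ × ℝ) + b₂ • (LinearMap.fst ℝ ℝ ℝ).comp (LinearMap.snd ℝ ℝ (ℝ × ℝ)) +
      b₃ • (LinearMap.snd ℝ ℝ ℝ).comp (LinearMap.snd ℝ ℝ (ℝ × ℝ))).prod
    (c₁ • LinearMap.fst ℝ ℝ (ℝ × ℝ) + c₂ • (LinearMap.fst ℝ ℝ ℝ).comp (LinearMap.snd ℝ ℝ (ℝ × ℝ)) +
      c₃ • (LinearMap.snd ℝ ℝ ℝ).comp (LinearMap.snd ℝ ℝ (ℝ × ℝ))))).toAffineMap +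
    AffineMap.const ℝ (ℝ × ℝ × ℝ) (a₄, b₄, c₄)

private theorem u3d_aff_apply (a₁ a₂ a₃ a₄ b₁ b₂ b₃ b₄ c₁ c₂ c₃ c₄ : ℝ) (v : ℝ × ℝ × ℝ) :
    u3d_aff a₁ a₂ a₃ a₄ b₁ b₂ b₃ b₄ c₁ c₂ c₃ c₄ v =
      (a₁ * v.1 + a₂ * v.2.1 + a₃ * v.2.2 + a₄, b₁ * v.1 + b₂ * v.2.1 + b₃ * v.2.2 + b₄,
        c₁ * v.1 + c₂ * v.2.1 + c₃ * v.2.2 + c₄) := by
  simp [u3d_aff]

theorem pI_u3d : SI_u3d := by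
  rintro g ⟨hg, g', hg', hl, hr⟩ P
  have hg0 := hg
  obtain ⟨a₁, a₂, a₃, a₄, b₁, b₂, b₃, b₄, c₁, c₂, c₃, c₄, h⟩ := hg0
  have hG : ∀ v, u3d_aff a₁ a₂ a₃ a₄ b₁ b₂ b₃ b₄ c₁ c₂ c₃ c₄ v = g v := by
    intro v
    rw [h, u3d_aff_apply]
  have hbij : Function.Bijective (u3d_aff a₁ a₂ a₃ a₄ b₁ b₂ b₃ b₄ c₁ c₂ c₃ c₄) := by
    have : (u3d_aff a₁ a₂ a₃ a₄ b₁ b₂ b₃ b₄ c₁ c₂ c₃ c₄ : ℝ × ℝ × ℝ → ℝ × ℝ × ℝ) = g := funext hG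
    rw [this]
    exact ⟨Function.LeftInverse.injective hl, Function.RightInverse.surjective hr⟩
  have hE : ∀ v, AffineEquiv.ofBijective hbij v = g v := fun v => hG v
  refine ⟨AffineEquiv.ofBijective hbij, fun v => ?_, ?_⟩
  · rw [hE]
    constructor
    · rintro ⟨w, hw⟩
      obtain ⟨w', hw'⟩ := u3_aff_ip hg' w
      exact ⟨w', by rw [← hl v, hw, hw']⟩
    · rintro ⟨w, rfl⟩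
      exact u3_aff_ip hg w
  · exact Set.image_congr fun v _ => hE v

end Pool.Agent.Lib.MP_0bc52e_nt.LC
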