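import Pool.Agent.Lib.MP_0bc52e_nt.T.I.u3a

/-!
# Piece `u3e` (conjecture (T), part I): lattice automorphisms and hollow sets
-/

set_option autoImplicit false

namespace Pool.Agent.Lib.MP_0bc52e_nt.LC

private theorem u3e_cont {g : ℝ × ℝ × ℝ → ℝ × ℝ × ℝ} (hg : IsAff3 g) : Continuous g := by
  obtain ⟨a₁, a₂, a₃, a₄, b₁, b₂, b₃, b₄, c₁, c₂, c₃, c₄, h⟩ := hg
  have : g = fun v : ℝ × ℝ × ℝ => (a₁ * v.1 + a₂ * v.2.1 + a₃ * v.2.2 + a₄,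
      b₁ * v.1 + b₂ * v.2.1 + b₃ * v.2.2 + b₄, c₁ * v.1 + c₂ * v.2.1 + c₃ * v.2.2 + c₄) := funext h
  rw [this]
  fun_prop

theorem pI_u3e : SI_u3e := by
  rintro g ⟨hg, g', hg', hl, hr⟩ P hP x y z hxyz
  let G : (ℝ × ℝ × ℝ) ≃ₜ (ℝ × ℝ × ℝ) :=
    { toFun := g, invFun := g', left_inv := hl, right_inv := hr,
      continuous_toFun := u3e_cont hg, continuous_invFun := u3e_cont hg' }
  have h1 : interior (g '' P) = g '' interior P := (G.image_interior P).symm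
  rw [h1] at hxyz
  obtain ⟨v, hv, hgv⟩ := hxyz
  obtain ⟨w', hw'⟩ := u3_aff_ip hg' (x, y, z)
  have h2 : v = ip w' := by rw [← hl v, hgv, hw']
  rw [h2] at hv
  exact hP w'.1 w'.2.1 w'.2.2 hv

end Pool.Agent.Lib.MP_0bc52e_nt.LC
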