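import Pool.Agent.Lib.MP_0bc52e_nt.T.StmI1

set_option autoImplicit false

namespace Pool.Agent.Lib.MP_0bc52e_nt.LC

private theorem upc_comp (a₁ b₁ c₁ d₁ e₁ f₁ a b c d e f : ℤ) (S : Set (ℝ × ℝ)) :
    umap a₁ b₁ c₁ d₁ e₁ f₁ '' (umap a b c d e f '' S) =
      umap (a₁ * a + b₁ * c) (a₁ * b + b₁ * d) (c₁ * a + d₁ * c) (c₁ * b + d₁ * d)
        (a₁ * e + b₁ * f + e₁) (c₁ * e + d₁ * f + f₁) '' S := by
  rw [Set.image_image]
  refine Set.image_congr fun v _ => ?_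
  simp only [umap]
  push_cast
  ext
  · simp only
    ring
  · simp only
    ring

theorem pI_upc : SI_upc := by
  intro Q A B m n y z a b c d e f e' f' hdet h
  obtain ⟨a₁, b₁, c₁, d₁, e₁, f₁, e₁', f₁', hdet₁, hQ⟩ := h
  refine ⟨a₁ * a + b₁ * c, a₁ * b + b₁ * d, c₁ * a + d₁ * c, c₁ * b + d₁ * d,
    a₁ * e + b₁ * f + e₁, c₁ * e + d₁ * f + f₁, a₁ * e' + b₁ * f' + e₁',
    c₁ * e' + d₁ * f' + f₁', ?_, ?_⟩
  · have hm : (a₁ * a + b₁ * c) * (c₁ * b + d₁ * d) - (a₁ * b + b₁ * d) * (c₁ * a + d₁ * c) =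
        (a₁ * d₁ - b₁ * c₁) * (a * d - b * c) := by ring
    rw [hm]
    rcases hdet₁ with h1 | h1 <;> rcases hdet with h2 | h2 <;> rw [h1, h2] <;> simp
  · rw [upc_comp, upc_comp] at hQ
    have e1 : a₁ * (a * y + b * z + ↑m * e + ↑n * e') + b₁ * (c * y + d * z + ↑m * f + ↑n * f') +
        ↑m * e₁ + ↑n * e₁' = (a₁ * a + b₁ * c) * y + (a₁ * b + b₁ * d) * z +
        ↑m * (a₁ * e + b₁ * f + e₁) + ↑n * (a₁ * e' + b₁ * f' + e₁') := by ring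
    have e2 : c₁ * (a * y + b * z + ↑m * e + ↑n * e') + d₁ * (c * y + d * z + ↑m * f + ↑n * f') +
        ↑m * f₁ + ↑n * f₁' = (c₁ * a + d₁ * c) * y + (c₁ * b + d₁ * d) * z +
        ↑m * (c₁ * e + d₁ * f + f₁) + ↑n * (c₁ * e' + d₁ * f' + f₁') := by ring
    rw [e1, e2] at hQ
    exact hQ

end Pool.Agent.Lib.MP_0bc52e_nt.LC
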