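import Pool.Agent.Lib.MP_0bc52e_nt.T.StmI1

namespace Pool.Agent.Lib.MP_0bc52e_nt.LC

/-- [wpt] -/
theorem pI_wpt : SI_wpt := by
  intro A m x y hA hW hm h1 h2 h3
  obtain ⟨hp, hq, hr⟩ := hW
  have hm' : m ≠ 0 := hm.ne'
  -- barycentric coordinates
  set w1 : ℝ := (1 - (x + y) / m) / 3 with hw1
  set w2 : ℝ := (1 - (-2 * x + y) / m) / 3 with hw2
  set w3 : ℝ := (1 - (x - 2 * y) / m) / 3 with hw3
  have k1 : (x + y) / m ≤ 1 := by rw [div_le_one hm]; exact h1
  have k2 : (-2 * x + y) / m ≤ 1 := by rw [div_le_one hm]; exact h2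
  have k3 : (x - 2 * y) / m ≤ 1 := by rw [div_le_one hm]; exact h3
  have n1 : 0 ≤ w1 := by rw [hw1]; linarith
  have n2 : 0 ≤ w2 := by rw [hw2]; linarith
  have n3 : 0 ≤ w3 := by rw [hw3]; linarith
  have hs : w1 + w2 + w3 = 1 := by
    rw [hw1, hw2, hw3]; field_simp; ring
  have hmem : w1 • ((-1 : ℝ), (-1 : ℝ)) + w2 • ((1 : ℝ), (0 : ℝ)) + w3 • ((0 : ℝ), (1 : ℝ)) ∈ A := by
    have := hA.sum_mem (t := (Finset.univ : Finset (Fin 3))) (w := ![w1, w2, w3])
      (z := ![((-1 : ℝ), (-1 : ℝ)), ((1 : ℝ), (0 : ℝ)), ((0 : ℝ), (1 : ℝ))])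
      (by
        intro i _
        fin_cases i
        · exact n1
        · exact n2
        · exact n3)
      (by simp [Fin.sum_univ_three, hs])
      (by
        intro i _
        fin_cases i
        · exact hr
        · exact hp
        · exact hq)
    simpa [Fin.sum_univ_three] using this
  refine ⟨_, hmem, ?_, ?_⟩
  · simp only [Prod.smul_mk, smul_eq_mul, Prod.mk_add_mk, hw1, hw2, hw3]
    field_simp
    ring
  · simp only [Prod.smul_mk, smul_eq_mul, Prod.mk_add_mk, hw1, hw2, hw3]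
    field_simp
    ring

end Pool.Agent.Lib.MP_0bc52e_nt.LC
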