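import Pool.Agent.Lib.MP_0bc52e_nt.LC.All
import Pool.Agent.Lib.MP_0bc52e_nt.T.I.ptconv
import Pool.Agent.Lib.MP_0bc52e_nt.T.I.avdres
import Pool.Agent.Lib.MP_0bc52e_nt.T.I.colm
import Pool.Agent.Lib.MP_0bc52e_nt.T.I.colm2
import Pool.Agent.Lib.MP_0bc52e_nt.T.I.wpt
import Pool.Agent.Lib.MP_0bc52e_nt.T.I.spt
import Pool.Agent.Lib.MP_0bc52e_nt.T.I.pcmin
import Pool.Agent.Lib.MP_0bc52e_nt.T.I.avdmap
import Pool.Agent.Lib.MP_0bc52e_nt.T.I.umim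
import Pool.Agent.Lib.MP_0bc52e_nt.T.I.upc
import Pool.Agent.Lib.MP_0bc52e_nt.T.I.fra
import Pool.Agent.Lib.MP_0bc52e_nt.T.I.hole
import Pool.Agent.Lib.MP_0bc52e_nt.T.I.exit
import Pool.Agent.Lib.MP_0bc52e_nt.T.I.slack
import Pool.Agent.Lib.MP_0bc52e_nt.T.I.diff3
import Pool.Agent.Lib.MP_0bc52e_nt.T.I.WL1
import Pool.Agent.Lib.MP_0bc52e_nt.T.I.Wfull
import Pool.Agent.Lib.MP_0bc52e_nt.T.I.frsym
import Pool.Agent.Lib.MP_0bc52e_nt.T.I.gap0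
import Pool.Agent.Lib.MP_0bc52e_nt.T.I.E1
import Pool.Agent.Lib.MP_0bc52e_nt.T.I.E2
import Pool.Agent.Lib.MP_0bc52e_nt.T.I.E3
import Pool.Agent.Lib.MP_0bc52e_nt.T.I.E4
import Pool.Agent.Lib.MP_0bc52e_nt.T.I.X
import Pool.Agent.Lib.MP_0bc52e_nt.T.I.segh
import Pool.Agent.Lib.MP_0bc52e_nt.T.I.seg1
import Pool.Agent.Lib.MP_0bc52e_nt.T.I.bd
import Pool.Agent.Lib.MP_0bc52e_nt.T.I.shape
import Pool.Agent.Lib.MP_0bc52e_nt.T.I.W3s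
import Pool.Agent.Lib.MP_0bc52e_nt.T.I.CW
import Pool.Agent.Lib.MP_0bc52e_nt.T.I.CZ0
import Pool.Agent.Lib.MP_0bc52e_nt.T.I.CZ2
import Pool.Agent.Lib.MP_0bc52e_nt.T.I.CZ3
import Pool.Agent.Lib.MP_0bc52e_nt.T.I.CmW
import Pool.Agent.Lib.MP_0bc52e_nt.T.I.CX
import Pool.Agent.Lib.MP_0bc52e_nt.T.I.WL2
import Pool.Agent.Lib.MP_0bc52e_nt.T.I.WLm
import Pool.Agent.Lib.MP_0bc52e_nt.T.I.WW4
import Pool.Agent.Lib.MP_0bc52e_nt.T.I.plane2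
import Pool.Agent.Lib.MP_0bc52e_nt.T.I.WW
import Pool.Agent.Lib.MP_0bc52e_nt.T.I.Q
import Pool.Agent.Lib.MP_0bc52e_nt.T.I.VC
import Pool.Agent.Lib.MP_0bc52e_nt.T.I.SGd
import Pool.Agent.Lib.MP_0bc52e_nt.T.I.SG
import Pool.Agent.Lib.MP_0bc52e_nt.T.I.IN1
import Pool.Agent.Lib.MP_0bc52e_nt.T.I.IN2
import Pool.Agent.Lib.MP_0bc52e_nt.T.I.ZA
import Pool.Agent.Lib.MP_0bc52e_nt.T.I.ZAW
import Pool.Agent.Lib.MP_0bc52e_nt.T.I.NFZ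
import Pool.Agent.Lib.MP_0bc52e_nt.T.I.NFW
import Pool.Agent.Lib.MP_0bc52e_nt.T.I.S4sq
import Pool.Agent.Lib.MP_0bc52e_nt.T.I.ZN
import Pool.Agent.Lib.MP_0bc52e_nt.T.I.ZW
import Pool.Agent.Lib.MP_0bc52e_nt.T.I.ZFZ
import Pool.Agent.Lib.MP_0bc52e_nt.T.I.ZFW
import Pool.Agent.Lib.MP_0bc52e_nt.T.I.EXZ
import Pool.Agent.Lib.MP_0bc52e_nt.T.I.EXW
import Pool.Agent.Lib.MP_0bc52e_nt.T.I.ZL
import Pool.Agent.Lib.MP_0bc52e_nt.T.I.L4B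
import Pool.Agent.Lib.MP_0bc52e_nt.T.I.L4A
import Pool.Agent.Lib.MP_0bc52e_nt.T.I.Gd
import Pool.Agent.Lib.MP_0bc52e_nt.T.I.PL
import Pool.Agent.Lib.MP_0bc52e_nt.T.I.slc
import Pool.Agent.Lib.MP_0bc52e_nt.T.I.cavd
import Pool.Agent.Lib.MP_0bc52e_nt.T.I.lvm
import Pool.Agent.Lib.MP_0bc52e_nt.T.I.flm
import Pool.Agent.Lib.MP_0bc52e_nt.T.I.u3a
import Pool.Agent.Lib.MP_0bc52e_nt.T.I.u3b
import Pool.Agent.Lib.MP_0bc52e_nt.T.I.u3c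
import Pool.Agent.Lib.MP_0bc52e_nt.T.I.u3d
import Pool.Agent.Lib.MP_0bc52e_nt.T.I.u3e
import Pool.Agent.Lib.MP_0bc52e_nt.T.I.cres
import Pool.Agent.Lib.MP_0bc52e_nt.T.I.N7s
import Pool.Agent.Lib.MP_0bc52e_nt.T.I.toT
import Pool.Agent.Lib.MP_0bc52e_nt.T.I.I0
import Pool.Agent.Lib.MP_0bc52e_nt.T.I.I
import Pool.Agent.Lib.MP_0bc52e_nt.T.I.hit
import Pool.Agent.Lib.MP_0bc52e_nt.T.I.cas
import Pool.Agent.Lib.MP_0bc52e_nt.T.I.R2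
import Pool.Agent.Lib.MP_0bc52e_nt.T.I.int
import Pool.Agent.Lib.MP_0bc52e_nt.T.I.cone
import Pool.Agent.Lib.MP_0bc52e_nt.T.I.cross
import Pool.Agent.Lib.MP_0bc52e_nt.T.I.negZ
import Pool.Agent.Lib.MP_0bc52e_nt.T.I.negW
import Pool.Agent.Lib.MP_0bc52e_nt.T.I.WID

/-!
Assembly of part I of (T) (MP_0bc52e_nt): polytopes of width one, and hollow polytopes that contain
a polytope of width one meeting all classes modulo 2.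
-/

namespace Pool.Agent.Lib.MP_0bc52e_nt.LC

lemma qI_ptconv : SI_ptconv := pI_ptconv 
lemma qI_avdres : SI_avdres := pI_avdres 
lemma qI_colm : SI_colm := pI_colm q_res qI_ptconv
lemma qI_colm2 : SI_colm2 := pI_colm2 q_res qI_ptconv
lemma qI_wpt : SI_wpt := pI_wpt 
lemma qI_spt : SI_spt := pI_spt 
lemma qI_pcmin : SI_pcmin := pI_pcmin q_SW q_um
lemma qI_avdmap : SI_avdmap := pI_avdmap 
lemma qI_umim : SI_umim := pI_umim q_umconv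
lemma qI_upc : SI_upc := pI_upc 
lemma qI_fra : SI_fra := pI_fra qI_wpt
lemma qI_hole : SI_hole := pI_hole 
lemma qI_exit : SI_exit := pI_exit 
lemma qI_slack : SI_slack := pI_slack 
lemma qI_diff3 : SI_diff3 := pI_diff3 
lemma qI_Wfull : SI_Wfull := pI_Wfull 
lemma qI_frsym : SI_frsym := pI_frsym 
lemma qI_gap0 : SI_gap0 := pI_gap0 
lemma qI_E1 : SI_E1 := pI_E1 
lemma qI_E2 : SI_E2 := pI_E2 
lemma qI_E3 : SI_E3 := pI_E3 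
lemma qI_E4 : SI_E4 := pI_E4 
lemma qI_X : SI_X := pI_X qI_gap0 qI_E1 qI_E4 qI_frsym
lemma qI_segh : SI_segh := pI_segh qI_E1 qI_E2 qI_E3
lemma qI_seg1 : SI_seg1 := pI_seg1 qI_gap0 qI_frsym qI_X qI_segh
lemma qI_bd : SI_bd := pI_bd qI_fra qI_seg1 qI_frsym
lemma qI_shape : SI_shape := pI_shape 
lemma qI_W3s : SI_W3s := pI_W3s 
lemma qI_CW : SI_CW := pI_CW qI_Wfull qI_wpt
lemma qI_CZ0 : SI_CZ0 := pI_CZ0 q_res qI_colm qI_colm2 qI_wpt qI_spt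
lemma qI_CZ2 : SI_CZ2 := pI_CZ2 q_res qI_colm qI_colm2 qI_wpt
lemma qI_CZ3 : SI_CZ3 := pI_CZ3 q_res qI_colm qI_wpt
lemma qI_CmW : SI_CmW := pI_CmW q_res qI_colm qI_wpt
lemma qI_CX : SI_CX := pI_CX q_res qI_colm qI_wpt
lemma qI_WL2 : SI_WL2 := pI_WL2 qI_bd qI_pcmin qI_shape qI_avdmap qI_W3s qI_umim qI_CZ0 qI_CZ2 qI_CZ3 qI_CW qI_CmW qI_CX
lemma qI_WW4 : SI_WW4 := pI_WW4 
lemma qI_plane2 : SI_plane2 := pI_plane2 q_SW q_Wr q_um q_umconv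
lemma qI_WW : SI_WW := pI_WW qI_WW4 qI_plane2
lemma qI_Q : SI_Q := pI_Q qI_spt
lemma qI_VC : SI_VC := pI_VC 
lemma qI_SGd : SI_SGd := pI_SGd 
lemma qI_SG : SI_SG := pI_SG qI_VC qI_SGd
lemma qI_IN1 : SI_IN1 := pI_IN1 qI_VC
lemma qI_IN2 : SI_IN2 := pI_IN2 qI_VC
lemma qI_ZA : SI_ZA := pI_ZA 
lemma qI_ZAW : SI_ZAW := pI_ZAW 
lemma qI_NFZ : SI_NFZ := pI_NFZ 
lemma qI_NFW : SI_NFW := pI_NFW 
lemma qI_S4sq : SI_S4sq := pI_S4sq 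
lemma qI_ZN : SI_ZN := pI_ZN q_res qI_spt
lemma qI_ZW : SI_ZW := pI_ZW 
lemma qI_ZFZ : SI_ZFZ := pI_ZFZ qI_SG qI_IN1 qI_IN2 qI_ZA
lemma qI_ZFW : SI_ZFW := pI_ZFW qI_SG qI_IN1 qI_IN2 qI_ZAW
lemma qI_EXZ : SI_EXZ := pI_EXZ 
lemma qI_EXW : SI_EXW := pI_EXW 
lemma qI_ZL : SI_ZL := pI_ZL qI_pcmin qI_NFZ qI_NFW qI_S4sq qI_ZN qI_Q qI_ZW qI_ZFZ qI_ZFW qI_EXZ qI_EXW qI_avdmap qI_avdres qI_upc qI_umim
lemma qI_4B : SI_4B := pI_4B qI_Q qI_VC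
lemma qI_slc : SI_slc := pI_slc 
lemma qI_cavd : SI_cavd := pI_cavd 
lemma qI_lvm : SI_lvm := pI_lvm 
lemma qI_flm : SI_flm := pI_flm 
lemma qI_u3a : SI_u3a := pI_u3a 
lemma qI_u3b : SI_u3b := pI_u3b 
lemma qI_u3c : SI_u3c := pI_u3c 
lemma qI_u3d : SI_u3d := pI_u3d 
lemma qI_u3e : SI_u3e := pI_u3e 
lemma qI_cres : SI_cres := pI_cres 
lemma qI_N7s : SI_N7s := pI_N7s q_pair q_only q_edge
lemma qI_toT : SI_toT := pI_toT 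
lemma qI_hit : SI_hit := pI_hit 
lemma qI_cas : SI_cas := pI_cas 
lemma qI_R2 : SI_R2 := pI_R2 
lemma qI_int : SI_int := pI_int 
lemma qI_cone : SI_cone := pI_cone 
lemma qI_cross : SI_cross := pI_cross 
lemma qI_negZ : SI_negZ := pI_negZ qI_int qI_cone qI_cross
lemma qI_negW : SI_negW := pI_negW qI_int
lemma qI_WL1 : SI_WL1 := pI_WL1 qI_fra qI_hole qI_exit qI_slack qI_diff3 qI_frsym
lemma qI_WLm : SI_WLm := pI_WLm qI_WL1 qI_WL2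
lemma qI_4A : SI_4A := pI_4A q_row q_row2 q_um qI_WL1 qI_avdmap qI_umim
lemma qI_Gd : SI_Gd := pI_Gd qI_4A qI_4B
lemma qI_PL : SI_PL := pI_PL q_SW q_um qI_ZL qI_WLm qI_WW qI_pcmin qI_Gd qI_avdmap qI_avdres qI_upc qI_umim
lemma qI_I0 : SI_I0 := pI_I0 qI_slc qI_cavd qI_avdres qI_PL qI_lvm qI_toT qI_u3a qI_u3b qI_u3c qI_N7s q_edge
lemma qI_I : SI_I := pI_I q_N5 qI_I0 qI_flm qI_u3a qI_u3b qI_u3c qI_slc
lemma qI_WID : SI_WID := pI_WID qI_I qI_u3a qI_u3b qI_u3c qI_u3d qI_u3e qI_cres qI_R2 qI_cas qI_hit qI_negZ qI_negW q_zeq q_pair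

end Pool.Agent.Lib.MP_0bc52e_nt.LC
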