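import Pool.Agent.Lib.MP_0bc52e_nt.T.StmI2

/-!
# Polytopes of width one, piece NFZ (MP_0bc52e_nt)
-/

namespace Pool.Agent.Lib.MP_0bc52e_nt.LC

private theorem nfz_mem {B : Set (ℝ × ℝ)} {u v u' v' : ℤ} (h : ip2 (u, v) ∈ B) (e1 : u' = u)
    (e2 : v' = v) : ip2 (u', v') ∈ B := by
  rw [e1, e2]; exact h

private theorem nfz_img {B : Set (ℝ × ℝ)} {a b c d u v u' v' : ℤ} (h : ip2 (u, v) ∈ B)
    (e1 : u' = a * u + b * v) (e2 : v' = c * u + d * v) :
    ip2 (u', v') ∈ umap a b c d 0 0 '' B := by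
  refine ⟨ip2 (u, v), h, ?_⟩
  rw [e1, e2]
  simp only [umap, ip2]
  push_cast
  simp

private theorem nfz_map {B : Set (ℝ × ℝ)} {x y a b c d : ℤ} (a' b' c' d' : ℤ)
    (h : Zt B x y a b c d) :
    Zt (umap a' b' c' d' 0 0 '' B) (a' * x + b' * y) (c' * x + d' * y) (a' * a + b' * b)
      (c' * a + d' * b) (a' * c + b' * d) (c' * c + d' * d) :=
  ⟨nfz_img h.1 (by ring) (by ring), nfz_img h.2.1 (by ring) (by ring),
    nfz_img h.2.2.1 (by ring) (by ring), nfz_img h.2.2.2 (by ring) (by ring)⟩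

private theorem nfz_flip1 {B : Set (ℝ × ℝ)} {x y a b c d : ℤ} (h : Zt B x y a b c d) :
    Zt B (x + a) (y + b) (-a) (-b) c d :=
  ⟨h.2.1, nfz_mem h.1 (by ring) (by ring), h.2.2.2, nfz_mem h.2.2.1 (by ring) (by ring)⟩

private theorem nfz_swap {B : Set (ℝ × ℝ)} {x y a b c d : ℤ} (h : Zt B x y a b c d) :
    Zt B x y c d a b :=
  ⟨h.1, h.2.2.1, h.2.1, nfz_mem h.2.2.2 (by ring) (by ring)⟩

private theorem nfz_core {C : Set (ℝ × ℝ)} {x y a b c d : ℤ} (h : Zt C x y a b c d)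
    (ha : 0 ≤ a) (hb : 0 ≤ b) (hc : 0 ≤ c) (hd : 0 ≤ d) (hdet : a * d - b * c = 1)
    (hs : b + d ≤ a + c) : Thin C ∨ (Nf a b c d ∧ 2 ≤ b + d) := by
  rcases hs.eq_or_lt with he | hlt
  · have hd' : d = a + c - b := by linarith
    have h1 : (a - b) * (b + c + (a - b)) = 1 := by rw [← hdet, hd']; ring
    have h2 : 0 < a - b := by
      by_contra hneg
      have h3 : b + c + (a - b) = a + c := by ring
      rw [h3] at h1
      nlinarith
    have h3 : a - b = 1 := by nlinarith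
    have h4 : b + c = 0 := by rw [h3] at h1; linarith
    have hb0 : b = 0 := by linarith
    have hc0 : c = 0 := by linarith
    have ha1 : a = 1 := by linarith
    have hd1 : d = 1 := by rw [hd', ha1, hb0, hc0]; norm_num
    subst hb0 hc0 ha1 hd1
    left
    exact ⟨x, x, y, h.1, nfz_mem h.2.1 (by ring) (by ring), nfz_mem h.2.2.1 (by ring) (by ring),
      nfz_mem h.2.2.2 (by ring) (by ring)⟩
  · by_cases h2 : 2 ≤ b + d
    · right
      exact ⟨⟨ha, hb, hc, hd, hdet, hlt⟩, h2⟩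
    · left
      have hd0 : d ≠ 0 := by
        intro h0
        rw [h0] at hdet
        nlinarith
      have hd1 : d = 1 := by omega
      have hb0 : b = 0 := by omega
      subst hd1 hb0
      have ha1 : a = 1 := by linarith
      subst ha1
      exact ⟨x, x + c, y, h.1, nfz_mem h.2.1 (by ring) (by ring),
        nfz_mem h.2.2.1 (by ring) (by ring), nfz_mem h.2.2.2 (by ring) (by ring)⟩

private theorem nfz_pos {B : Set (ℝ × ℝ)} {x y a b c d s : ℤ} (hs : s = 1 ∨ s = -1)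
    (h : Zt B x y a b c d) (ha : 0 ≤ s * a) (hb : 0 ≤ b) (hc : 0 ≤ s * c) (hd : 0 ≤ d)
    (hdet : s * (a * d - b * c) = 1) :
    ∃ a' b' c' d' : ℤ, SqM a' b' c' d' ∧ (Thin (umap a' b' c' d' 0 0 '' B) ∨
    ∃ x₁ y₁ a₁ b₁ c₁ d₁ : ℤ, Nf a₁ b₁ c₁ d₁ ∧ 2 ≤ b₁ + d₁ ∧
      Zt (umap a' b' c' d' 0 0 '' B) x₁ y₁ a₁ b₁ c₁ d₁) := by
  rcases le_total (b + d) (s * a + s * c) with hle | hle
  · refine ⟨s, 0, 0, 1, Or.inl ⟨hs, rfl, rfl, Or.inl rfl⟩, ?_⟩
    have h1 := nfz_map s 0 0 1 h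
    have h2 : Zt (umap s 0 0 1 0 0 '' B) (s * x) y (s * a) b (s * c) d := by
      simpa using h1
    rcases nfz_core h2 ha hb hc hd (by rw [← hdet]; ring) hle with h3 | h3
    · exact Or.inl h3
    · exact Or.inr ⟨_, _, _, _, _, _, h3.1, h3.2, h2⟩
  · refine ⟨0, 1, s, 0, Or.inr ⟨rfl, Or.inl rfl, hs, rfl⟩, ?_⟩
    have h1 := nfz_swap (nfz_map 0 1 s 0 h)
    have h2 : Zt (umap 0 1 s 0 0 0 '' B) y (s * x) d (s * c) b (s * a) := by
      simpa using h1
    rcases nfz_core h2 hd hc hb ha (by rw [← hdet]; ring) (by linarith) with h3 | h3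
    · exact Or.inl h3
    · exact Or.inr ⟨_, _, _, _, _, _, h3.1, h3.2, h2⟩

private theorem nfz_pos' {B : Set (ℝ × ℝ)} {x y a b c d s : ℤ} (hs : s = 1 ∨ s = -1)
    (h : Zt B x y a b c d) (ha : 0 ≤ s * a) (hb : 0 ≤ b) (hc : 0 ≤ s * c) (hd : 0 ≤ d)
    (hdet : a * d - b * c = 1 ∨ a * d - b * c = -1) :
    ∃ a' b' c' d' : ℤ, SqM a' b' c' d' ∧ (Thin (umap a' b' c' d' 0 0 '' B) ∨
    ∃ x₁ y₁ a₁ b₁ c₁ d₁ : ℤ, Nf a₁ b₁ c₁ d₁ ∧ 2 ≤ b₁ + d₁ ∧
      Zt (umap a' b' c' d' 0 0 '' B) x₁ y₁ a₁ b₁ c₁ d₁) := by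
  have key : s * (a * d - b * c) = 1 ∨ s * (c * b - d * a) = 1 := by
    rcases hs with rfl | rfl <;> rcases hdet with h1 | h1
    · left; linarith
    · right; linarith
    · right; linarith
    · left; linarith
  rcases key with h1 | h1
  · exact nfz_pos hs h ha hb hc hd h1
  · exact nfz_pos hs (nfz_swap h) hc hd ha hb h1

private theorem nfz_sgn {a b c d : ℤ} (hdet : a * d - b * c = 1) :
    ∃ s : ℤ, (s = 1 ∨ s = -1) ∧ 0 ≤ (s * a) * b ∧ 0 ≤ (s * c) * d := by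
  by_cases h1 : 0 ≤ a * b
  · by_cases h2 : 0 ≤ c * d
    · exact ⟨1, Or.inl rfl, by linarith, by linarith⟩
    · by_cases h3 : a * b = 0
      · exact ⟨-1, Or.inr rfl, by linarith, by linarith⟩
      · exfalso
        have h4 : 0 < a * b := lt_of_le_of_ne h1 (Ne.symm h3)
        have h5 : c * d < 0 := not_le.mp h2
        have h6 : 0 < (a * d) * (-(b * c)) := by nlinarith
        rcases pos_and_pos_or_neg_and_neg_of_mul_pos h6 with ⟨h7, h8⟩ | ⟨h7, h8⟩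
        · linarith
        · linarith
  · have h1' : a * b < 0 := not_le.mp h1
    by_cases h2 : c * d ≤ 0
    · exact ⟨-1, Or.inr rfl, by linarith, by linarith⟩
    · exfalso
      have h5 : 0 < c * d := not_le.mp h2
      have h6 : 0 < (a * d) * (-(b * c)) := by nlinarith
      rcases pos_and_pos_or_neg_and_neg_of_mul_pos h6 with ⟨h7, h8⟩ | ⟨h7, h8⟩
      · linarith
      · linarith

theorem pI_NFZ : SI_NFZ := by
  intro B x y a b c d hdet h
  obtain ⟨s, hs, h1, h2⟩ := nfz_sgn hdet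
  rcases mul_nonneg_iff.mp h1 with ⟨ha, hb⟩ | ⟨ha, hb⟩ <;>
    rcases mul_nonneg_iff.mp h2 with ⟨hc, hd⟩ | ⟨hc, hd⟩
  · exact nfz_pos' hs h ha hb hc hd (Or.inl hdet)
  · exact nfz_pos' hs (nfz_swap (nfz_flip1 (nfz_swap h))) ha hb (by linarith) (by linarith)
      (Or.inr (by linarith))
  · exact nfz_pos' hs (nfz_flip1 h) (by linarith) (by linarith) hc hd (Or.inr (by linarith))
  · exact nfz_pos' hs (nfz_swap (nfz_flip1 (nfz_swap (nfz_flip1 h)))) (by linarith) (by linarith)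
      (by linarith) (by linarith) (Or.inl (by linarith))

end Pool.Agent.Lib.MP_0bc52e_nt.LC
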