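import Pool.Agent.Lib.MP_0bc52e_nt.T.StmI3

set_option autoImplicit false

namespace Pool.Agent.Lib.MP_0bc52e_nt.LC

private theorem r2_ceil (y q : ℤ) (hq : 2 ≤ q) : ∃ y' : ℤ, ∃ u : ℝ, 0 ≤ u ∧ u ≤ 1 ∧
    (1 - 1 / (q : ℝ)) * u + 1 / (q : ℝ) * y = y' := by
  have hq0 : (0 : ℝ) < (q : ℝ) := by
    have : 0 < q := by omega
    exact_mod_cast this
  have hq1 : (0 : ℝ) < (q : ℝ) - 1 := by
    have : 0 < q - 1 := by omega
    exact_mod_cast this
  have h1 := Int.emod_add_mul_ediv (-y) q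
  have h2 := Int.emod_nonneg (-y) (show q ≠ 0 by omega)
  have h3 := Int.emod_lt_of_pos (-y) (show 0 < q by omega)
  have e1 : (((-y) % q : ℤ) : ℝ) = (-((-y) / q) : ℤ) * q - y := by
    have : ((-y) % q : ℤ) = (-((-y) / q)) * q - y := by linarith
    exact_mod_cast this
  refine ⟨-((-y) / q), (((-y) % q : ℤ) : ℝ) / (q - 1), ?_, ?_, ?_⟩
  · exact div_nonneg (by exact_mod_cast h2) hq1.le
  · rw [div_le_one hq1]
    have : (-y) % q ≤ q - 1 := by omega
    exact_mod_cast this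
  · rw [e1]
    field_simp
    ring

theorem pI_R2 : SI_R2 := by
  intro P x y z hP h00 h01 h10 h11 hx hxyz
  rcases eq_or_lt_of_le hx with h | h
  · subst h
    exact ⟨y, z, hxyz⟩
  · obtain ⟨y', u, hu0, hu1, hu⟩ := r2_ceil y (x - 1) (by omega)
    obtain ⟨z', w, hw0, hw1, hw⟩ := r2_ceil z (x - 1) (by omega)
    have hq1 : (1 : ℝ) < ((x - 1 : ℤ) : ℝ) := by
      have : 1 < x - 1 := by omega
      exact_mod_cast this
    have hq0 : (0 : ℝ) < ((x - 1 : ℤ) : ℝ) := by linarith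
    have hs0 : 0 ≤ 1 / ((x - 1 : ℤ) : ℝ) := by positivity
    have hs1 : 1 / ((x - 1 : ℤ) : ℝ) ≤ 1 := by
      rw [div_le_one hq0]
      exact hq1.le
    have k0 : ((1 : ℝ), (0 : ℝ), w) ∈ P := by
      have h := hP h00 h01 (show 0 ≤ 1 - w by linarith) hw0 (by ring)
      have e : (1 - w) • ip (1, 0, 0) + w • ip (1, 0, 1) = ((1 : ℝ), (0 : ℝ), w) := by
        ext <;> simp [ip]
      rwa [e] at h
    have k1 : ((1 : ℝ), (1 : ℝ), w) ∈ P := by
      have h := hP h10 h11 (show 0 ≤ 1 - w by linarith) hw0 (by ring)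
      have e : (1 - w) • ip (1, 1, 0) + w • ip (1, 1, 1) = ((1 : ℝ), (1 : ℝ), w) := by
        ext <;> simp [ip]
      rwa [e] at h
    have k2 : ((1 : ℝ), u, w) ∈ P := by
      have h := hP k0 k1 (show 0 ≤ 1 - u by linarith) hu0 (by ring)
      have e : (1 - u) • ((1 : ℝ), (0 : ℝ), w) + u • ((1 : ℝ), (1 : ℝ), w) = ((1 : ℝ), u, w) := by
        ext
        · simp
        · simp
        · simp
          ring
      rwa [e] at h
    refine ⟨y', z', ?_⟩
    have h := hP k2 hxyz (show 0 ≤ 1 - 1 / ((x - 1 : ℤ) : ℝ) by linarith) hs0 (by ring)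
    have e : (1 - 1 / ((x - 1 : ℤ) : ℝ)) • ((1 : ℝ), u, w) + (1 / ((x - 1 : ℤ) : ℝ)) • ip (x, y, z) =
        ip (2, y', z') := by
      ext
      · simp only [ip, Prod.fst_add, Prod.smul_fst, smul_eq_mul]
        field_simp
        push_cast
        ring
      · simp only [ip, Prod.fst_add, Prod.snd_add, Prod.smul_fst, Prod.smul_snd, smul_eq_mul]
        exact hu
      · simp only [ip, Prod.snd_add, Prod.smul_snd, smul_eq_mul]
        exact hw
    rwa [e] at h

end Pool.Agent.Lib.MP_0bc52e_nt.LC
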