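import Pool.Agent.Lib.MP_0bc52e_nt.T.StmI1

/-!
# [TI W3s] (MP_0bc52e_nt, width one): the symmetries of the triangle `W`
-/

namespace Pool.Agent.Lib.MP_0bc52e_nt.LC

theorem w3s_mem {A : Set (ℝ × ℝ)} {a b c d : ℤ} {u v : ℝ × ℝ} (hu : u ∈ A)
    (h1 : (a : ℝ) * u.1 + b * u.2 = v.1) (h2 : (c : ℝ) * u.1 + d * u.2 = v.2) :
    v ∈ umap a b c d 0 0 '' A := by
  refine ⟨u, hu, ?_⟩
  unfold umap
  ext
  · push_cast
    linarith
  · push_cast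
    linarith

theorem pI_W3s : SI_W3s := by
  intro A a b c d h
  rcases h with ⟨rfl, rfl, rfl, rfl⟩ | ⟨rfl, rfl, rfl, rfl⟩ | ⟨rfl, rfl, rfl, rfl⟩ |
    ⟨rfl, rfl, rfl, rfl⟩ | ⟨rfl, rfl, rfl, rfl⟩ | ⟨rfl, rfl, rfl, rfl⟩
  · refine ⟨by norm_num, fun ⟨h1, h2, h3⟩ => ⟨?_, ?_, ?_⟩⟩
    · exact w3s_mem h1 (by norm_num) (by norm_num)
    · exact w3s_mem h2 (by norm_num) (by norm_num)
    · exact w3s_mem h3 (by norm_num) (by norm_num)
  · refine ⟨by norm_num, fun ⟨h1, h2, h3⟩ => ⟨?_, ?_, ?_⟩⟩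
    · exact w3s_mem h2 (by norm_num) (by norm_num)
    · exact w3s_mem h1 (by norm_num) (by norm_num)
    · exact w3s_mem h3 (by norm_num) (by norm_num)
  · refine ⟨by norm_num, fun ⟨h1, h2, h3⟩ => ⟨?_, ?_, ?_⟩⟩
    · exact w3s_mem h3 (by norm_num) (by norm_num)
    · exact w3s_mem h1 (by norm_num) (by norm_num)
    · exact w3s_mem h2 (by norm_num) (by norm_num)
  · refine ⟨by norm_num, fun ⟨h1, h2, h3⟩ => ⟨?_, ?_, ?_⟩⟩
    · exact w3s_mem h2 (by norm_num) (by norm_num)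
    · exact w3s_mem h3 (by norm_num) (by norm_num)
    · exact w3s_mem h1 (by norm_num) (by norm_num)
  · refine ⟨by norm_num, fun ⟨h1, h2, h3⟩ => ⟨?_, ?_, ?_⟩⟩
    · exact w3s_mem h1 (by norm_num) (by norm_num)
    · exact w3s_mem h3 (by norm_num) (by norm_num)
    · exact w3s_mem h2 (by norm_num) (by norm_num)
  · refine ⟨by norm_num, fun ⟨h1, h2, h3⟩ => ⟨?_, ?_, ?_⟩⟩
    · exact w3s_mem h3 (by norm_num) (by norm_num)
    · exact w3s_mem h2 (by norm_num) (by norm_num)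
    · exact w3s_mem h1 (by norm_num) (by norm_num)

end Pool.Agent.Lib.MP_0bc52e_nt.LC
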