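import Pool.Agent.Lib.MP_0bc52e_nt.T.StmI1
namespace Pool.Agent.Lib.MP_0bc52e_nt.LC

theorem pI_gap0 : SI_gap0 := by
  intro p m y i hp hF
  refine ⟨⌊(y + m / 2) / p⌋, ?_⟩
  have h1 := Int.floor_le ((y + m / 2) / p)
  have h2 := Int.lt_floor_add_one ((y + m / 2) / p)
  rw [le_div_iff₀ hp] at h1
  rw [div_lt_iff₀ hp] at h2
  set j := ⌊(y + m / 2) / p⌋
  have h3 := hF i j
  constructor
  · by_contra h
    push Not at h
    exact h3 ⟨by linarith, by linarith, by linarith⟩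
  · linarith

end Pool.Agent.Lib.MP_0bc52e_nt.LC
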