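import Pool.Agent.Lib.MP_0bc52e_nt.T.StmI3

/-!
# Piece `u3c` (conjecture (T), part I): the criterion under lattice automorphisms
-/

set_option autoImplicit false

namespace Pool.Agent.Lib.MP_0bc52e_nt.LC

theorem pI_u3c : SI_u3c := by
  rintro g ⟨-, g', ⟨a₁', a₂', a₃', a₄', b₁', b₂', b₃', b₄', c₁', c₂', c₃', c₄', h'⟩, hl, -⟩ P p
    a b c a' b' c' ho hC h h0 hp x y z u v w hq hx hy hz hdx hdy hdz
  obtain ⟨⟨q₁, q₂, q₃⟩, hqP, hqg⟩ := hq
  have e1 := hl (q₁, q₂, q₃)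
  rw [hqg, h'] at e1
  simp only [Prod.mk.injEq] at e1
  obtain ⟨e11, e12, e13⟩ := e1
  have e2 := hl (ip (a, b, c))
  rw [ho, h'] at e2
  simp only [ip, Prod.mk.injEq] at e2
  obtain ⟨e21, e22, e23⟩ := e2
  have k1 : a₁' * a' + a₂' * b' + a₃' * c' + a₄' = a := by exact_mod_cast e21
  have k2 : b₁' * a' + b₂' * b' + b₃' * c' + b₄' = b := by exact_mod_cast e22
  have k3 : c₁' * a' + c₂' * b' + c₃' * c' + c₄' = c := by exact_mod_cast e23
  refine hC h h0 hp (a₁' * x + a₂' * y + a₃' * z + h * a₄') (b₁' * x + b₂' * y + b₃' * z + h * b₄')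
    (c₁' * x + c₂' * y + c₃' * z + h * c₄') q₁ q₂ q₃ hqP ?_ ?_ ?_ ?_ ?_ ?_
  · push_cast
    rw [hx, hy, hz, ← e11]
    ring
  · push_cast
    rw [hx, hy, hz, ← e12]
    ring
  · push_cast
    rw [hx, hy, hz, ← e13]
    ring
  · have : a₁' * x + a₂' * y + a₃' * z + h * a₄' - h * a =
      a₁' * (x - h * a') + a₂' * (y - h * b') + a₃' * (z - h * c') := by
      rw [← k1]; ring
    rw [this]
    exact dvd_add (dvd_add (hdx.mul_left _) (hdy.mul_left _)) (hdz.mul_left _)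
  · have : b₁' * x + b₂' * y + b₃' * z + h * b₄' - h * b =
      b₁' * (x - h * a') + b₂' * (y - h * b') + b₃' * (z - h * c') := by
      rw [← k2]; ring
    rw [this]
    exact dvd_add (dvd_add (hdx.mul_left _) (hdy.mul_left _)) (hdz.mul_left _)
  · have : c₁' * x + c₂' * y + c₃' * z + h * c₄' - h * c =
      c₁' * (x - h * a') + c₂' * (y - h * b') + c₃' * (z - h * c') := by
      rw [← k3]; ring
    rw [this]
    exact dvd_add (dvd_add (hdx.mul_left _) (hdy.mul_left _)) (hdz.mul_left _)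

end Pool.Agent.Lib.MP_0bc52e_nt.LC
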