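import Pool.Agent.Lib.MP_0bc52e_nt.T.StmI1

set_option autoImplicit false

namespace Pool.Agent.Lib.MP_0bc52e_nt.LC

theorem pI_umim (h1 : S_umconv) : SI_umim := by
  intro a b c d e f hdet
  have hum : IsUM (umap a b c d e f) := ⟨a, b, c, d, e, f, hdet, fun v => rfl⟩
  refine ⟨hum, fun A => ?_⟩
  obtain ⟨k1, k2, k3⟩ := h1 _ hum A
  refine ⟨k1, k2, k3, fun x y hxy => ⟨ip2 (x, y), hxy, ?_⟩⟩
  simp only [umap, ip2]
  push_cast
  rfl

end Pool.Agent.Lib.MP_0bc52e_nt.LC
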